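import Pool.Agent.TH773.ST.Slk

/-! The rule of Turán's construction and six-tuples which follow it. -/

set_option autoImplicit false
set_option maxRecDepth 100000
set_option maxHeartbeats 4000000
open Finset
open scoped Classical

namespace Pool.Agent.TH773.ST
open Pool.Agent.H122R2.N6 Pool.Agent.H37R3.Pen Pool.Agent.H37R3.Cop Pool.Agent.H37R3.CopL

/-- the rule of Turán's construction: three different parts, or two vertices in a part and one in
the next part -/
def rB (a b c : Fin 3) : Bool :=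
  (a != b && a != c && b != c) || (a == b && c == a + 1) || (a == c && b == a + 1) ||
    (b == c && a == b + 1)

def Rf (a b c : Fin 3) : ℕ := if rB a b c = true then 1 else 0

theorem Rf_sy : Sy Rf where
  b := by unfold Bt; decide
  h213 := by decide
  h132 := by decide

def MT : List ℕ := [0, 1043, 7294, 65520, 76983, 81150, 131056, 261091]

theorem mt_col : ∀ m ∈ MT, ∃ c : Fin 6 → Fin 3, Copy Rf m c := by
  intro m hm
  unfold MT at hm
  simp only [List.mem_cons, List.not_mem_nil, or_false] at hm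
  rcases hm with rfl | rfl | rfl | rfl | rfl | rfl | rfl | rfl
  · exact ⟨![0, 0, 0, 0, 0, 0], by unfold Copy; decide +kernel⟩
  · exact ⟨![0, 0, 1, 1, 1, 1], by unfold Copy; decide +kernel⟩
  · exact ⟨![0, 0, 0, 1, 1, 1], by unfold Copy; decide +kernel⟩
  · exact ⟨![0, 0, 0, 0, 1, 1], by unfold Copy; decide +kernel⟩
  · exact ⟨![0, 1, 2, 2, 2, 2], by unfold Copy; decide +kernel⟩
  · exact ⟨![0, 1, 1, 2, 2, 2], by unfold Copy; decide +kernel⟩
  · exact ⟨![0, 1, 1, 1, 2, 2], by unfold Copy; decide +kernel⟩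
  · exact ⟨![0, 0, 1, 1, 2, 2], by unfold Copy; decide +kernel⟩

section
variable {V : Type} (E : V → V → V → ℕ)

/-- the six vertices follow the rule for some colouring -/
def TT (x : Fin 6 → V) : Prop :=
  ∃ c : Fin 6 → Fin 3, ∀ i j k : Fin 6, i < j → j < k →
    E (x i) (x j) (x k) = Rf (c i) (c j) (c k)

/-- number of six-tuples which do not follow the rule -/
noncomputable def NT [Fintype V] : ℕ := ((univ : Finset (Fin 6 → V)).filter fun x => ¬ TT E x).card

variable {E}

theorem TT_of_rel (hE : Sy E) {x : Fin 6 → V} (h : RelL E MT x) : TT E x := by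
  obtain ⟨g, hg, m, hm, hc⟩ := h
  obtain ⟨c, hcc⟩ := mt_col m hm
  have hgs : Function.Surjective g := Finite.surjective_of_injective hg
  choose f hf using hgs
  refine ⟨c ∘ f, fun i j k hij hjk => ?_⟩
  have h1 : f i ≠ f j := fun e => hij.ne (by rw [← hf i, ← hf j, e])
  have h2 : f i ≠ f k := fun e => (hij.trans hjk).ne (by rw [← hf i, ← hf k, e])
  have h3 : f j ≠ f k := fun e => hjk.ne (by rw [← hf j, ← hf k, e])
  have h4 := hc.full hE (f i) (f j) (f k) h1 h2 h3
  have h5 := hcc.full Rf_sy (f i) (f j) (f k) h1 h2 h3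
  simp only [Function.comp, hf] at h4 ⊢
  rw [h4, h5]

/-- the sum inequality with slack, for structures given by an indicator -/
theorem slack_gen [Fintype V] (hE : Sy E) (hK : NoK4 E) {K K2 T C P s D : ℕ} {B : ℤ}
    {q4 : ℕ → ℕ → ℕ → ℕ} {q2 : ℕ → ℕ → ℕ}
    {W : ℕ → ℕ → ℕ} {l : ℕ → ℕ → ℕ → ℕ} {W2 : ℕ → ℕ} {l2 : ℕ → ℕ → ℕ}
    {LT LN MN : List ℕ} {TbT TbN : List (ℕ × ℕ × ℕ)} (hs : s ≤ C)
    (hq4 : ∀ c i j, c < 16 → i < 64 → j < 64 → (q4 c i j : ℤ) =
      ∑ k ∈ range K, (W c k : ℤ) * ((l c i k : ℤ) - B) * ((l c j k : ℤ) - B)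
        + 4611686018427387904)
    (hq2 : ∀ i j, i < 16 → j < 16 → (q2 i j : ℤ) =
      ∑ k ∈ range K2, (W2 k : ℤ) * ((l2 i k : ℤ) - B) * ((l2 j k : ℤ) - B)
        + (4611686018427387904 + (T : ℤ) * ((kk i j : ℕ) : ℤ)))
    (cs4 : sym4 q4 = true) (cs2 : sym2 q2 = true)
    (hc : ∀ b012 b013 b023 b123 b014 b024 b124 b034 b134 b234 : ℕ, Bt b012 → Bt b013 → Bt b023 →
      Bt b123 → Bt b014 → Bt b024 → Bt b124 → Bt b034 → Bt b134 → Bt b234 →
      tg b012 b013 b023 b123 b014 b024 b124 b034 b134 b234 = 4 →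
      chkS q4 q2 C P s LT LN b012 b013 b023 b123 b014 b024 b124 b034 b134 b234 = true)
    (iT : isoM LT TbT MT = true) (iN : isoM LN TbN MN = true)
    (hC : C = D + 276701161105643274240) :
    180 * T * Fintype.card V ^ 3 * (∑ a, ∑ b, ∑ c, E a b c) + s * NT E ≤
      D * Fintype.card V ^ 6 + P * ∑ x : Fin 6 → V, XL E MN x := by
  have hb := boundX E hE K K2 0 1
    (fun a b c d e f => C + P * XL6 E MN a b c d e f + s * XL6 E MT a b c d e f - s)
    q4 W l q2 W2 l2 B 4611686018427387904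
    4611686018427387904 (fun k => (T : ℤ) * (k : ℤ)) hq4 hq2
    (leafS_all hE hK hs iT iN cs4 cs2 hc)
  rw [T2_lin E hE] at hb
  simp only [XL_eq] at hb
  have h1 : ∀ x : Fin 6 → V, ((C + P * XL E MN x + s * XL E MT x - s : ℕ) : ℤ) =
      ((C : ℤ) - s) + ((P : ℤ) * (XL E MN x : ℤ) + (s : ℤ) * (XL E MT x : ℤ)) := by
    intro x
    have h2 : s ≤ C + P * XL E MN x + s * XL E MT x := by
      rw [Nat.add_assoc]; exact hs.trans (Nat.le_add_right _ _)
    rw [Nat.cast_sub h2]
    push_cast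
    ring
  simp only [h1] at hb
  rw [sum_add_distrib, sum_add_distrib, ← mul_sum, ← mul_sum, sum_const, card_univ,
    Fintype.card_fun, Fintype.card_fin, nsmul_eq_mul] at hb
  have h3 : (∑ x : Fin 6 → V, (XL E MT x : ℤ)) + (NT E : ℤ) ≤ (Fintype.card V : ℤ) ^ 6 := by
    have h4 : ∑ x : Fin 6 → V, XL E MT x =
        ((univ : Finset (Fin 6 → V)).filter fun x => RelL E MT x).card := by
      rw [card_filter]; rfl
    have h5 : ((univ : Finset (Fin 6 → V)).filter fun x => RelL E MT x).card + NT E ≤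
        Fintype.card V ^ 6 := by
      unfold NT
      have h6 := Finset.card_filter_add_card_filter_not (s := (univ : Finset (Fin 6 → V)))
        (fun x => RelL E MT x)
      rw [card_univ, Fintype.card_fun, Fintype.card_fin] at h6
      rw [← h6]
      refine Nat.add_le_add_left (card_le_card ?_) _
      intro x hx
      rw [mem_filter] at hx ⊢
      exact ⟨mem_univ _, fun h => hx.2 (TT_of_rel hE h)⟩
    rw [← h4] at h5
    exact_mod_cast h5
  have h6 : (0 : ℤ) ≤ (s : ℤ) := by positivity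
  have h7 := mul_le_mul_of_nonneg_left h3 h6
  have hC' : (C : ℤ) = (D : ℤ) + 276701161105643274240 := by exact_mod_cast hC
  rw [hC'] at hb
  have h8 : (180 * (T : ℤ) * (Fintype.card V : ℤ) ^ 3 * (∑ a, ∑ b, ∑ c, (E a b c : ℤ)) +
      (s : ℤ) * (NT E : ℤ)) ≤ (D : ℤ) * (Fintype.card V : ℤ) ^ 6 +
        (P : ℤ) * ∑ x : Fin 6 → V, (XL E MN x : ℤ) := by
    push_cast at hb
    linarith
  exact_mod_cast h8

end
end Pool.Agent.TH773.ST
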