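import Pool.Agent.TH773.FA.G7Fin
import Pool.Agent.TH773.ST.Typ

/-! Six-tuples which induce the subgraph of Turán's construction with two vertices in each part. -/

set_option autoImplicit false
set_option maxRecDepth 100000
set_option maxHeartbeats 4000000
open Finset

namespace Pool.Agent.TH773.ST
open Pool.Agent.H122R2.N6 Pool.Agent.H37R3.Pen Pool.Agent.H37R3.Cop Pool.Agent.H37R3.CopL
open Pool.Agent.TH773.FA

theorem sum_gen {V : Type} [Fintype V] {E : V → V → V → ℕ} (hE : Sy E) (hK : NoK4 E)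
    {K K2 T C P D : ℕ} {B : ℤ} {q4 : ℕ → ℕ → ℕ → ℕ} {q2 : ℕ → ℕ → ℕ}
    {W : ℕ → ℕ → ℕ} {l : ℕ → ℕ → ℕ → ℕ} {W2 : ℕ → ℕ} {l2 : ℕ → ℕ → ℕ}
    {LST : List ℕ} {TAB : List (ℕ × ℕ × ℕ)} {M : List ℕ}
    (hq4 : ∀ c i j, c < 16 → i < 64 → j < 64 → (q4 c i j : ℤ) =
      ∑ k ∈ range K, (W c k : ℤ) * ((l c i k : ℤ) - B) * ((l c j k : ℤ) - B)
        + 4611686018427387904)
    (hq2 : ∀ i j, i < 16 → j < 16 → (q2 i j : ℤ) =
      ∑ k ∈ range K2, (W2 k : ℤ) * ((l2 i k : ℤ) - B) * ((l2 j k : ℤ) - B)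
        + (4611686018427387904 + (T : ℤ) * ((kk i j : ℕ) : ℤ)))
    (cs4 : sym4 q4 = true) (cs2 : sym2 q2 = true)
    (hc : ∀ b012 b013 b023 b123 b014 b024 b124 b034 b134 b234 : ℕ, Bt b012 → Bt b013 → Bt b023 →
      Bt b123 → Bt b014 → Bt b024 → Bt b124 → Bt b034 → Bt b134 → Bt b234 →
      tg b012 b013 b023 b123 b014 b024 b124 b034 b134 b234 = 4 →
      chkX q4 q2 C P LST b012 b013 b023 b123 b014 b024 b124 b034 b134 b234 = true)
    (iso : isoM LST TAB M = true) (hC : C = D + 276701161105643274240) :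
    180 * T * Fintype.card V ^ 3 * (∑ a, ∑ b, ∑ c, E a b c) ≤ D * Fintype.card V ^ 6 + P *
      ∑ x : Fin 6 → V, XL E M x := by
  have hb := boundX E hE K K2 C P (XL6 E M) q4 W l q2 W2 l2 B 4611686018427387904
    4611686018427387904 (fun k => (T : ℤ) * (k : ℤ)) hq4 hq2
    (leafX_all hE hK (XL6_0 E _) (XL6_1 E _) (XL6_2 E _)
      (XL6_3 E _) (hmemL_of hE iso) cs4 cs2 hc)
  rw [T2_lin E hE] at hb
  simp only [XL_eq] at hb
  have hC' : (C : ℤ) = (D : ℤ) + 276701161105643274240 := by exact_mod_cast hC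
  rw [hC'] at hb
  have h7 : (180 * (T : ℤ) * (Fintype.card V : ℤ) ^ 3 * (∑ a, ∑ b, ∑ c, (E a b c : ℤ))) ≤
      (D : ℤ) * (Fintype.card V : ℤ) ^ 6 + (P : ℤ) * ∑ x : Fin 6 → V, (XL E M x : ℤ) := by
    linarith
  exact_mod_cast h7

/-- dense structures have many copies of the six-vertex structure with two vertices in each part -/
theorem g7E {V : Type} [Fintype V] {E : V → V → V → ℕ} (hE : Sy E) (hK : NoK4 E) :
    1000 * Fintype.card V ^ 3 * (∑ a, ∑ b, ∑ c, E a b c) ≤ 545 * Fintype.card V ^ 6 + 640 *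
      ∑ x : Fin 6 → V, XL E [261091] x := by
  have h := sum_gen (E := E) hE hK G7.hq4 G7.hq2 G7.cs4 G7.cs2 G7.hc G7.iso
    (D := 180 * 20000000000000000 * 545 / 1000) (P := G7.PEN) rfl
  have hP : G7.PEN = 180 * 20000000000000000 * 640 / 1000 := rfl
  rw [hP] at h
  generalize (∑ x : Fin 6 → V, XL E [261091] x) = X at h ⊢
  have e2 : 180 * 20000000000000000 * Fintype.card V ^ 3 * (∑ a, ∑ b, ∑ c, E a b c) =
      3600000000000000000 * (Fintype.card V ^ 3 * (∑ a, ∑ b, ∑ c, E a b c)) := by ring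
  rw [e2] at h
  rw [mul_assoc]
  generalize Fintype.card V ^ 3 * (∑ a, ∑ b, ∑ c, E a b c) = Y at h ⊢
  generalize Fintype.card V ^ 6 = W at h ⊢
  omega

end Pool.Agent.TH773.ST
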