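import Pool.Agent.TH773.ST.Sed
import Pool.Agent.TH773.ST.G7E

/-! A colouring from seeds, by averaging. -/

set_option autoImplicit false
set_option maxRecDepth 100000
set_option maxHeartbeats 4000000
open Finset
open scoped Classical

namespace Pool.Agent.TH773.ST
open Pool.Agent.H122R2.N6 Pool.Agent.H37R3.Pen Pool.Agent.H37R3.Cop Pool.Agent.H37R3.CopL

section
variable {V : Type} [Fintype V]

theorem card_pull {k m : ℕ} (e : Fin m → Fin k) (he : Function.Injective e)
    (Q : (Fin m → V) → Prop) :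
    ((univ : Finset (Fin k → V)).filter fun w => Q (w ∘ e)).card ≤
      ((univ : Finset (Fin m → V)).filter Q).card * Fintype.card V ^ (k - m) := by
  have h1 : ((univ : Finset (Fin k → V)).filter fun w => Q (w ∘ e)).card ≤
      (((univ : Finset (Fin m → V)).filter Q) ×ˢ
        (univ : Finset ({j : Fin k // j ∉ Set.range e} → V))).card := by
    refine card_le_card_of_injOn (fun w => (w ∘ e, fun j => w j.1)) ?_ ?_
    · intro w hw
      have hw' := (mem_filter.mp hw).2
      exact mem_coe.mpr (mem_product.mpr ⟨mem_filter.mpr ⟨mem_univ _, hw'⟩, mem_univ _⟩)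
    · intro w _ w' _ h
      have ha := (Prod.mk.inj h).1
      have hb := (Prod.mk.inj h).2
      funext j
      by_cases hj : j ∈ Set.range e
      · obtain ⟨i, rfl⟩ := hj
        exact congrFun ha i
      · exact congrFun hb ⟨j, hj⟩
  refine h1.trans (le_of_eq ?_)
  rw [card_product, card_univ (α := {j : Fin k // j ∉ Set.range e} → V), Fintype.card_fun]
  have h2 : Fintype.card {j : Fin k // j ∉ Set.range e} = k - m := by
    rw [Fintype.card_subtype_compl, Fintype.card_fin]
    have h3 : Fintype.card {j : Fin k // j ∈ Set.range e} = m :=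
      (Fintype.card_congr (Equiv.ofInjective e he)).symm.trans (Fintype.card_fin m)
    rw [h3]
  rw [h2]

variable (E : V → V → V → ℕ)

/-- number of triples (as functions) for which `E` differs from the rule for the colouring `g` -/
noncomputable def bad (g : V → Fin 3) : ℕ :=
  ((univ : Finset (Fin 3 → V)).filter fun t =>
    E (t 0) (t 1) (t 2) ≠ Rf (g (t 0)) (g (t 1)) (g (t 2))).card

noncomputable def Seeds : Finset (Fin 5 → V) := univ.filter fun s => Seed E s

variable {E}

theorem sum_XL_copy (m : ℕ) : ∑ x : Fin 6 → V, XL E [m] x ≤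
    720 * ((univ : Finset (Fin 6 → V)).filter fun x => Copy E m x).card := by
  have e1 : ∑ x : Fin 6 → V, XL E [m] x =
      ((univ : Finset (Fin 6 → V)).filter fun x => RelL E [m] x).card := by
    rw [card_filter]; rfl
  rw [e1]
  have h1 : ((univ : Finset (Fin 6 → V)).filter fun x => RelL E [m] x) ⊆
      (univ : Finset (Equiv.Perm (Fin 6))).biUnion fun g =>
        (univ : Finset (Fin 6 → V)).filter fun x => Copy E m (x ∘ g) := by
    intro x hx
    obtain ⟨g, hg, m', hm, hc⟩ := (mem_filter.mp hx).2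
    rw [List.mem_singleton] at hm
    subst hm
    rw [mem_biUnion]
    exact ⟨Equiv.ofBijective g (Finite.injective_iff_bijective.mp hg), mem_univ _,
      mem_filter.mpr ⟨mem_univ _, hc⟩⟩
  refine (card_le_card h1).trans (card_biUnion_le.trans ?_)
  calc _ ≤ ∑ _g : Equiv.Perm (Fin 6), ((univ : Finset (Fin 6 → V)).filter fun x => Copy E m x).card := by
        refine sum_le_sum fun g _ => ?_
        have h := card_pull (V := V) (g : Fin 6 → Fin 6) g.injective (fun x => Copy E m x)
        simpa using h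
    _ = _ := by
        rw [sum_const, card_univ, Fintype.card_perm, Fintype.card_fin, smul_eq_mul]
        rfl

theorem copy_pat : Copy Rf 261091 ![0, 0, 1, 1, 2, 2] := by
  unfold Copy
  decide +kernel

omit [Fintype V] in
theorem seed_of_copy {x : Fin 6 → V} (h : Copy E 261091 x) : Seed E (x ∘ Fin.castSucc) := by
  intro i j k hij hjk
  have h1 := h i.castSucc j.castSucc k.castSucc hij hjk
  have h2 := copy_pat i.castSucc j.castSucc k.castSucc hij hjk
  have h3 : ∀ i : Fin 5, (![0, 0, 1, 1, 2, 2] : Fin 6 → Fin 3) i.castSucc = sg i := by decide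
  rw [h3, h3, h3] at h2
  rw [h2, ← h1]
  rfl

theorem copy_le_seeds :
    ((univ : Finset (Fin 6 → V)).filter fun x => Copy E 261091 x).card ≤
      (Seeds E).card * Fintype.card V := by
  refine (card_le_card (t := (univ : Finset (Fin 6 → V)).filter fun x =>
    Seed E (x ∘ Fin.castSucc)) ?_).trans ?_
  · intro x hx
    exact mem_filter.mpr ⟨mem_univ _, seed_of_copy (mem_filter.mp hx).2⟩
  · have h := card_pull (V := V) (Fin.castSucc : Fin 5 → Fin 6) (Fin.castSucc_injective 5)
      (fun s => Seed E s)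
    simpa [Seeds] using h

/-- the number of seeds -/
theorem seeds_card (hE : Sy E) (hK : NoK4 E) :
    1000 * Fintype.card V ^ 3 * (∑ a, ∑ b, ∑ c, E a b c) ≤ 545 * Fintype.card V ^ 6 +
      460800 * ((Seeds E).card * Fintype.card V) := by
  refine (g7E hE hK).trans (Nat.add_le_add_left ?_ _)
  have h1 := sum_XL_copy (E := E) 261091
  have h2 := copy_le_seeds (E := E)
  nlinarith

def mk8 (s : Fin 5 → V) (t : Fin 3 → V) : Fin 8 → V :=
  ![s 0, s 1, s 2, s 3, s 4, t 0, t 1, t 2]

omit [Fintype V] in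
theorem mk8_inj {s s' : Fin 5 → V} {t t' : Fin 3 → V} (h : mk8 s t = mk8 s' t') :
    s = s' ∧ t = t' := by
  constructor
  · funext i
    fin_cases i
    exacts [congrFun h 0, congrFun h 1, congrFun h 2, congrFun h 3, congrFun h 4]
  · funext i
    fin_cases i
    exacts [congrFun h 5, congrFun h 6, congrFun h 7]

theorem card_pull8 {m : ℕ} (e : Fin m → Fin 8) (he : Function.Injective e) (Q : (Fin m → V) → Prop) :
    ((univ : Finset ((Fin 5 → V) × (Fin 3 → V))).filter fun p => Q (mk8 p.1 p.2 ∘ e)).card ≤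
      ((univ : Finset (Fin m → V)).filter Q).card * Fintype.card V ^ (8 - m) := by
  refine le_trans ?_ (card_pull (V := V) e he Q)
  refine card_le_card_of_injOn (fun p => mk8 p.1 p.2) ?_ ?_
  · intro p hp
    exact mem_coe.mpr (mem_filter.mpr ⟨mem_univ _, (mem_filter.mp hp).2⟩)
  · intro p _ q _ h
    exact Prod.ext (mk8_inj h).1 (mk8_inj h).2

variable (E) in
/-- the colour of a vertex with respect to a seed -/
noncomputable def colS (s : Fin 5 → V) (v : V) : Fin 3 :=
  if h : ∃ d, Ext E s v d then h.choose else 0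

omit [Fintype V] in
theorem colS_spec {s : Fin 5 → V} {v : V} (h : ∃ d, Ext E s v d) : Ext E s v (colS E s v) := by
  unfold colS
  rw [dif_pos h]
  exact h.choose_spec

theorem sum_bad : ∑ s ∈ Seeds E, bad E (colS E s) ≤ 7 * (NT E * Fintype.card V ^ 2) := by
  set N2 := NT E * Fintype.card V ^ 2 with hN2
  have key : ∀ e : Fin 6 → Fin 8, Function.Injective e →
      ((univ : Finset ((Fin 5 → V) × (Fin 3 → V))).filter
        fun p => ¬ TT E (mk8 p.1 p.2 ∘ e)).card ≤ N2 := by
    intro e he
    have h := card_pull8 e he (fun x => ¬ TT E x)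
    rw [hN2]
    unfold NT
    refine le_trans (le_of_eq ?_) (h.trans (le_of_eq ?_))
    · congr 1; ext p; simp only [mem_filter]
    · congr 2; ext p; simp only [mem_filter]
  have h1 : ∑ s ∈ Seeds E, bad E (colS E s) =
      ((Seeds E).sigma fun s => (univ : Finset (Fin 3 → V)).filter fun t =>
        E (t 0) (t 1) (t 2) ≠ Rf (colS E s (t 0)) (colS E s (t 1)) (colS E s (t 2))).card := by
    rw [card_sigma]; rfl
  rw [h1]
  let es : Fin 7 → Fin 6 → Fin 8 := ![![0, 1, 2, 3, 4, 5], ![0, 1, 2, 3, 4, 6],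
    ![0, 1, 2, 3, 4, 7], ![0, 1, 2, 3, 5, 6], ![0, 1, 2, 3, 5, 7], ![0, 1, 2, 3, 6, 7],
    ![0, 1, 2, 5, 6, 7]]
  have hes : ∀ i, Function.Injective (es i) := by
    intro i
    fin_cases i <;> decide
  have h2 : ((Seeds E).sigma fun s => (univ : Finset (Fin 3 → V)).filter fun t =>
        E (t 0) (t 1) (t 2) ≠ Rf (colS E s (t 0)) (colS E s (t 1)) (colS E s (t 2))).card ≤
      ((univ : Finset (Fin 7)).biUnion fun i =>
        (univ : Finset ((Fin 5 → V) × (Fin 3 → V))).filter
          fun p => ¬ TT E (mk8 p.1 p.2 ∘ es i)).card := by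
    refine card_le_card_of_injOn (fun p => (p.1, p.2)) ?_ ?_
    · rintro ⟨s, t⟩ hp
      have hp' := mem_sigma.mp (mem_coe.mp hp)
      have hs : Seed E s := (mem_filter.mp hp'.1).2
      have ht : E (t 0) (t 1) (t 2) ≠ Rf (colS E s (t 0)) (colS E s (t 1)) (colS E s (t 2)) :=
        (mem_filter.mp hp'.2).2
      rw [mem_coe, mem_biUnion]
      by_contra hno
      push Not at hno
      have hall : ∀ i, TT E (mk8 s t ∘ es i) := by
        intro i
        by_contra h
        exact hno i (mem_univ _) (mem_filter.mpr ⟨mem_univ _, h⟩)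
      have c0 : mk8 s t ∘ es 0 = ![s 0, s 1, s 2, s 3, s 4, t 0] := by
        funext j; fin_cases j <;> rfl
      have c1 : mk8 s t ∘ es 1 = ![s 0, s 1, s 2, s 3, s 4, t 1] := by
        funext j; fin_cases j <;> rfl
      have c2 : mk8 s t ∘ es 2 = ![s 0, s 1, s 2, s 3, s 4, t 2] := by
        funext j; fin_cases j <;> rfl
      have c3 : mk8 s t ∘ es 3 = ![s 0, s 1, s 2, s 3, t 0, t 1] := by
        funext j; fin_cases j <;> rfl
      have c4 : mk8 s t ∘ es 4 = ![s 0, s 1, s 2, s 3, t 0, t 2] := by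
        funext j; fin_cases j <;> rfl
      have c5 : mk8 s t ∘ es 5 = ![s 0, s 1, s 2, s 3, t 1, t 2] := by
        funext j; fin_cases j <;> rfl
      have c6 : mk8 s t ∘ es 6 = ![s 0, s 1, s 2, t 0, t 1, t 2] := by
        funext j; fin_cases j <;> rfl
      refine ht (triple_of_tt hs (colS_spec (ext_of_tt hs (c0 ▸ hall 0)))
        (colS_spec (ext_of_tt hs (c1 ▸ hall 1))) (colS_spec (ext_of_tt hs (c2 ▸ hall 2)))
        (c3 ▸ hall 3) (c4 ▸ hall 4) (c5 ▸ hall 5) (c6 ▸ hall 6))
    · rintro ⟨s, t⟩ _ ⟨s', t'⟩ _ h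
      obtain ⟨h1, h2⟩ := Prod.mk.inj h
      simp only at h1 h2
      subst h1; subst h2; rfl
  refine h2.trans (card_biUnion_le.trans ?_)
  calc _ ≤ ∑ _i : Fin 7, N2 := sum_le_sum fun i _ => key (es i) (hes i)
    _ = 7 * N2 := by rw [sum_const, card_univ, Fintype.card_fin, smul_eq_mul]

/-- a colouring for which few triples violate the rule -/
theorem exists_col : ∃ g : V → Fin 3,
    (Seeds E).card * bad E g ≤ 7 * (NT E * Fintype.card V ^ 2) := by
  rcases (Seeds E).eq_empty_or_nonempty with h | h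
  · exact ⟨fun _ => 0, by rw [h, card_empty, Nat.zero_mul]; exact Nat.zero_le _⟩
  · obtain ⟨s, hs, hmin⟩ := exists_min_image (Seeds E) (fun s => bad E (colS E s)) h
    refine ⟨colS E s, le_trans ?_ (sum_bad (E := E))⟩
    rw [← smul_eq_mul]
    exact card_nsmul_le_sum _ _ _ hmin

theorem bad_le (g : V → Fin 3) : bad E g ≤ Fintype.card V ^ 3 := by
  unfold bad
  refine (card_le_univ _).trans ?_
  rw [Fintype.card_fun, Fintype.card_fin]

/-- stability, in terms of functions -/
theorem stab (hE : Sy E) (hK : NoK4 E) {M : List ℕ}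
    (h : 1800 * Fintype.card V ^ 3 * (∑ a, ∑ b, ∑ c, E a b c) + NT E ≤
      1000 * Fintype.card V ^ 6 + 1081 * ∑ x : Fin 6 → V, XL E M x) :
    ∃ g : V → Fin 3, Fintype.card V ^ 3 * bad E g +
      1161216000 * (Fintype.card V ^ 3 * (∑ a, ∑ b, ∑ c, E a b c)) ≤
      645120000 * Fintype.card V ^ 6 + 697374720 * ∑ x : Fin 6 → V, XL E M x := by
  obtain ⟨g, hg⟩ := exists_col (E := E)
  refine ⟨g, ?_⟩
  have h1 := seeds_card hE hK
  generalize (∑ x : Fin 6 → V, XL E M x) = X at h ⊢
  have hb := bad_le (E := E) g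
  rw [mul_assoc] at h h1
  generalize (∑ a, ∑ b, ∑ c, E a b c) = S at h h1 ⊢
  generalize bad E g = b at hg hb ⊢
  generalize (Seeds E).card = q at hg h1
  generalize NT E = N at hg h
  generalize Fintype.card V = n at hg h h1 hb ⊢
  by_cases hc : n ^ 3 * S * 1000 ≤ 550 * n ^ 6
  · have h2 : n ^ 3 * b ≤ n ^ 6 := by
      calc n ^ 3 * b ≤ n ^ 3 * n ^ 3 := Nat.mul_le_mul_left _ hb
        _ = n ^ 6 := by ring
    generalize n ^ 3 * b = B at h2 ⊢
    generalize n ^ 3 * S = Y at h hc ⊢
    generalize n ^ 6 = W at h hc h2 ⊢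
    omega
  · push Not at hc
    rcases Nat.eq_zero_or_pos n with hn | hn
    · subst hn
      simp only [Nat.zero_pow (n := 3) (by norm_num), Nat.zero_pow (n := 6) (by norm_num), zero_mul, mul_zero, lt_irrefl] at hc
    have h3 : 5 * n ^ 6 < 460800 * (q * n) := by
      generalize n ^ 3 * S = Y at hc h1
      generalize n ^ 6 = W at hc h1 ⊢
      generalize q * n = Z at h1 ⊢
      omega
    have h4 : 5 * n ^ 5 ≤ 460800 * q := by
      have h5 : (5 * n ^ 5) * n ≤ (460800 * q) * n := by
        calc (5 * n ^ 5) * n = 5 * n ^ 6 := by ring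
          _ ≤ 460800 * (q * n) := h3.le
          _ = (460800 * q) * n := by ring
      exact Nat.le_of_mul_le_mul_right h5 hn
    have h6 : n ^ 3 * b ≤ 645120 * N := by
      have h7 : (5 * n ^ 5) * b ≤ 460800 * (7 * (N * n ^ 2)) := by
        calc (5 * n ^ 5) * b ≤ (460800 * q) * b := Nat.mul_le_mul_right _ h4
          _ = 460800 * (q * b) := by ring
          _ ≤ 460800 * (7 * (N * n ^ 2)) := Nat.mul_le_mul_left _ hg
      have h8 : (5 * n ^ 2) * (n ^ 3 * b) ≤ (5 * n ^ 2) * (645120 * N) := by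
        calc (5 * n ^ 2) * (n ^ 3 * b) = (5 * n ^ 5) * b := by ring
          _ ≤ 460800 * (7 * (N * n ^ 2)) := h7
          _ = (5 * n ^ 2) * (645120 * N) := by ring
      exact Nat.le_of_mul_le_mul_left h8 (by positivity)
    generalize n ^ 3 * b = B at h6 ⊢
    generalize n ^ 3 * S = Y at h ⊢
    generalize n ^ 6 = W at h ⊢
    omega

end
end Pool.Agent.TH773.ST
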