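import Pool.Agent.TH773.ST.Tur

/-! Replacing vertices by copies of other vertices: degrees, and the structures at a vertex. -/

set_option autoImplicit false
set_option maxRecDepth 100000
set_option maxHeartbeats 4000000
open Finset
open scoped Classical

namespace Pool.Agent.TH773.ST
open Pool.Agent.H122R2.N6 Pool.Agent.H37R3.Pen Pool.Agent.H37R3.Cop Pool.Agent.H37R3.CopL

section
variable {V : Type} [Fintype V] (E : V → V → V → ℕ)

/-- twice the degree -/
def dgr (v : V) : ℕ := ∑ b, ∑ c, E v b c

/-- five-tuples which do not follow the rule together with `v` -/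
noncomputable def NTv (v : V) : ℕ :=
  ((univ : Finset (Fin 5 → V)).filter fun y => ¬ TT E ![y 0, y 1, y 2, y 3, y 4, v]).card

variable {E}

theorem S3_rot2 (f : V → V → V → ℕ) : S3 (fun x y z => f z x y) = S3 f :=
  (S3_rot fun x y z => f z x y).symm

theorem S3_at (F : V → V → ℕ) (v : V) :
    S3 (fun a b c => if a = v then F b c else 0) = ∑ b, ∑ c, F b c := by
  unfold S3
  rw [sum_eq_single v]
  · simp only [if_true]
  · intro a _ ha
    simp only [if_neg ha, sum_const_zero]
  · intro h; exact absurd (mem_univ _) h

theorem S3_two (v : V) : S3 (fun a b (_ : V) => if a = v ∧ b = v then 1 else 0) = Fintype.card V := by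
  unfold S3
  rw [sum_eq_single v]
  · rw [sum_eq_single v]
    · simp
    · intro b _ hb
      simp [hb]
    · intro h; exact absurd (mem_univ _) h
  · intro a _ ha
    simp [ha]
  · intro h; exact absurd (mem_univ _) h

/-- in an extremal structure the degrees are nearly equal -/
theorem deg_le (hE : Sy E) (hd : ∀ a b, E a a b = 0) (u v : V)
    (h : S3 (fun a b c => E (if a = v then u else a) (if b = v then u else b)
      (if c = v then u else c)) ≤ S3 E) :
    dgr E u ≤ dgr E v + 2 * Fintype.card V := by
  let fu : V → V → V → ℕ := fun a b c => if a = v then E u b c else 0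
  let fv : V → V → V → ℕ := fun a b c => if a = v then E v b c else 0
  let J : V → V → V → ℕ := fun a b _ => if a = v ∧ b = v then 1 else 0
  have hpt : ∀ a b c, E a b c + (fu a b c + fu b c a + fu c a b) ≤
      E (if a = v then u else a) (if b = v then u else b) (if c = v then u else c) +
        (fv a b c + fv b c a + fv c a b) + 2 * (J a b c + J b c a + J c a b) := by
    intro a b c
    have hb := fun x y z => hE.b x y z
    simp only [fu, fv, J]
    by_cases h1 : a = v <;> by_cases h2 : b = v <;> by_cases h3 : c = v
    · subst h1; subst h2; subst h3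
      have e1 : E u c c = 0 := by rw [← hE.h231, hd]
      simp only [hd, e1]; simp
    · subst h1; subst h2
      have := hb u b c
      have := hb u c b
      unfold Bt at *
      simp only [hd, if_true, if_neg h3, and_self, and_true, true_and]
      omega
    · subst h1; subst h3
      have := hb u b c
      have := hb u c b
      have e1 : E c b c = 0 := by rw [hE.h132, hd]
      unfold Bt at *
      simp only [hd, e1, if_true, if_neg h2, and_self, and_true, true_and]
      omega
    · subst h1
      simp only [if_true, if_neg h2, if_neg h3]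
      simp only [h2, h3, and_false, false_and, if_false]
      omega
    · subst h2; subst h3
      have := hb u a c
      have := hb u c a
      have e1 : E a c c = 0 := by rw [← hE.h231, hd]
      unfold Bt at *
      simp only [hd, e1, if_true, if_neg h1, and_self, and_true, true_and]
      omega
    · subst h2
      have e1 : E b c a = E a b c := hE.h231 a b c
      have e2 : E u c a = E a u c := hE.h231 a u c
      simp only [if_true, if_neg h1, if_neg h3, e1, e2]
      simp only [h1, h3, and_false, false_and, if_false]
      omega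
    · subst h3
      have e1 : E c a b = E a b c := hE.h312 a b c
      have e2 : E u a b = E a b u := hE.h312 a b u
      simp only [if_true, if_neg h1, if_neg h2, e1, e2]
      simp only [h1, h2, and_false, false_and, if_false]
      omega
    · simp only [if_neg h1, if_neg h2, if_neg h3]
      omega
  have hs := S3_le hpt
  rw [S3_add, S3_add, S3_add, S3_add, S3_add, S3_add, S3_add, S3_mul, S3_add, S3_add,
    S3_rot fu, S3_rot2 fu, S3_rot fv, S3_rot2 fv, S3_rot J, S3_rot2 J] at hs
  have e1 : S3 fu = dgr E u := S3_at (E u) v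
  have e2 : S3 fv = dgr E v := S3_at (E v) v
  have e3 : S3 J = Fintype.card V := S3_two v
  rw [e1, e2, e3] at hs
  omega

theorem sum_dgr : ∑ v, dgr E v = S3 E := rfl

/-- sums for a structure with `m` further copies of a vertex -/
theorem S3_clone (hE : Sy E) (v : V) (m : ℕ) :
    S3 E + 3 * (m * dgr E v) ≤ S3 (fun a b c : V ⊕ Fin m =>
      E (Sum.elim id (fun _ => v) a) (Sum.elim id (fun _ => v) b) (Sum.elim id (fun _ => v) c)) := by
  unfold S3
  simp only [Fintype.sum_sum_type, Sum.elim_inl, Sum.elim_inr, id, sum_add_distrib, sum_const,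
    card_univ, Fintype.card_fin, smul_eq_mul]
  have e1 : ∑ a, ∑ b, m * E a b v = m * dgr E v := by
    unfold dgr
    rw [mul_sum]
    refine sum_congr rfl fun a _ => ?_
    rw [mul_sum]
    refine sum_congr rfl fun b _ => ?_
    rw [← hE.h312 a b v]
  have e2 : ∑ a, m * ∑ c, E a v c = m * dgr E v := by
    unfold dgr
    rw [mul_sum]
    refine sum_congr rfl fun a _ => ?_
    rw [mul_sum, mul_sum]
    refine sum_congr rfl fun c _ => ?_
    rw [← hE.h213 a v c]
  have e3 : m * ∑ b, ∑ c, E v b c = m * dgr E v := rfl
  rw [e1, e2]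
  try rw [e3]
  omega

/-- six-tuples of the structure with further copies of a vertex -/
theorem NT_clone (v : V) (m : ℕ) : m * NTv E v ≤ NT (fun a b c : V ⊕ Fin m =>
      E (Sum.elim id (fun _ => v) a) (Sum.elim id (fun _ => v) b) (Sum.elim id (fun _ => v) c)) := by
  unfold NTv NT
  nth_rewrite 1 [← Fintype.card_fin m]
  rw [← card_univ (α := Fin m), ← card_product]
  refine card_le_card_of_injOn (fun p => ![Sum.inl (p.2 0), Sum.inl (p.2 1), Sum.inl (p.2 2),
    Sum.inl (p.2 3), Sum.inl (p.2 4), Sum.inr p.1]) ?_ ?_
  · rintro ⟨j, y⟩ hp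
    have hp' := (mem_filter.mp (mem_product.mp (mem_coe.mp hp)).2).2
    refine mem_coe.mpr (mem_filter.mpr ⟨mem_univ _, fun ht => hp' ?_⟩)
    obtain ⟨c, hc⟩ := ht
    refine ⟨c, fun a b d hab hbd => ?_⟩
    have h3 := hc a b d hab hbd
    have e : ∀ a : Fin 6, (Sum.elim id (fun _ => v) ((![Sum.inl (y 0), Sum.inl (y 1), Sum.inl (y 2),
        Sum.inl (y 3), Sum.inl (y 4), Sum.inr j] : Fin 6 → V ⊕ Fin m) a) : V) =
        (![y 0, y 1, y 2, y 3, y 4, v] : Fin 6 → V) a := by
      intro a
      fin_cases a <;> rfl
    dsimp only at h3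
    rw [e, e, e] at h3
    exact h3
  · rintro ⟨j, y⟩ _ ⟨j', y'⟩ _ h
    have h5 := Sum.inr.inj (congrFun h 5)
    simp only at h5
    subst h5
    have hy : y = y' := by
      funext k
      fin_cases k
      exacts [Sum.inl.inj (congrFun h 0), Sum.inl.inj (congrFun h 1), Sum.inl.inj (congrFun h 2),
        Sum.inl.inj (congrFun h 3), Sum.inl.inj (congrFun h 4)]
    rw [hy]

theorem sum_XL_zero {i : Fin 5} (hC : Cls i E) : ∑ x : Fin 6 → V, XL E (famM i) x = 0 := by
  refine sum_eq_zero fun x _ => ?_
  unfold XL
  rw [if_neg (hC.nn x)]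

theorem cert_cls {i : Fin 5} (hC : Cls i E) :
    1800 * Fintype.card V ^ 3 * S3 E + NT E ≤ 1000 * Fintype.card V ^ 6 := by
  have h := certs i hC.sy hC.k4
  rw [sum_XL_zero hC] at h
  exact h

/-- the certificate for the structure with `m` further copies of a vertex -/
theorem clone_ineq {i : Fin 5} (hC : Cls i E) (v : V) (m : ℕ) :
    1800 * (Fintype.card V + m) ^ 3 * (S3 E + 3 * (m * dgr E v)) + m * NTv E v ≤
      1000 * (Fintype.card V + m) ^ 6 := by
  have h := cert_cls (hC.comap (W := V ⊕ Fin m) (Sum.elim id (fun _ => v)))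
  rw [Fintype.card_sum, Fintype.card_fin] at h
  refine le_trans (Nat.add_le_add (Nat.mul_le_mul_left _ (S3_clone hC.sy v m)) (NT_clone v m)) h

end
end Pool.Agent.TH773.ST
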