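import Pool.Agent.TH773.ST.Pair

/-! The number of extra edges is smaller than the number of missing edges. -/

set_option autoImplicit false
set_option maxRecDepth 100000
set_option maxHeartbeats 4000000
open Finset
open scoped Classical

namespace Pool.Agent.TH773.ST
open Pool.Agent.H122R2.N6 Pool.Agent.H37R3.Pen Pool.Agent.H37R3.Cop Pool.Agent.H37R3.CopL

section
variable {V : Type} [Fintype V]

/-- triple sums -/
def S3 (f : V → V → V → ℕ) : ℕ := ∑ x, ∑ y, ∑ z, f x y z

theorem S3_swap (f : V → V → V → ℕ) : S3 (fun x y z => f x z y) = S3 f :=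
  sum_congr rfl fun _ _ => sum_comm

theorem S3_rot (f : V → V → V → ℕ) : S3 (fun x y z => f y z x) = S3 f := by
  unfold S3
  rw [sum_comm]
  exact sum_congr rfl fun _ _ => sum_comm

theorem S3_add (f f' : V → V → V → ℕ) : S3 (fun x y z => f x y z + f' x y z) = S3 f + S3 f' := by
  unfold S3
  simp only [sum_add_distrib]

theorem S3_le {f f' : V → V → V → ℕ} (h : ∀ x y z, f x y z ≤ f' x y z) : S3 f ≤ S3 f' :=
  sum_le_sum fun x _ => sum_le_sum fun y _ => sum_le_sum fun z _ => h x y z

theorem S3_mul (c : ℕ) (f : V → V → V → ℕ) : S3 (fun x y z => c * f x y z) = c * S3 f := by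
  unfold S3
  simp only [mul_sum]

theorem S3_zero {f : V → V → V → ℕ} (h : S3 f = 0) (x y z : V) : f x y z = 0 := by
  unfold S3 at h
  rw [sum_eq_zero_iff] at h
  have h1 := h x (mem_univ _)
  rw [sum_eq_zero_iff] at h1
  have h2 := h1 y (mem_univ _)
  rw [sum_eq_zero_iff] at h2
  exact h2 z (mem_univ _)

variable (E : V → V → V → ℕ) (g : V → Fin 3)

noncomputable def bx (x y z : V) : ℕ := if E x y z = 1 ∧ Tg g x y z = 0 then 1 else 0
noncomputable def mx (x y z : V) : ℕ := if E x y z = 0 ∧ Tg g x y z = 1 then 1 else 0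
noncomputable def hx (x y : V) : ℕ := if Fintype.card V ≤ 100 * (Bs E g x y).card then 1 else 0
noncomputable def lx (x y : V) : ℕ := if Fintype.card V ≤ 100 * (Bs E g x y).card then 0 else 1

variable {E g}

omit [Fintype V] in
theorem Tg_sy (g : V → Fin 3) : Sy (Tg g) where
  b x y z := by
    unfold Tg
    split_ifs
    · exact Rf_sy.b _ _ _
    · exact Or.inl rfl
  h213 x y z := by
    unfold Tg
    rw [Rf_sy.h213 (g x) (g y) (g z)]
    by_cases h : x ≠ y ∧ x ≠ z ∧ y ≠ z
    · rw [if_pos h, if_pos ⟨h.1.symm, h.2.2, h.2.1⟩]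
    · rw [if_neg h, if_neg (fun h' => h ⟨h'.1.symm, h'.2.2, h'.2.1⟩)]
  h132 x y z := by
    unfold Tg
    rw [Rf_sy.h132 (g x) (g y) (g z)]
    by_cases h : x ≠ y ∧ x ≠ z ∧ y ≠ z
    · rw [if_pos h, if_pos ⟨h.2.1, h.1, h.2.2.symm⟩]
    · rw [if_neg h, if_neg (fun h' => h ⟨h'.2.1, h'.1, h'.2.2.symm⟩)]

omit [Fintype V] in
theorem bx_sy (hE : Sy E) : Sy (bx E g) where
  b x y z := by unfold bx Bt; split_ifs <;> simp
  h213 x y z := by unfold bx; rw [hE.h213, (Tg_sy g).h213]
  h132 x y z := by unfold bx; rw [hE.h132, (Tg_sy g).h132]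

omit [Fintype V] in
theorem mx_sy (hE : Sy E) : Sy (mx E g) where
  b x y z := by unfold mx Bt; split_ifs <;> simp
  h213 x y z := by unfold mx; rw [hE.h213, (Tg_sy g).h213]
  h132 x y z := by unfold mx; rw [hE.h132, (Tg_sy g).h132]

theorem hx_comm (hE : Sy E) (x y : V) : hx E g y x = hx E g x y := by
  unfold hx; rw [Bs_comm hE x y]
theorem lx_comm (hE : Sy E) (x y : V) : lx E g y x = lx E g x y := by
  unfold lx; rw [Bs_comm hE x y]

theorem hl (x y : V) : (hx E g x y = 1 ∧ lx E g x y = 0 ∧ Fintype.card V ≤ 100 * (Bs E g x y).card) ∨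
    (hx E g x y = 0 ∧ lx E g x y = 1 ∧ 100 * (Bs E g x y).card < Fintype.card V) := by
  unfold hx lx
  by_cases h : Fintype.card V ≤ 100 * (Bs E g x y).card
  · left; rw [if_pos h, if_pos h]; exact ⟨rfl, rfl, h⟩
  · right; rw [if_neg h, if_neg h]; exact ⟨rfl, rfl, not_le.mp h⟩

theorem sum_bx (x y : V) : ∑ z, bx E g x y z = (Bs E g x y).card := by
  unfold bx Bs
  rw [card_filter]
theorem sum_mx (x y : V) : ∑ z, mx E g x y z = (Ms E g x y).card := by
  unfold mx Ms
  rw [card_filter]

omit [Fintype V] in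
theorem balance (hE : Sy E) (x y z : V) :
    E x y z + mx E g x y z = Tg g x y z + bx E g x y z := by
  unfold mx bx
  rcases hE.b x y z with h1 | h1 <;> rcases (Tg_sy g).b x y z with h2 | h2 <;> simp [h1, h2]

theorem sum_Bs_le (hE : Sy E) (hd : ∀ a b, E a a b = 0) (x : V) :
    ∑ z, (Bs E g x z).card ≤ Dv E g x := by
  rw [← card_sigma]
  unfold Dv
  refine card_le_card_of_injOn (fun p => ![p.1, p.2]) ?_ ?_
  · rintro ⟨z, w⟩ hp
    have hp' := (mem_sigma.mp (mem_coe.mp hp)).2
    obtain ⟨h1, h2⟩ := (mem_filter.mp hp').2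
    have hdist := dist_of_one hE hd h1
    refine mem_coe.mpr (mem_filter.mpr ⟨mem_univ _, ?_⟩)
    change E z w x ≠ Rf (g z) (g w) (g x)
    unfold Tg at h2
    rw [if_pos hdist] at h2
    rw [hE.h231 x z w, Rf_sy.h231 (g x) (g z) (g w), h2]
    simp only at h1
    rw [h1]
    decide
  · rintro ⟨a, b⟩ _ ⟨a', b'⟩ _ h
    have h0 : a = a' := congrFun h 0
    have h1 : b = b' := congrFun h 1
    subst h0; subst h1; rfl

theorem sum_hx (hE : Sy E) (hd : ∀ a b, E a a b = 0) (hL : Loc E g) (x : V) :
    10 ^ 7 * ∑ z, hx E g x z ≤ Fintype.card V := by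
  have h1 : Fintype.card V * ∑ z, hx E g x z ≤ 100 * Dv E g x := by
    rw [mul_sum]
    refine le_trans (sum_le_sum (g := fun z => 100 * (Bs E g x z).card) fun z _ => ?_) ?_
    · rcases hl (E := E) (g := g) x z with h | h
      · rw [h.1, mul_one]; exact h.2.2
      · rw [h.1, mul_zero]; exact Nat.zero_le _
    · rw [← mul_sum]
      exact Nat.mul_le_mul_left _ (sum_Bs_le hE hd x)
  have h2 := hL.hD x
  have hn := hL.hn
  have h3 : Fintype.card V * (10 ^ 7 * ∑ z, hx E g x z) ≤ Fintype.card V * Fintype.card V := by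
    calc Fintype.card V * (10 ^ 7 * ∑ z, hx E g x z) =
          10 ^ 7 * (Fintype.card V * ∑ z, hx E g x z) := by ring
      _ ≤ 10 ^ 7 * (100 * Dv E g x) := Nat.mul_le_mul_left _ h1
      _ = 10 ^ 9 * Dv E g x := by ring
      _ ≤ Fintype.card V ^ 2 := h2
      _ = _ := by ring
  exact Nat.le_of_mul_le_mul_left h3 (by omega)

theorem Rf_zero_part : ∀ a b c : Fin 3, Rf a b c = 0 →
    ∃ k, Rf a b k = 1 ∧ Rf a c k = 1 ∧ Rf b c k = 1 ∧ k ≠ a ∧ k ≠ b ∧ k ≠ c := by decide

/-- an extra edge forces missing edges -/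
theorem forced {i : Fin 5} (hC : Cls i E) (hL : Loc E g) {x y z : V} (hb : bx E g x y z = 1) :
    3 * Fintype.card V ≤
      10 * ((Ms E g x y).card + (Ms E g x z).card + (Ms E g y z).card) := by
  have hE := hC.sy
  have hb' : E x y z = 1 ∧ Tg g x y z = 0 := by
    unfold bx at hb
    by_contra h
    rw [if_neg h] at hb
    exact absurd hb (by decide)
  obtain ⟨h1, h2⟩ := hb'
  obtain ⟨hxy, hxz, hyz⟩ := dist_of_one hE hC.dg h1
  unfold Tg at h2
  rw [if_pos ⟨hxy, hxz, hyz⟩] at h2
  obtain ⟨k, k1, k2, k3, k4, k5, k6⟩ := Rf_zero_part _ _ _ h2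
  refine (hL.lo k).trans (Nat.mul_le_mul_left _ ?_)
  have hsub : Pt g k ⊆ (Ms E g x y ∪ Ms E g x z) ∪ Ms E g y z := by
    intro w hw
    have hwk : g w = k := (mem_filter.mp hw).2
    have hwx : x ≠ w := fun e => k4 (by rw [e, hwk])
    have hwy : y ≠ w := fun e => k5 (by rw [e, hwk])
    have hwz : z ≠ w := fun e => k6 (by rw [e, hwk])
    by_contra hno
    rw [mem_union, mem_union] at hno
    push Not at hno
    obtain ⟨⟨m1, m2⟩, m3⟩ := hno
    have e1 : E x y w = 1 := by
      rcases hE.b x y w with h | h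
      · exfalso
        refine m1 (mem_filter.mpr ⟨mem_univ _, h, ?_⟩)
        unfold Tg
        rw [if_pos ⟨hxy, hwx, hwy⟩, hwk, k1]
      · exact h
    have e2 : E x z w = 1 := by
      rcases hE.b x z w with h | h
      · exfalso
        refine m2 (mem_filter.mpr ⟨mem_univ _, h, ?_⟩)
        unfold Tg
        rw [if_pos ⟨hxz, hwx, hwz⟩, hwk, k2]
      · exact h
    have e3 : E y z w = 1 := by
      rcases hE.b y z w with h | h
      · exfalso
        refine m3 (mem_filter.mpr ⟨mem_univ _, h, ?_⟩)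
        unfold Tg
        rw [if_pos ⟨hyz, hwy, hwz⟩, hwk, k3]
      · exact h
    have h3 := hC.k4 x y z w
    rw [h1, e1, e2, e3] at h3
    exact absurd h3 (by decide)
  refine (card_le_card hsub).trans ((card_union_le _ _).trans ?_)
  exact Nat.add_le_add_right (card_union_le _ _) _

/-- few extra edges in comparison with missing edges -/
theorem few_extra {i : Fin 5} (hC : Cls i E) (hL : Loc E g) :
    100 * S3 (bx E g) ≤ 81 * S3 (mx E g) := by
  have hE := hC.sy
  have hb := bx_sy (g := g) hE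
  have hm := mx_sy (g := g) hE
  set n := Fintype.card V with hn
  have hn4 := hL.hn
  rw [← hn] at hn4
  -- sums over heavy pairs
  set A := S3 fun x y z => hx E g x y * bx E g x y z with hA
  set C := S3 fun x y z => hx E g x y * (lx E g x z * (lx E g y z * mx E g x y z)) with hCc
  set D := S3 fun x y z => lx E g x y * (lx E g x z * (lx E g y z * bx E g x y z)) with hDd
  set q := ∑ x, ∑ y, hx E g x y with hq
  have hA1 : 10 * A ≤ 4 * (n * q) := by
    have e1 : A = ∑ x, ∑ y, hx E g x y * (Bs E g x y).card := by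
      rw [hA]
      unfold S3
      refine sum_congr rfl fun x _ => sum_congr rfl fun y _ => ?_
      rw [← mul_sum, sum_bx]
    rw [e1, hq, mul_sum, mul_sum, mul_sum]
    refine sum_le_sum fun x _ => ?_
    rw [mul_sum, mul_sum, mul_sum]
    refine sum_le_sum fun y _ => ?_
    rcases hl (E := E) (g := g) x y with h | h
    · have := (heavy hC hL h.2.2).2
      rw [h.1]
      omega
    · rw [h.1, zero_mul, mul_zero]; exact Nat.zero_le _
  have hC1 : 57 * (n * q) ≤ 100 * C := by
    have e1 : C = ∑ x, ∑ y, hx E g x y * ∑ z, (lx E g x z * (lx E g y z * mx E g x y z)) := by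
      rw [hCc]
      unfold S3
      refine sum_congr rfl fun x _ => sum_congr rfl fun y _ => ?_
      rw [← mul_sum]
    rw [e1, hq, mul_sum, mul_sum, mul_sum]
    refine sum_le_sum fun x _ => ?_
    rw [mul_sum, mul_sum, mul_sum]
    refine sum_le_sum fun y _ => ?_
    rcases hl (E := E) (g := g) x y with h | h
    · have h1 := (heavy hC hL h.2.2).1
      rw [h.1]
      have h2 : (Ms E g x y).card ≤ ∑ z, (lx E g x z * (lx E g y z * mx E g x y z)) +
          (∑ z, hx E g x z + ∑ z, hx E g y z) := by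
        rw [← sum_mx, ← sum_add_distrib, ← sum_add_distrib]
        refine sum_le_sum fun z _ => ?_
        rcases hl (E := E) (g := g) x z with h3 | h3 <;> rcases hl (E := E) (g := g) y z with h4 | h4
        · rw [h3.1, h3.2.1, h4.1, h4.2.1]; rcases hm.b x y z with h5 | h5 <;> rw [h5] <;> omega
        · rw [h3.1, h3.2.1, h4.1, h4.2.1]; rcases hm.b x y z with h5 | h5 <;> rw [h5] <;> omega
        · rw [h3.1, h3.2.1, h4.1, h4.2.1]; rcases hm.b x y z with h5 | h5 <;> rw [h5] <;> omega
        · rw [h3.1, h3.2.1, h4.1, h4.2.1]; rcases hm.b x y z with h5 | h5 <;> rw [h5] <;> omega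
      have h3 := sum_hx hE hC.dg hL x
      have h4 := sum_hx hE hC.dg hL y
      rw [← hn] at h1 h3 h4
      omega
    · rw [h.1, zero_mul, mul_zero]; exact Nat.zero_le _
  have hC2 : 3 * C ≤ S3 (mx E g) := by
    have e2 : C = S3 fun x y z => hx E g x z * (lx E g x y * (lx E g z y * mx E g x z y)) := by
      rw [hCc]
      exact (S3_swap fun x y z => hx E g x y * (lx E g x z * (lx E g y z * mx E g x y z))).symm
    have e3 : C = S3 fun x y z => hx E g y z * (lx E g y x * (lx E g z x * mx E g y z x)) := by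
      rw [hCc]
      exact (S3_rot fun x y z => hx E g x y * (lx E g x z * (lx E g y z * mx E g x y z))).symm
    have e4 : 3 * C = C + C + C := by ring
    rw [e4]
    nth_rewrite 2 [e2]
    nth_rewrite 2 [e3]
    rw [hCc, ← S3_add, ← S3_add]
    refine S3_le fun x y z => ?_
    rw [lx_comm hE y z, lx_comm hE x y, lx_comm hE x z, hm.h132 x y z, hm.h231 x y z]
    rcases hl (E := E) (g := g) x y with h | h <;> rcases hl (E := E) (g := g) x z with h3 | h3 <;>
      rcases hl (E := E) (g := g) y z with h4 | h4 <;>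
      rw [h.1, h.2.1, h3.1, h3.2.1, h4.1, h4.2.1] <;> omega
  have hB1 : S3 (bx E g) ≤ 3 * A + D := by
    have e2 : A = S3 fun x y z => hx E g x z * bx E g x z y := by
      rw [hA]
      exact (S3_swap fun x y z => hx E g x y * bx E g x y z).symm
    have e3 : A = S3 fun x y z => hx E g y z * bx E g y z x := by
      rw [hA]
      exact (S3_rot fun x y z => hx E g x y * bx E g x y z).symm
    have e4 : 3 * A = A + A + A := by ring
    rw [e4]
    nth_rewrite 2 [e2]
    nth_rewrite 2 [e3]
    rw [hA, hDd, ← S3_add, ← S3_add, ← S3_add]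
    refine S3_le fun x y z => ?_
    rw [hb.h132 x y z, hb.h231 x y z]
    rcases hl (E := E) (g := g) x y with h | h <;> rcases hl (E := E) (g := g) x z with h3 | h3 <;>
      rcases hl (E := E) (g := g) y z with h4 | h4 <;>
      rw [h.1, h.2.1, h3.1, h3.2.1, h4.1, h4.2.1] <;> omega
  have hD1 : 10 * D ≤ S3 (mx E g) := by
    set F := S3 fun x y z => lx E g x y * (bx E g x y z * (Ms E g x y).card) with hF
    have f1 : 100 * F ≤ n * S3 (mx E g) := by
      have e1 : F = ∑ x, ∑ y, lx E g x y * ((Bs E g x y).card * (Ms E g x y).card) := by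
        rw [hF]
        unfold S3
        refine sum_congr rfl fun x _ => sum_congr rfl fun y _ => ?_
        rw [← mul_sum, ← sum_mul, sum_bx]
      have e2 : S3 (mx E g) = ∑ x, ∑ y, (Ms E g x y).card := by
        unfold S3
        refine sum_congr rfl fun x _ => sum_congr rfl fun y _ => ?_
        rw [sum_mx]
      rw [e1, e2, mul_sum, mul_sum]
      refine sum_le_sum fun x _ => ?_
      rw [mul_sum, mul_sum]
      refine sum_le_sum fun y _ => ?_
      rcases hl (E := E) (g := g) x y with h | h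
      · rw [h.2.1, zero_mul, mul_zero]; exact Nat.zero_le _
      · rw [h.2.1, one_mul, ← mul_assoc]
        exact Nat.mul_le_mul_right _ h.2.2.le
    have f2 : 3 * n * D ≤ 10 * (3 * F) := by
      have e2 : F = S3 fun x y z => lx E g x z * (bx E g x z y * (Ms E g x z).card) := by
        rw [hF]
        exact (S3_swap fun x y z => lx E g x y * (bx E g x y z * (Ms E g x y).card)).symm
      have e3 : F = S3 fun x y z => lx E g y z * (bx E g y z x * (Ms E g y z).card) := by
        rw [hF]
        exact (S3_rot fun x y z => lx E g x y * (bx E g x y z * (Ms E g x y).card)).symm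
      have e4 : 3 * F = F + F + F := by ring
      rw [e4]
      nth_rewrite 2 [e2]
      nth_rewrite 2 [e3]
      rw [hF, hDd, ← S3_add, ← S3_add, ← S3_mul, ← S3_mul]
      refine S3_le fun x y z => ?_
      rw [hb.h132 x y z, hb.h231 x y z]
      rcases hb.b x y z with h5 | h5
      · rw [h5]; simp
      · have hf := forced hC hL h5
        rw [h5]
        rcases hl (E := E) (g := g) x y with h | h <;> rcases hl (E := E) (g := g) x z with h3 | h3 <;>
          rcases hl (E := E) (g := g) y z with h4 | h4 <;>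
          rw [h.2.1, h3.2.1, h4.2.1] <;> simp only [zero_mul, mul_zero, one_mul, mul_one] <;> omega
    have f3 : n * (10 * D) ≤ n * S3 (mx E g) := by
      have : 100 * (3 * n * D) ≤ 30 * (n * S3 (mx E g)) := by
        calc 100 * (3 * n * D) ≤ 100 * (10 * (3 * F)) := Nat.mul_le_mul_left _ f2
          _ = 30 * (100 * F) := by ring
          _ ≤ 30 * (n * S3 (mx E g)) := Nat.mul_le_mul_left _ f1
      have e5 : 100 * (3 * n * D) = 30 * (n * (10 * D)) := by ring
      rw [e5] at this
      exact Nat.le_of_mul_le_mul_left this (by norm_num)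
    exact Nat.le_of_mul_le_mul_left f3 (by omega)
  generalize n * q = R at hA1 hC1
  omega

/-- an extremal structure near Turán's construction is Turán's construction -/
theorem compare {i : Fin 5} (hC : Cls i E) (hL : Loc E g)
    (hT : S3 (Tg g) ≤ S3 E) (x y z : V) : E x y z = Tg g x y z := by
  have h1 : S3 E + S3 (mx E g) = S3 (Tg g) + S3 (bx E g) := by
    rw [← S3_add, ← S3_add]
    unfold S3
    exact sum_congr rfl fun x _ => sum_congr rfl fun y _ => sum_congr rfl fun z _ =>
      balance hC.sy x y z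
  have h2 := few_extra hC hL
  have h3 : S3 (mx E g) = 0 := by omega
  have h4 : S3 (bx E g) = 0 := by omega
  have h5 := balance (g := g) hC.sy x y z
  rw [S3_zero h3 x y z, S3_zero h4 x y z] at h5
  omega

end
end Pool.Agent.TH773.ST
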