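import Pool.Agent.TH773.ST.Typ

set_option autoImplicit false
set_option maxRecDepth 100000

namespace Pool.Agent.TH773.ST
open Pool.Agent.H37R3.CopL

/-- codes of the structures of Turán's construction -/
def LT : List ℕ := [0, 1043, 76800, 152576, 301056, 581632, 983040, 7294, 227347, 516222, 970935, 76983, 1047552, 81150, 227511, 373943, 642231, 928951, 1046547, 516350, 971959, 972983, 979127, 1036471, 1040510, 969982]

/-- isomorphisms to the patterns -/
def TbT : List (ℕ × ℕ × ℕ) := [(0, 0, 181896), (1043, 1043, 181896), (76800, 1043, 144488), (152576, 1043, 144425), (301056, 1043, 143914), (581632, 1043, 139819), (983040, 1043, 107052), (7294, 7294, 181896), (227347, 7294, 144712), (516222, 65520, 146056), (970935, 65520, 166097), (76983, 76983, 181896), (1047552, 76983, 144453), (81150, 81150, 181896), (227511, 81150, 144712), (373943, 81150, 144208), (642231, 81150, 140120), (928951, 81150, 107360), (1046547, 81150, 144453), (516350, 131056, 146056), (971959, 131056, 166097), (972983, 131056, 166090), (979127, 131056, 166027), (1036471, 131056, 165516), (1040510, 131056, 144453), (969982, 261091, 144488)]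

theorem isoT : isoM LT TbT MT = true := by decide +kernel

end Pool.Agent.TH773.ST
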