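import Mathlib

/-! Definitions used in statements about Turán's `(3,4)`-problem. -/

set_option autoImplicit false
set_option maxRecDepth 100000
open Finset
open scoped Classical

namespace Pool.Agent.TH773.Turan34

/-- The 3-graph `H` has no four vertices spanning all four triples. -/
def K43Free {n : ℕ} (H : Finset (Finset (Fin n))) : Prop :=
  ∀ S : Finset (Fin n), S.card = 4 → ∃ s ⊆ S, s.card = 3 ∧ s ∉ H

/-- The set `S` of vertices induces a copy of the 3-graph `F` in `H`: there is a bijection from the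
vertices of `F` to `S` that maps edges to edges and non-edges to non-edges. -/
def Induces {k n : ℕ} (F : Finset (Finset (Fin k))) (H : Finset (Finset (Fin n)))
    (S : Finset (Fin n)) : Prop :=
  ∃ f : Fin k → Fin n, Function.Injective f ∧ univ.image f = S ∧
    ∀ t : Finset (Fin k), t.card = 3 → (t.image f ∈ H ↔ t ∈ F)

/-- The number of sets of vertices which induce a copy of a member of the list `Fs` in `H`. -/
noncomputable def copies {k n : ℕ} (Fs : List (Finset (Finset (Fin k))))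
    (H : Finset (Finset (Fin n))) : ℕ :=
  ((univ : Finset (Finset (Fin n))).filter fun S => ∃ F ∈ Fs, Induces F H S).card

/-- Turán's construction for the division of the vertices into the parts `g = 0`, `g = 1`, `g = 2`:
the triples that meet all three parts, and the triples with two vertices in one part and one vertex
in the following part, where part 0 follows part 2. -/
def turan {n : ℕ} (g : Fin n → Fin 3) : Finset (Finset (Fin n)) :=
  ((univ : Finset (Fin n)).powersetCard 3).filter fun t =>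
    (∀ p, ∃ i ∈ t, g i = p) ∨
      ∃ p, (t.filter fun i => g i = p).card = 2 ∧ (t.filter fun i => g i = p + 1).card = 1

/-- The 3-graph on `0, ..., 5` with non-edges 014 015 023 145 234 235 245 345. -/
def XA : Finset (Finset (Fin 6)) :=
  {{0, 1, 2}, {0, 1, 3}, {0, 2, 4}, {0, 2, 5}, {0, 3, 4}, {0, 3, 5}, {0, 4, 5}, {1, 2, 3}, {1, 2, 4}, {1, 2, 5}, {1, 3, 4}, {1, 3, 5}}

/-- The 3-graph on `0, ..., 5` with non-edges 015 023 124 134 235 245 345. -/
def XB : Finset (Finset (Fin 6)) :=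
  {{0, 1, 2}, {0, 1, 3}, {0, 1, 4}, {0, 2, 4}, {0, 2, 5}, {0, 3, 4}, {0, 3, 5}, {0, 4, 5}, {1, 2, 3}, {1, 2, 5}, {1, 3, 5}, {1, 4, 5}, {2, 3, 4}}

/-- The 3-graph on `0, ..., 5` with non-edges 012 013 145 234 235 245 345. -/
def XC : Finset (Finset (Fin 6)) :=
  {{0, 1, 4}, {0, 1, 5}, {0, 2, 3}, {0, 2, 4}, {0, 2, 5}, {0, 3, 4}, {0, 3, 5}, {0, 4, 5}, {1, 2, 3}, {1, 2, 4}, {1, 2, 5}, {1, 3, 4}, {1, 3, 5}}

/-- The 3-graph on `0, ..., 5` with non-edges 024 025 034 035 123 145 245 345. -/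
def XD : Finset (Finset (Fin 6)) :=
  {{0, 1, 2}, {0, 1, 3}, {0, 1, 4}, {0, 1, 5}, {0, 2, 3}, {0, 4, 5}, {1, 2, 4}, {1, 2, 5}, {1, 3, 4}, {1, 3, 5}, {2, 3, 4}, {2, 3, 5}}

/-- The 3-graph on `0, ..., 5` with non-edges 012 015 025 134 135 145 234 235 245 345. -/
def XE : Finset (Finset (Fin 6)) :=
  {{0, 1, 3}, {0, 1, 4}, {0, 2, 3}, {0, 2, 4}, {0, 3, 4}, {0, 3, 5}, {0, 4, 5}, {1, 2, 3}, {1, 2, 4}, {1, 2, 5}}

/-- The 3-graph on `0, ..., 5` with non-edges 012 013 014 125 135 145 234 235 245 345. -/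
def XF : Finset (Finset (Fin 6)) :=
  {{0, 1, 5}, {0, 2, 3}, {0, 2, 4}, {0, 2, 5}, {0, 3, 4}, {0, 3, 5}, {0, 4, 5}, {1, 2, 3}, {1, 2, 4}, {1, 3, 4}}

/-- The 3-graph on `0, ..., 5` with non-edges 014 015 024 034 123 145 235 245 345. -/
def XG : Finset (Finset (Fin 6)) :=
  {{0, 1, 2}, {0, 1, 3}, {0, 2, 3}, {0, 2, 5}, {0, 3, 5}, {0, 4, 5}, {1, 2, 4}, {1, 2, 5}, {1, 3, 4}, {1, 3, 5}, {2, 3, 4}}

/-- The 3-graph on `0, ..., 5` with non-edges 014 015 024 025 034 035 123 145 245 345. -/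
def XH : Finset (Finset (Fin 6)) :=
  {{0, 1, 2}, {0, 1, 3}, {0, 2, 3}, {0, 4, 5}, {1, 2, 4}, {1, 2, 5}, {1, 3, 4}, {1, 3, 5}, {2, 3, 4}, {2, 3, 5}}

/-- The 3-graph on `0, ..., 5` with non-edges 015 024 025 034 035 123 145 245 345. -/
def XI : Finset (Finset (Fin 6)) :=
  {{0, 1, 2}, {0, 1, 3}, {0, 1, 4}, {0, 2, 3}, {0, 4, 5}, {1, 2, 4}, {1, 2, 5}, {1, 3, 4}, {1, 3, 5}, {2, 3, 4}, {2, 3, 5}}

/-- Five lists of 3-graphs on six vertices. -/
def fam : Fin 5 → List (Finset (Finset (Fin 6)))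
  | 0 => [XA, XB]
  | 1 => [XA, XC]
  | 2 => [XD, XB]
  | 3 => [XE, XA]
  | 4 => [XF, XG, XH, XI]

end Pool.Agent.TH773.Turan34
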