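import Pool.Agent.TH773.ST.Vtx

/-! Extremal structures are Turán's constructions. -/

set_option autoImplicit false
set_option maxRecDepth 100000
set_option maxHeartbeats 4000000
open Finset
open scoped Classical

namespace Pool.Agent.TH773.ST
open Pool.Agent.H122R2.N6 Pool.Agent.H37R3.Pen Pool.Agent.H37R3.Cop Pool.Agent.H37R3.CopL

section
variable {V : Type} [Fintype V] {E : V → V → V → ℕ} {g : V → Fin 3}

theorem sum_Dv_le : ∑ v, Dv E g v ≤ bad E g := by
  unfold Dv bad
  rw [← card_sigma]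
  refine card_le_card_of_injOn (fun p => ![p.2 0, p.2 1, p.1]) ?_ ?_
  · rintro ⟨v, t⟩ hp
    have hp' := (mem_filter.mp (mem_sigma.mp (mem_coe.mp hp)).2).2
    exact mem_coe.mpr (mem_filter.mpr ⟨mem_univ _, hp'⟩)
  · rintro ⟨v, t⟩ _ ⟨v', t'⟩ _ h
    have h2 : v = v' := congrFun h 2
    subst h2
    have ht : t = t' := by
      funext k
      fin_cases k
      exacts [congrFun h 0, congrFun h 1]
    rw [ht]

theorem arith3 {n a b bd N T : ℕ} (hn : 10 ^ 40 ≤ n) (ha : n ^ 5 ≤ 1250 * a)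
    (hab : a * b ≤ 20 * (bd * n ^ 4) + N * n + 3 * (T * n ^ 2)) (hbd : bd ≤ 10 ^ 10 * n ^ 2)
    (hN : N ≤ 11400 * n ^ 5) (hT : 10 ^ 13 * T ≤ n ^ 5) : 2 * 10 ^ 9 * b ≤ n ^ 2 := by
  have h1 : n ^ 5 * b ≤ 1250 * (a * b) := by
    calc n ^ 5 * b ≤ 1250 * a * b := Nat.mul_le_mul_right _ ha
      _ = _ := by ring
  have h2 : bd * n ^ 4 ≤ 10 ^ 10 * n ^ 6 := by
    calc bd * n ^ 4 ≤ 10 ^ 10 * n ^ 2 * n ^ 4 := Nat.mul_le_mul_right _ hbd
      _ = _ := by ring
  have h3 : N * n ≤ 11400 * n ^ 6 := by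
    calc N * n ≤ 11400 * n ^ 5 * n := Nat.mul_le_mul_right _ hN
      _ = _ := by ring
  have h4 : 10 ^ 13 * (T * n ^ 2) ≤ n ^ 7 := by
    calc 10 ^ 13 * (T * n ^ 2) = 10 ^ 13 * T * n ^ 2 := by ring
      _ ≤ n ^ 5 * n ^ 2 := Nat.mul_le_mul_right _ hT
      _ = _ := by ring
  have h5 : 10 ^ 40 * n ^ 6 ≤ n ^ 7 := by
    calc 10 ^ 40 * n ^ 6 ≤ n * n ^ 6 := Nat.mul_le_mul_right _ hn
      _ = _ := by ring
  have h6 : 2 * 10 ^ 9 * (n ^ 5 * b) ≤ n ^ 7 := by
    generalize n ^ 5 * b = B at *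
    generalize a * b = A at *
    generalize bd * n ^ 4 = X at *
    generalize N * n = Y at *
    generalize T * n ^ 2 = Z at *
    generalize n ^ 6 = W at *
    generalize n ^ 7 = U at *
    omega
  have h7 : n ^ 5 * (2 * 10 ^ 9 * b) ≤ n ^ 5 * n ^ 2 := by
    calc n ^ 5 * (2 * 10 ^ 9 * b) = 2 * 10 ^ 9 * (n ^ 5 * b) := by ring
      _ ≤ n ^ 7 := h6
      _ = _ := by ring
  exact Nat.le_of_mul_le_mul_left h7 (by positivity)

theorem colour_diff : ∀ d d' : Fin 3, d ≠ d' → ∃ i j, Rf i j d ≠ Rf i j d' := by decide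

/-- a vertex with a wrong colour is in many violations -/
theorem wrong_colour (hp : ∀ k, 3 * Fintype.card V ≤ 10 * (Pt g k).card) {v : V} {d : Fin 3}
    (hd : d ≠ g v) (hB : 2 * 10 ^ 9 * (Bv E g v d).card ≤ Fintype.card V ^ 2) :
    8 * Fintype.card V ^ 2 ≤ 100 * Dv E g v := by
  obtain ⟨i, j, hij⟩ := colour_diff d (g v) hd
  have hsub : Fintype.piFinset ![Pt g i, Pt g j] ⊆ Bv E g v d ∪
      (univ : Finset (Fin 2 → V)).filter fun t =>
        E (t 0) (t 1) v ≠ Rf (g (t 0)) (g (t 1)) (g v) := by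
    intro t ht
    rw [Fintype.mem_piFinset] at ht
    have h0 : g (t 0) = i := (mem_filter.mp (ht 0)).2
    have h1 : g (t 1) = j := (mem_filter.mp (ht 1)).2
    by_contra hno
    rw [mem_union] at hno
    push Not at hno
    have e1 : E (t 0) (t 1) v = Rf (g (t 0)) (g (t 1)) d := by
      by_contra h
      exact hno.1 (mem_filter.mpr ⟨mem_univ _, h⟩)
    have e2 : E (t 0) (t 1) v = Rf (g (t 0)) (g (t 1)) (g v) := by
      by_contra h
      exact hno.2 (mem_filter.mpr ⟨mem_univ _, h⟩)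
    rw [e1, h0, h1] at e2
    exact hij e2
  have h1 := (card_le_card hsub).trans (card_union_le _ _)
  rw [Fintype.card_piFinset, Fin.prod_univ_two] at h1
  change (Pt g i).card * (Pt g j).card ≤ (Bv E g v d).card + Dv E g v at h1
  have h2 : 9 * Fintype.card V ^ 2 ≤ 100 * ((Pt g i).card * (Pt g j).card) := by
    calc 9 * Fintype.card V ^ 2 = (3 * Fintype.card V) * (3 * Fintype.card V) := by ring
      _ ≤ (10 * (Pt g i).card) * (10 * (Pt g j).card) := Nat.mul_le_mul (hp i) (hp j)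
      _ = _ := by ring
  generalize (Pt g i).card * (Pt g j).card = P at *
  generalize Fintype.card V ^ 2 = W at *
  omega

/-- violations for the new colouring -/
theorem Dv_new {g' : V → Fin 3} (v : V) :
    Dv E g' v ≤ (Bv E g v (g' v)).card +
      2 * (((univ : Finset V).filter fun v => g' v ≠ g v).card * Fintype.card V) := by
  let D := (univ : Finset V).filter fun v => g' v ≠ g v
  have hsub : ((univ : Finset (Fin 2 → V)).filter fun t =>
      E (t 0) (t 1) v ≠ Rf (g' (t 0)) (g' (t 1)) (g' v)) ⊆ Bv E g v (g' v) ∪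
      (Fintype.piFinset ![D, univ] ∪ Fintype.piFinset ![univ, D]) := by
    intro t ht
    have ht' := (mem_filter.mp ht).2
    by_contra hno
    rw [mem_union, mem_union] at hno
    push Not at hno
    obtain ⟨n1, n2, n3⟩ := hno
    have e0 : g' (t 0) = g (t 0) := by
      by_contra h
      refine n2 (Fintype.mem_piFinset.mpr fun k => ?_)
      fin_cases k
      · exact mem_filter.mpr ⟨mem_univ _, h⟩
      · exact mem_univ _
    have e1 : g' (t 1) = g (t 1) := by
      by_contra h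
      refine n3 (Fintype.mem_piFinset.mpr fun k => ?_)
      fin_cases k
      · exact mem_univ _
      · exact mem_filter.mpr ⟨mem_univ _, h⟩
    refine n1 (mem_filter.mpr ⟨mem_univ _, ?_⟩)
    rw [← e0, ← e1]
    exact ht'
  have h1 := (card_le_card hsub).trans ((card_union_le _ _).trans
    (Nat.add_le_add_left (card_union_le _ _) _))
  rw [Fintype.card_piFinset, Fintype.card_piFinset, Fin.prod_univ_two, Fin.prod_univ_two] at h1
  change Dv E g' v ≤ (Bv E g v (g' v)).card + (D.card * (univ : Finset V).card +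
    (univ : Finset V).card * D.card) at h1
  rw [card_univ] at h1
  have e : Fintype.card V * D.card = D.card * Fintype.card V := mul_comm _ _
  rw [e] at h1
  have e2 : (((univ : Finset V).filter fun v => g' v ≠ g v).card * Fintype.card V) =
    D.card * Fintype.card V := rfl
  rw [e2]
  omega

/-- for large `n` an extremal structure is Turán's construction -/
theorem extremal {i : Fin 5} (h : Ext1 i E) (hn : 10 ^ 40 ≤ Fintype.card V) :
    ∃ g : V → Fin 3, ∀ x y z, E x y z = Tg g x y z := by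
  have hn0 : 0 < Fintype.card V := lt_of_lt_of_le (by norm_num) hn
  obtain ⟨g, hg⟩ := h.col hn0
  have hg9 : 10 ^ 9 * bad E g ≤ Fintype.card V ^ 3 := by
    calc 10 ^ 9 * bad E g ≤ 10 ^ 9 * (10 ^ 10 * Fintype.card V ^ 2) := Nat.mul_le_mul_left _ hg
      _ = 10 ^ 19 * Fintype.card V ^ 2 := by ring
      _ ≤ Fintype.card V * Fintype.card V ^ 2 :=
        Nat.mul_le_mul_right _ (le_trans (by norm_num) hn)
      _ = _ := by ring
  have hparts := h.parts (g := g) (le_trans (by norm_num) hn) hg9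
  have hlo := fun k => (hparts k).1
  have hcol : ∀ v, ∃ d, Fintype.card V ^ 5 ≤ 1250 * (Av E g v d).card := fun v =>
    exists_colour hg hlo (le_trans (by norm_num) hn) (h.ntv hn v)
  choose g' hg' using hcol
  have hB : ∀ v, 2 * 10 ^ 9 * (Bv E g v (g' v)).card ≤ Fintype.card V ^ 2 := fun v =>
    arith3 hn (hg' v) (AB_le v (g' v)) hg h.nt (h.ntv hn v)
  -- few vertices change their colours
  set D := (univ : Finset V).filter fun v => g' v ≠ g v with hD
  have hDc : 8 * D.card ≤ 10 ^ 12 := by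
    have h1 : D.card * (8 * Fintype.card V ^ 2) ≤ 100 * bad E g := by
      calc D.card * (8 * Fintype.card V ^ 2) = ∑ _v ∈ D, 8 * Fintype.card V ^ 2 := by
            rw [sum_const, smul_eq_mul]
        _ ≤ ∑ v ∈ D, 100 * Dv E g v := sum_le_sum fun v hv =>
            wrong_colour hlo (mem_filter.mp hv).2 (hB v)
        _ ≤ ∑ v, 100 * Dv E g v := sum_le_univ_sum_of_nonneg fun _ => Nat.zero_le _
        _ = 100 * ∑ v, Dv E g v := by rw [mul_sum]
        _ ≤ 100 * bad E g := Nat.mul_le_mul_left _ sum_Dv_le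
    have h2 : Fintype.card V ^ 2 * (8 * D.card) ≤ Fintype.card V ^ 2 * 10 ^ 12 := by
      calc Fintype.card V ^ 2 * (8 * D.card) = D.card * (8 * Fintype.card V ^ 2) := by ring
        _ ≤ 100 * bad E g := h1
        _ ≤ 100 * (10 ^ 10 * Fintype.card V ^ 2) := Nat.mul_le_mul_left _ hg
        _ = _ := by ring
    exact Nat.le_of_mul_le_mul_left h2 (by positivity)
  have hDv : ∀ v, 10 ^ 9 * Dv E g' v ≤ Fintype.card V ^ 2 := by
    intro v
    have h1 := Dv_new (E := E) (g := g) (g' := g') v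
    rw [← hD] at h1
    have h2 := hB v
    have h3 : D.card * Fintype.card V ≤ 10 ^ 12 * Fintype.card V :=
      Nat.mul_le_mul_right _ (by omega)
    have h4 : 10 ^ 40 * Fintype.card V ≤ Fintype.card V ^ 2 := by
      calc 10 ^ 40 * Fintype.card V ≤ Fintype.card V * Fintype.card V := Nat.mul_le_mul_right _ hn
        _ = _ := by ring
    generalize D.card * Fintype.card V = X at *
    generalize Fintype.card V ^ 2 = W at *
    omega
  have hbad : 10 ^ 9 * bad E g' ≤ Fintype.card V ^ 3 := by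
    calc 10 ^ 9 * bad E g' ≤ 10 ^ 9 * ∑ v, Dv E g' v := Nat.mul_le_mul_left _ bad_eq_sum
      _ = ∑ v, 10 ^ 9 * Dv E g' v := by rw [mul_sum]
      _ ≤ ∑ _v : V, Fintype.card V ^ 2 := sum_le_sum fun v _ => hDv v
      _ = Fintype.card V ^ 3 := by rw [sum_const, card_univ, smul_eq_mul]; ring
  have hparts' := h.parts (g := g') (le_trans (by norm_num) hn) hbad
  refine ⟨g', compare h.c ⟨le_trans (by norm_num) hn, hDv, fun k => (hparts' k).1,
    fun k => (hparts' k).2⟩ (h.mx _ (Tg_cls i g'))⟩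

/-- there is an extremal structure -/
theorem exists_extremal (i : Fin 5) (V : Type) [Fintype V] :
    ∃ E : V → V → V → ℕ, Ext1 i E := by
  have hb : ∀ E : V → V → V → ℕ, Cls i E → S3 E ≤ Fintype.card V ^ 3 := by
    intro E hE
    have h1 : S3 E ≤ S3 fun (_ _ _ : V) => 1 := S3_le fun x y z => by
      rcases hE.sy.b x y z with h | h <;> rw [h] <;> norm_num
    refine h1.trans (le_of_eq ?_)
    unfold S3
    simp only [sum_const, card_univ, smul_eq_mul, mul_one]
    ring
  let S : Set ℕ := {k | ∃ E : V → V → V → ℕ, Cls i E ∧ S3 E = k}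
  have hne : S.Nonempty := ⟨S3 (Tg fun _ : V => 0), Tg fun _ => 0, Tg_cls i _, rfl⟩
  have hbd : BddAbove S := ⟨Fintype.card V ^ 3, by
    rintro k ⟨E, hE, rfl⟩
    exact hb E hE⟩
  obtain ⟨E, hE, hk⟩ := Nat.sSup_mem hne hbd
  exact ⟨E, hE, fun E' hE' => by rw [hk]; exact le_csSup hbd ⟨E', hE', rfl⟩⟩

end
end Pool.Agent.TH773.ST
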