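import Pool.Agent.TH773.ST.Num

/-! The exact result for 3-graphs. -/

set_option autoImplicit false
set_option maxRecDepth 100000
set_option maxHeartbeats 4000000
open Finset
open scoped Classical

namespace Pool.Agent.TH773.ST
open Pool.Agent.H122R2.N6 Pool.Agent.H37R3.Pen Pool.Agent.H37R3.Cop Pool.Agent.H37R3.CopL

section
variable {n : ℕ}

theorem tri_dist {H : Finset (Finset (Fin n))} (hH : ∀ e ∈ H, e.card = 3) {x y z : Fin n}
    (h : ({x, y, z} : Finset (Fin n)) ∈ H) : x ≠ y ∧ x ≠ z ∧ y ≠ z :=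
  distinct_of_mem hH (tri_one.mp (tri_iff.mpr h))

/-- the number of ordered edges -/
theorem S3_tri {H : Finset (Finset (Fin n))} (hH : ∀ e ∈ H, e.card = 3) :
    S3 (tri H) = 6 * H.card := by
  refine le_antisymm ?_ (six_card_le hH)
  set T : Finset (Fin n × Fin n × Fin n) :=
    univ.filter fun t => ({t.1, t.2.1, t.2.2} : Finset (Fin n)) ∈ H with hT
  have e1 : S3 (tri H) = T.card := by
    rw [hT, card_filter, Fintype.sum_prod_type]
    refine sum_congr rfl fun a _ => ?_
    rw [Fintype.sum_prod_type]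
    refine sum_congr rfl fun b _ => sum_congr rfl fun c _ => ?_
    rw [tri_ite]
  have hfw := card_eq_sum_card_fiberwise (s := T)
    (f := fun t : Fin n × Fin n × Fin n => ({t.1, t.2.1, t.2.2} : Finset (Fin n)))
    (t := H) (fun t ht => (mem_filter.mp (mem_coe.mp ht)).2)
  rw [e1, hfw, mul_comm, ← smul_eq_mul, ← sum_const]
  refine sum_le_sum fun e he => ?_
  obtain ⟨a, b, c, hab, hac, hbc, rfl⟩ := Finset.card_eq_three.mp (hH e he)
  have hsub : T.filter (fun t : Fin n × Fin n × Fin n => ({t.1, t.2.1, t.2.2} : Finset (Fin n)) =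
      {a, b, c}) ⊆ {(a, b, c), (a, c, b), (b, a, c), (b, c, a), (c, a, b), (c, b, a)} := by
    rintro ⟨x, y, z⟩ ht
    obtain ⟨h1, h2⟩ := mem_filter.mp ht
    simp only at h2
    have hd := tri_dist hH (mem_filter.mp h1).2
    simp only at hd
    obtain ⟨d1, d2, d3⟩ := hd
    have hx : x ∈ ({a, b, c} : Finset (Fin n)) := by rw [← h2]; simp
    have hy : y ∈ ({a, b, c} : Finset (Fin n)) := by rw [← h2]; simp
    have hz : z ∈ ({a, b, c} : Finset (Fin n)) := by rw [← h2]; simp
    simp only [mem_insert, mem_singleton] at hx hy hz ⊢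
    rcases hx with rfl | rfl | rfl <;> rcases hy with rfl | rfl | rfl <;>
      rcases hz with rfl | rfl | rfl <;> simp_all
  exact (card_le_card hsub).trans card_le_six

/-- 3-graphs of the classes -/
theorem cls_of {H : Finset (Finset (Fin n))} (hH : ∀ e ∈ H, e.card = 3) (hK : Turan34.K43Free H)
    {i : Fin 5} (hc : Turan34.copies (Turan34.fam i) H = 0) : Cls i (tri H) where
  sy := tri_sy H
  k4 := tri_noK4 hH hK
  dg := by
    intro a b
    rcases (tri_sy H).b a a b with h | h
    · exact h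
    · exact absurd rfl (distinct_of_mem hH (tri_one.mp h)).1
  nn := by
    intro x hx
    have h1 := sum_le_copies hH i
    rw [hc, mul_zero, Nat.le_zero, sum_eq_zero_iff] at h1
    have h2 := h1 x (mem_univ _)
    unfold XL at h2
    rw [if_pos hx] at h2
    exact absurd h2 (by decide)

theorem fam_mask (i : Fin 5) : ∀ F ∈ Turan34.fam i, ∃ m ∈ famM i, Mask m F := by
  intro F hF
  fin_cases i
  · rcases (by simpa [Turan34.fam] using hF : F = Turan34.XA ∨ F = Turan34.XB) with rfl | rfl
    exacts [⟨_, by simp [famM], mA⟩, ⟨_, by simp [famM], mB⟩]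
  · rcases (by simpa [Turan34.fam] using hF : F = Turan34.XA ∨ F = Turan34.XC) with rfl | rfl
    exacts [⟨_, by simp [famM], mA⟩, ⟨_, by simp [famM], mC⟩]
  · rcases (by simpa [Turan34.fam] using hF : F = Turan34.XD ∨ F = Turan34.XB) with rfl | rfl
    exacts [⟨_, by simp [famM], mD⟩, ⟨_, by simp [famM], mB⟩]
  · rcases (by simpa [Turan34.fam] using hF : F = Turan34.XE ∨ F = Turan34.XA) with rfl | rfl
    exacts [⟨_, by simp [famM], mE⟩, ⟨_, by simp [famM], mA⟩]
  · rcases (by simpa [Turan34.fam] using hF : F = Turan34.XF ∨ F = Turan34.XG ∨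
      F = Turan34.XH ∨ F = Turan34.XI) with rfl | rfl | rfl | rfl
    exacts [⟨_, by simp [famM], mF⟩, ⟨_, by simp [famM], mG⟩, ⟨_, by simp [famM], mH⟩,
      ⟨_, by simp [famM], mI⟩]

theorem turan_free (g : Fin n → Fin 3) : Turan34.K43Free (Turan34.turan g) := by
  intro S hS
  obtain ⟨f, hf⟩ : ∃ f : Fin 4 → Fin n, Function.Injective f ∧ univ.image f = S := by
    refine ⟨fun k => (S.orderIsoOfFin hS k : Fin n), ?_, ?_⟩
    · intro a b hab
      exact (S.orderIsoOfFin hS).injective (Subtype.ext hab)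
    · ext v
      simp only [mem_image, mem_univ, true_and]
      constructor
      · rintro ⟨k, rfl⟩
        exact (S.orderIsoOfFin hS k).2
      · intro hv
        exact ⟨(S.orderIsoOfFin hS).symm ⟨v, hv⟩, by simp⟩
  obtain ⟨hinj, hfS⟩ := hf
  by_contra hno
  push Not at hno
  have key : ∀ a b c : Fin 4, a ≠ b → a ≠ c → b ≠ c →
      Rf (g (f a)) (g (f b)) (g (f c)) = 1 := by
    intro a b c hab hac hbc
    have h1 : f a ≠ f b := fun h => hab (hinj h)
    have h2 : f a ≠ f c := fun h => hac (hinj h)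
    have h3 : f b ≠ f c := fun h => hbc (hinj h)
    rw [← mem_turan h1 h2 h3]
    refine hno _ ?_ ?_
    · intro v hv
      rw [← hfS]
      simp only [mem_insert, mem_singleton] at hv
      rcases hv with rfl | rfl | rfl <;> exact mem_image_of_mem _ (mem_univ _)
    · rw [card_insert_of_notMem, card_insert_of_notMem, card_singleton]
      · simpa using h3
      · simpa using ⟨h1, h2⟩
  exact noK_col _ _ _ _ ⟨key 0 1 2 (by decide) (by decide) (by decide),
    key 0 1 3 (by decide) (by decide) (by decide), key 0 2 3 (by decide) (by decide) (by decide),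
    key 1 2 3 (by decide) (by decide) (by decide)⟩

theorem copy_of_ind {F : Finset (Finset (Fin 6))} {m : ℕ} (hm : Mask m F)
    {H : Finset (Finset (Fin n))} {f : Fin 6 → Fin n}
    (h : ∀ t : Finset (Fin 6), t.card = 3 → (t.image f ∈ H ↔ t ∈ F)) : Copy (tri H) m f := by
  intro a b c hab hbc
  have h1 : ({a, b, c} : Finset (Fin 6)).card = 3 := by
    rw [card_insert_of_notMem, card_insert_of_notMem, card_singleton]
    · simpa using hbc.ne
    · simpa using ⟨hab.ne, (hab.trans hbc).ne⟩
  have h2 := h _ h1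
  rw [← hm.1 a b c hab hbc, image_insert, image_insert, image_singleton] at h2
  have hb : bt m (ti a b c) = 0 ∨ bt m (ti a b c) = 1 := by
    unfold bt
    exact Nat.mod_two_eq_zero_or_one _
  rcases hb with hb | hb
  · rw [hb] at h2 ⊢
    rcases (tri_sy H).b (f a) (f b) (f c) with h3 | h3
    · exact h3
    · exact absurd (h2.mp (tri_iff.mp h3)) (by decide)
  · rw [hb] at h2 ⊢
    exact tri_iff.mpr (h2.mpr rfl)

theorem turan_copies (i : Fin 5) (g : Fin n → Fin 3) :
    Turan34.copies (Turan34.fam i) (Turan34.turan g) = 0 := by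
  unfold Turan34.copies
  rw [card_eq_zero, filter_eq_empty_iff]
  rintro S - ⟨F, hF, f, hf, -, hfe⟩
  obtain ⟨m, hm, hmF⟩ := fam_mask i F hF
  have hc := copy_of_ind hmF hfe
  refine (Tg_cls i g).nn f ⟨id, Function.injective_id, m, hm, ?_⟩
  intro a b c hab hbc
  rw [← hc a b c hab hbc, tri_turan]
  rfl

theorem turan_card6 (g : Fin n → Fin 3) : 6 * (Turan34.turan g).card =
    F6 (Pt g 0).card (Pt g 1).card (Pt g 2).card := by
  rw [← S3_tri (fun e he => turan_card he), ← S3_Tg]
  unfold S3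
  exact sum_congr rfl fun x _ => sum_congr rfl fun y _ => sum_congr rfl fun z _ => tri_turan g x y z

theorem eq_of_tri {H H' : Finset (Finset (Fin n))} (hH : ∀ e ∈ H, e.card = 3)
    (hH' : ∀ e ∈ H', e.card = 3) (h : ∀ x y z, tri H x y z = tri H' x y z) : H = H' := by
  ext e
  constructor
  · intro he
    obtain ⟨a, b, c, -, -, -, rfl⟩ := Finset.card_eq_three.mp (hH e he)
    exact tri_iff.mp ((h a b c).symm.trans (tri_iff.mpr he))
  · intro he
    obtain ⟨a, b, c, -, -, -, rfl⟩ := Finset.card_eq_three.mp (hH' e he)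
    exact tri_iff.mp ((h a b c).trans (tri_iff.mpr he))

/-- the exact result -/
theorem exact_H (i : Fin 5) (hn : 10 ^ 40 ≤ n) {H : Finset (Finset (Fin n))}
    (hH : ∀ e ∈ H, e.card = 3) (hK : Turan34.K43Free H)
    (hc : Turan34.copies (Turan34.fam i) H = 0) :
    6 * H.card ≤ F6 ((n + 2) / 3) ((n + 1) / 3) (n / 3) ∧
      (6 * H.card = F6 ((n + 2) / 3) ((n + 1) / 3) (n / 3) → ∃ g : Fin n → Fin 3,
        near (Pt g 0).card (Pt g 1).card (Pt g 2).card ∧ H = Turan34.turan g) := by
  have hn' : 10 ^ 40 ≤ Fintype.card (Fin n) := by rw [Fintype.card_fin]; exact hn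
  obtain ⟨E, hE⟩ := exists_extremal i (Fin n)
  obtain ⟨g, hg⟩ := extremal hE hn'
  have hEg : S3 E = S3 (Tg g) := by
    unfold S3
    exact sum_congr rfl fun x _ => sum_congr rfl fun y _ => sum_congr rfl fun z _ => hg x y z
  have hsz : (Pt g 0).card + (Pt g 1).card + (Pt g 2).card = n := by
    rw [Pt_add, Fintype.card_fin]
  have h16 : 16 ≤ n := le_trans (by norm_num) hn
  have h1 := (F6_le hsz h16).1
  have hcls := cls_of hH hK hc
  have h2 := hE.mx _ hcls
  rw [S3_tri hH, hEg, S3_Tg] at h2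
  refine ⟨h2.trans h1, fun heq => ?_⟩
  have hext : Ext1 i (tri H) := ⟨hcls, fun E' hE' => by
    have h3 := hE.mx _ hE'
    rw [hEg, S3_Tg] at h3
    rw [S3_tri hH, heq]
    exact h3.trans h1⟩
  obtain ⟨g', hg'⟩ := extremal hext hn'
  have hHg : H = Turan34.turan g' := by
    refine eq_of_tri hH (fun e he => turan_card he) fun x y z => ?_
    rw [hg', tri_turan]
  refine ⟨g', ?_, hHg⟩
  have hsz' : (Pt g' 0).card + (Pt g' 1).card + (Pt g' 2).card = n := by
    rw [Pt_add, Fintype.card_fin]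
  refine ((F6_le hsz' h16).2).mp ?_
  rw [← heq, hHg, turan_card6]

end
end Pool.Agent.TH773.ST
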