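import Pool.Agent.H37R3.K4.TBTab
import Pool.Agent.TH773.ST.ComT

set_option autoImplicit false
set_option maxRecDepth 100000

namespace Pool.Agent.TH773.ST.TB
open Pool.Agent.H122R2.N6 Pool.Agent.H37R3.TB Pool.Agent.TH773.ST

noncomputable def part (b012 b013 : ℕ) : Bool := B2 fun b023 => B2 fun b123 => B2 fun b014 => B2 fun b024 => B2 fun b124 => B2 fun b034 => B2 fun b134 => B2 fun b234 => or (not (Nat.beq (tg b012 b013 b023 b123 b014 b024 b124 b034 b134 b234) 4)) (chkS q4 q2 CST 992540065259809440 8202810456692640 LT LST b012 b013 b023 b123 b014 b024 b124 b034 b134 b234)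

theorem part00 : part 0 0 = true := by decide +kernel
theorem part01 : part 0 1 = true := by decide +kernel
theorem part10 : part 1 0 = true := by decide +kernel
theorem part11 : part 1 1 = true := by decide +kernel

end Pool.Agent.TH773.ST.TB
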