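import Pool.Agent.H37R3.K4.TEFin
import Pool.Agent.TH773.ST.TEChk

set_option autoImplicit false
set_option maxRecDepth 100000
set_option maxHeartbeats 4000000
open Finset

namespace Pool.Agent.TH773.ST.TE
open Pool.Agent.H122R2.N6 Pool.Agent.H37R3.Cop Pool.Agent.H37R3.CopL Pool.Agent.H37R3.TE Pool.Agent.TH773.ST

theorem hcS (b012 b013 b023 b123 b014 b024 b124 b034 b134 b234 : ℕ) (hb012 : Bt b012) (hb013 : Bt b013) (hb023 : Bt b023) (hb123 : Bt b123) (hb014 : Bt b014) (hb024 : Bt b024) (hb124 : Bt b124) (hb034 : Bt b034) (hb134 : Bt b134) (hb234 : Bt b234) (ht : tg b012 b013 b023 b123 b014 b024 b124 b034 b134 b234 = 4) :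
    chkS q4 q2 CST 8867238103684743840 8202810456692640 LT LST b012 b013 b023 b123 b014 b024 b124 b034 b134 b234 = true := by
  have h : ST.TE.part b012 b013 = true := by
    rcases hb012 with rfl | rfl <;> rcases hb013 with rfl | rfl
    exacts [ST.TE.part00, ST.TE.part01, ST.TE.part10, ST.TE.part11]
  have h2 := (B2_true (B2_true (B2_true (B2_true (B2_true (B2_true (B2_true (B2_true h hb023) hb123) hb014) hb024) hb124) hb034) hb134) hb234)
  refine or_false_left h2 ?_
  rw [ht]
  rfl

theorem isoN : isoM LST TAB [77292, 97095, 119623, 119639] = true := by decide +kernel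

theorem cert {V : Type} [Fintype V] {E : V → V → V → ℕ} (hE : Sy E) (hK : NoK4 E) :
    1800 * Fintype.card V ^ 3 * (∑ a, ∑ b, ∑ c, E a b c) + NT E ≤
      1000 * Fintype.card V ^ 6 + 1081 * ∑ x : Fin 6 → V, XL E [77292, 97095, 119623, 119639] x := by
  have h := slack_gen (E := E) hE hK (K := 78) (K2 := 13) (T := 82028104566926400) (C := CST)
    (P := 8867238103684743840) (s := 8202810456692640) (D := 8202810456692640000) (B := 8192)
    (by decide) hq4 (by intro i j hi hj; rw [Nat.cast_ofNat]; exact hq2 i j hi hj) cs4 cs2 hcS isoT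
    isoN (by decide)
  have e1 : 8867238103684743840 * (∑ x : Fin 6 → V, XL E [77292, 97095, 119623, 119639] x) ≤
      8867238103684743840 * (∑ x : Fin 6 → V, XL E [77292, 97095, 119623, 119639] x) :=
    Nat.mul_le_mul_right _ (by norm_num)
  generalize (∑ x : Fin 6 → V, XL E [77292, 97095, 119623, 119639] x) = X at h e1 ⊢
  have e2 : 180 * 82028104566926400 * Fintype.card V ^ 3 * (∑ a, ∑ b, ∑ c, E a b c) =
      14765058822046752000 * (Fintype.card V ^ 3 * (∑ a, ∑ b, ∑ c, E a b c)) := by ring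
  rw [e2] at h
  rw [mul_assoc]
  generalize Fintype.card V ^ 3 * (∑ a, ∑ b, ∑ c, E a b c) = Y at h ⊢
  generalize NT E = Z at h ⊢
  generalize Fintype.card V ^ 6 = W at h ⊢
  omega

end Pool.Agent.TH773.ST.TE
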