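import Pool.Agent.TH773.ST.Defs
import Pool.Agent.TH773.ST.Avg
import Pool.Agent.TH773.ST.TACert
import Pool.Agent.TH773.ST.TBCert
import Pool.Agent.TH773.ST.TCCert
import Pool.Agent.TH773.ST.TDCert
import Pool.Agent.TH773.ST.TECert

/-! From 3-graphs to indicator functions. -/

set_option autoImplicit false
set_option maxRecDepth 100000
set_option maxHeartbeats 4000000
open Finset
open scoped Classical

namespace Pool.Agent.TH773.ST
open Pool.Agent.H122R2.N6 Pool.Agent.H37R3.Pen Pool.Agent.H37R3.Cop Pool.Agent.H37R3.CopL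

/-- masks of the lists of 3-graphs -/
def famM : Fin 5 → List ℕ
  | 0 => [96747, 228027]
  | 1 => [96747, 97788]
  | 2 => [120663, 228027]
  | 3 => [78078, 96747]
  | 4 => [77292, 97095, 119623, 119639]

theorem mA : Mask 96747 Turan34.XA := by constructor <;> decide +kernel
theorem mB : Mask 228027 Turan34.XB := by constructor <;> decide +kernel
theorem mC : Mask 97788 Turan34.XC := by constructor <;> decide +kernel
theorem mD : Mask 120663 Turan34.XD := by constructor <;> decide +kernel
theorem mE : Mask 78078 Turan34.XE := by constructor <;> decide +kernel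
theorem mF : Mask 77292 Turan34.XF := by constructor <;> decide +kernel
theorem mG : Mask 97095 Turan34.XG := by constructor <;> decide +kernel
theorem mH : Mask 119623 Turan34.XH := by constructor <;> decide +kernel
theorem mI : Mask 119639 Turan34.XI := by constructor <;> decide +kernel

theorem famM_mask (i : Fin 5) : ∀ m ∈ famM i, ∃ F ∈ Turan34.fam i, Mask m F := by
  intro m hm
  fin_cases i
  · rcases (by simpa [famM] using hm : m = 96747 ∨ m = 228027) with rfl | rfl
    exacts [⟨_, by simp [Turan34.fam], mA⟩, ⟨Turan34.XB, by simp [Turan34.fam], mB⟩]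
  · rcases (by simpa [famM] using hm : m = 96747 ∨ m = 97788) with rfl | rfl
    exacts [⟨_, by simp [Turan34.fam], mA⟩, ⟨Turan34.XC, by simp [Turan34.fam], mC⟩]
  · rcases (by simpa [famM] using hm : m = 120663 ∨ m = 228027) with rfl | rfl
    exacts [⟨_, by simp [Turan34.fam], mD⟩, ⟨Turan34.XB, by simp [Turan34.fam], mB⟩]
  · rcases (by simpa [famM] using hm : m = 78078 ∨ m = 96747) with rfl | rfl
    exacts [⟨_, by simp [Turan34.fam], mE⟩, ⟨Turan34.XA, by simp [Turan34.fam], mA⟩]
  · rcases (by simpa [famM] using hm : m = 77292 ∨ m = 97095 ∨ m = 119623 ∨ m = 119639) with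
      rfl | rfl | rfl | rfl
    exacts [⟨_, by simp [Turan34.fam], mF⟩, ⟨Turan34.XG, by simp [Turan34.fam], mG⟩,
      ⟨Turan34.XH, by simp [Turan34.fam], mH⟩, ⟨Turan34.XI, by simp [Turan34.fam], mI⟩]

/-- the five certificates -/
theorem certs (i : Fin 5) {V : Type} [Fintype V] {E : V → V → V → ℕ} (hE : Sy E) (hK : NoK4 E) :
    1800 * Fintype.card V ^ 3 * (∑ a, ∑ b, ∑ c, E a b c) + NT E ≤
      1000 * Fintype.card V ^ 6 + 1081 * ∑ x : Fin 6 → V, XL E (famM i) x := by
  fin_cases i
  exacts [TA.cert hE hK, TB.cert hE hK, TC.cert hE hK, TD.cert hE hK, TE.cert hE hK]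

section
variable {n : ℕ}

theorem img {k n : ℕ} (f : Fin k → Fin n) (t : Finset (Fin k)) :
    @Finset.image _ _ (fun a b => Classical.propDecidable (a = b)) f t =
      @Finset.image _ _ (instDecidableEqFin n) f t := by
  ext v
  simp only [mem_image]

theorem ind_iff (Fs : List (Finset (Finset (Fin 6)))) (H : Finset (Finset (Fin n)))
    (S : Finset (Fin n)) : IndL Fs H S ↔ ∃ F ∈ Fs, Turan34.Induces F H S := by
  unfold IndL Pool.Agent.H37R3.Cop.Induces Turan34.Induces
  simp only [img]

theorem copies_six (Fs : List (Finset (Finset (Fin 6)))) (H : Finset (Finset (Fin n))) :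
    (((univ : Finset (Fin n)).powersetCard 6).filter fun S => IndL Fs H S).card =
      Turan34.copies Fs H := by
  unfold Turan34.copies
  congr 1
  ext S
  rw [mem_filter, mem_filter, mem_powersetCard, ind_iff]
  constructor
  · rintro ⟨-, h⟩
    exact ⟨mem_univ _, h⟩
  · rintro ⟨-, h⟩
    refine ⟨⟨subset_univ _, ?_⟩, h⟩
    obtain ⟨F, -, f, hf, hS, -⟩ := h
    rw [← hS, card_image_of_injective _ hf]; rfl

/-- the sum of the indicators of the listed structures -/
theorem sum_le_copies {H : Finset (Finset (Fin n))} (hH : ∀ e ∈ H, e.card = 3) (i : Fin 5) :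
    ∑ x : Fin 6 → Fin n, XL (tri H) (famM i) x ≤ 720 * Turan34.copies (Turan34.fam i) H := by
  rw [← copies_six]
  exact sum_XL_le hH (famM_mask i)

theorem trip_eq (a b c : Fin n) :
    @Insert.insert _ _ (@Finset.instInsert _ fun a b => Classical.propDecidable (a = b)) a
      (@Insert.insert _ _ (@Finset.instInsert _ fun a b => Classical.propDecidable (a = b)) b
        ({c} : Finset (Fin n))) = ({a, b, c} : Finset (Fin n)) := by
  ext v
  simp only [mem_insert, mem_singleton]

theorem tri_iff {H : Finset (Finset (Fin n))} {a b c : Fin n} :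
    tri H a b c = 1 ↔ ({a, b, c} : Finset (Fin n)) ∈ H := by
  rw [tri_one, trip_eq]

theorem tri_ite (H : Finset (Finset (Fin n))) (a b c : Fin n) :
    tri H a b c = if ({a, b, c} : Finset (Fin n)) ∈ H then 1 else 0 := by
  rcases (tri_sy H).b a b c with h | h
  · rw [h, if_neg]
    intro h'
    rw [← tri_iff, h] at h'
    exact absurd h' (by decide)
  · rw [h, if_pos (tri_iff.mp h)]

theorem univ_turan : ∀ g : Fin 3 → Fin 3, (univ : Finset (Fin 3)) ∈ Turan34.turan g ↔
    Rf (g 0) (g 1) (g 2) = 1 := by
  decide +kernel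

theorem mem_turan_comp {m : ℕ} (g : Fin n → Fin 3) (f : Fin m → Fin n)
    (hf : Function.Injective f) (t : Finset (Fin m)) :
    t.image f ∈ Turan34.turan g ↔ t ∈ Turan34.turan (g ∘ f) := by
  unfold Turan34.turan
  have e : ∀ p, ((t.image f).filter fun i => g i = p).card =
      (t.filter fun i => (g ∘ f) i = p).card := by
    intro p
    rw [filter_image, card_image_of_injective _ hf]
    rfl
  rw [mem_filter, mem_filter, mem_powersetCard, mem_powersetCard, card_image_of_injective _ hf]
  simp only [e, subset_univ, true_and, mem_image, exists_exists_and_eq_and, Function.comp]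

theorem mem_turan {g : Fin n → Fin 3} {a b c : Fin n} (hab : a ≠ b) (hac : a ≠ c) (hbc : b ≠ c) :
    ({a, b, c} : Finset (Fin n)) ∈ Turan34.turan g ↔ Rf (g a) (g b) (g c) = 1 := by
  have hf : Function.Injective ![a, b, c] := by
    intro i j h
    fin_cases i <;> fin_cases j <;> simp_all
  have h1 : ({a, b, c} : Finset (Fin n)) = (univ : Finset (Fin 3)).image ![a, b, c] := by
    ext v
    simp only [mem_insert, mem_singleton, mem_image, mem_univ, true_and, Fin.exists_fin_succ]
    simp [eq_comm]
  rw [h1, mem_turan_comp g _ hf, univ_turan]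
  rfl

theorem turan_card {g : Fin n → Fin 3} {e : Finset (Fin n)} (he : e ∈ Turan34.turan g) :
    e.card = 3 := (mem_powersetCard.mp (mem_filter.mp he).1).2

/-- the distance to Turán's construction -/
theorem six_symm_le {H : Finset (Finset (Fin n))} (hH : ∀ e ∈ H, e.card = 3) (g : Fin n → Fin 3) :
    6 * (symmDiff H (Turan34.turan g)).card ≤ bad (tri H) g := by
  have hD : ∀ e ∈ symmDiff H (Turan34.turan g), e.card = 3 := by
    intro e he
    rw [mem_symmDiff] at he
    rcases he with he | he
    exacts [hH e he.1, turan_card he.1]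
  refine (six_card_le hD).trans ?_
  have e1 : ∑ a, ∑ b, ∑ c, tri (symmDiff H (Turan34.turan g)) a b c =
      ((univ : Finset (Fin n × Fin n × Fin n)).filter fun t =>
        ({t.1, t.2.1, t.2.2} : Finset (Fin n)) ∈ symmDiff H (Turan34.turan g)).card := by
    rw [Finset.card_filter, Fintype.sum_prod_type]
    refine sum_congr rfl fun a _ => ?_
    rw [Fintype.sum_prod_type]
    refine sum_congr rfl fun b _ => sum_congr rfl fun c _ => ?_
    rw [tri_ite]
  rw [e1]
  unfold bad
  refine card_le_card_of_injOn (fun p => ![p.1, p.2.1, p.2.2]) ?_ ?_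
  · rintro ⟨a, b, c⟩ hp
    have hp' : ({a, b, c} : Finset (Fin n)) ∈ symmDiff H (Turan34.turan g) :=
      (mem_filter.mp (mem_coe.mp hp)).2
    refine mem_coe.mpr (mem_filter.mpr ⟨mem_univ _, ?_⟩)
    have h3 := hD _ hp'
    have hab : a ≠ b := by
      rintro rfl
      have : ({a, a, c} : Finset (Fin n)).card ≤ 2 := by
        rw [insert_eq_of_mem (mem_insert_self _ _)]; exact card_le_two
      omega
    have hac : a ≠ c := by
      rintro rfl
      have : ({a, b, a} : Finset (Fin n)).card ≤ 2 := by
        rw [insert_comm, insert_eq_of_mem (mem_singleton_self _)]; exact card_le_two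
      omega
    have hbc : b ≠ c := by
      rintro rfl
      have : ({a, b, b} : Finset (Fin n)).card ≤ 2 := by
        rw [insert_eq_of_mem (mem_singleton_self b)]; exact card_le_two
      omega
    change tri H a b c ≠ Rf (g a) (g b) (g c)
    have hm := mem_turan (g := g) hab hac hbc
    rw [mem_symmDiff, hm] at hp'
    have ht : tri H a b c = 1 ↔ ({a, b, c} : Finset (Fin n)) ∈ H := tri_iff
    intro h
    rcases hp' with ⟨h1, h2⟩ | ⟨h1, h2⟩
    · rw [← ht, h] at h1; exact h2 h1
    · rw [← ht, h] at h2; exact h2 h1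
  · rintro ⟨a, b, c⟩ _ ⟨a', b', c'⟩ _ h
    have h0 := congrFun h 0
    have h1 := congrFun h 1
    have h2 := congrFun h 2
    simp only [Matrix.cons_val_zero, Matrix.cons_val_one, Matrix.cons_val] at h0 h1 h2
    rw [h0, h1, h2]

end
end Pool.Agent.TH773.ST
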