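import Pool.Agent.TH773.ST.Hyp

/-! Configurations which contain a listed structure, and the pairs with many extra edges. -/

set_option autoImplicit false
set_option maxRecDepth 100000
set_option maxHeartbeats 4000000
open Finset
open scoped Classical

namespace Pool.Agent.TH773.ST
open Pool.Agent.H122R2.N6 Pool.Agent.H37R3.Pen Pool.Agent.H37R3.Cop Pool.Agent.H37R3.CopL

/-- the class: `K_4^3`-free, without listed structures -/
structure Cls (i : Fin 5) {V : Type} (E : V → V → V → ℕ) : Prop where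
  sy : Sy E
  k4 : NoK4 E
  dg : ∀ a b, E a a b = 0
  nn : ∀ x, ¬ RelL E (famM i) x

/-- labelled codes, masks and permutations for two vertices in a part -/
def sC : Fin 5 → ℕ × ℕ × ℕ := ![(1040493, 96747, 35050), (1040493, 96747, 35050),
  (517005, 120663, 35610), (1040493, 96747, 35050), (516993, 119623, 72472)]
/-- colours of the four further vertices -/
def sK : Fin 5 → Fin 4 → Fin 3 := ![![0, 1, 1, 2], ![0, 1, 1, 2], ![0, 1, 2, 2], ![0, 1, 1, 2],
  ![0, 2, 2, 2]]
def sV : Fin 5 → Fin 4 → ℕ := ![![1, 0, 0, 0], ![1, 0, 0, 0], ![1, 0, 0, 0], ![1, 0, 0, 0],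
  ![1, 0, 0, 0]]
/-- labelled codes, masks and permutations for two vertices in different parts -/
def cC : Fin 5 → ℕ × ℕ × ℕ := ![(390087, 228027, 35603), (1044535, 97788, 144453),
  (390087, 228027, 35603), (872779, 78078, 13665), (373449, 77292, 55490)]
def cK : Fin 5 → Fin 4 → Fin 3 := ![![0, 1, 2, 2], ![0, 1, 1, 2], ![0, 1, 2, 2], ![0, 0, 2, 2],
  ![0, 2, 2, 2]]
def cV : Fin 5 → Fin 4 → ℕ := ![![1, 1, 0, 0], ![1, 1, 1, 0], ![1, 1, 0, 0], ![1, 1, 0, 0],
  ![1, 0, 0, 0]]

theorem sC_mem (i : Fin 5) : (sC i).2.1 ∈ famM i := by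
  fin_cases i <;> simp [sC, famM]
theorem cC_mem (i : Fin 5) : (cC i).2.1 ∈ famM i := by
  fin_cases i <;> simp [cC, famM]
theorem sC_iso (i : Fin 5) : isoB (sC i).1 (sC i).2.1 (sC i).2.2 = true := by
  fin_cases i <;> decide +kernel
theorem cC_iso (i : Fin 5) : isoB (cC i).1 (cC i).2.1 (cC i).2.2 = true := by
  fin_cases i <;> decide +kernel

theorem s_chk : ∀ (i : Fin 5) (t : Fin 3) (a b c : Fin 6), a < b → b < c →
    bt (sC i).1 (ti a b c) = if a = 0 ∧ b = 1 then (![9, 9, sV i 0, sV i 1, sV i 2, sV i 3] : Fin 6 → ℕ) c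
      else Rf ((![t, t, sK i 0 + t, sK i 1 + t, sK i 2 + t, sK i 3 + t] : Fin 6 → Fin 3) a)
        ((![t, t, sK i 0 + t, sK i 1 + t, sK i 2 + t, sK i 3 + t] : Fin 6 → Fin 3) b)
        ((![t, t, sK i 0 + t, sK i 1 + t, sK i 2 + t, sK i 3 + t] : Fin 6 → Fin 3) c) := by
  decide +kernel

theorem c_chk : ∀ (i : Fin 5) (t : Fin 3) (a b c : Fin 6), a < b → b < c →
    bt (cC i).1 (ti a b c) = if a = 0 ∧ b = 1 then (![9, 9, cV i 0, cV i 1, cV i 2, cV i 3] : Fin 6 → ℕ) c
      else Rf ((![t, t + 1, cK i 0 + t, cK i 1 + t, cK i 2 + t, cK i 3 + t] : Fin 6 → Fin 3) a)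
        ((![t, t + 1, cK i 0 + t, cK i 1 + t, cK i 2 + t, cK i 3 + t] : Fin 6 → Fin 3) b)
        ((![t, t + 1, cK i 0 + t, cK i 1 + t, cK i 2 + t, cK i 3 + t] : Fin 6 → Fin 3) c) := by
  decide +kernel

section
variable {V : Type} [Fintype V] (E : V → V → V → ℕ) (g : V → Fin 3)

theorem card_pullS {k m : ℕ} (e : Fin m → Fin k) (he : Function.Injective e)
    (s : Finset (Fin k → V)) (t : Finset (Fin m → V)) (h : ∀ w ∈ s, w ∘ e ∈ t) :
    s.card ≤ t.card * Fintype.card V ^ (k - m) := by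
  have h1 : s.card ≤ (t ×ˢ (univ : Finset ({j : Fin k // j ∉ Set.range e} → V))).card := by
    refine card_le_card_of_injOn (fun w => (w ∘ e, fun j => w j.1)) ?_ ?_
    · intro w hw
      exact mem_coe.mpr (mem_product.mpr ⟨h w hw, mem_univ _⟩)
    · intro w _ w' _ h
      have ha := (Prod.mk.inj h).1
      have hb := (Prod.mk.inj h).2
      funext j
      by_cases hj : j ∈ Set.range e
      · obtain ⟨i, rfl⟩ := hj
        exact congrFun ha i
      · exact congrFun hb ⟨j, hj⟩
  refine h1.trans (le_of_eq ?_)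
  rw [card_product, card_univ (α := {j : Fin k // j ∉ Set.range e} → V), Fintype.card_fun]
  have h2 : Fintype.card {j : Fin k // j ∉ Set.range e} = k - m := by
    rw [Fintype.card_subtype_compl, Fintype.card_fin]
    have h3 : Fintype.card {j : Fin k // j ∈ Set.range e} = m :=
      (Fintype.card_congr (Equiv.ofInjective e he)).symm.trans (Fintype.card_fin m)
    rw [h3]
  rw [h2]

/-- number of pairs which violate the rule together with `v` -/
noncomputable def Dv (v : V) : ℕ :=
  ((univ : Finset (Fin 2 → V)).filter fun t =>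
    E (t 0) (t 1) v ≠ Rf (g (t 0)) (g (t 1)) (g v)).card

variable {E g}

theorem bad_eq_sum : bad E g ≤ ∑ v, Dv E g v := by
  unfold bad Dv
  rw [← card_sigma]
  refine card_le_card_of_injOn (fun t => ⟨t 2, ![t 0, t 1]⟩) ?_ ?_
  · intro t ht
    have ht' := (mem_filter.mp (mem_coe.mp ht)).2
    exact mem_coe.mpr (mem_sigma.mpr ⟨mem_univ _, mem_filter.mpr ⟨mem_univ _, ht'⟩⟩)
  · intro t _ t' _ h
    have h2 : t 2 = t' 2 := congrArg Sigma.fst h
    have h3 : (![t 0, t 1] : Fin 2 → V) = ![t' 0, t' 1] := by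
      have := (Sigma.mk.inj_iff.mp h).2
      exact eq_of_heq this
    funext j
    fin_cases j
    exacts [congrFun h3 0, congrFun h3 1, h2]

/-- the six vertices `x, y, w` -/
def X6v (x y : V) (w : Fin 4 → V) : Fin 6 → V := ![x, y, w 0, w 1, w 2, w 3]

omit [Fintype V] in
theorem viol_cases (hE : Sy E) {x y : V} {w : Fin 4 → V}
    (hx : ∀ j k : Fin 4, j < k → E (w j) (w k) x = Rf (g (w j)) (g (w k)) (g x))
    (hy : ∀ j k : Fin 4, j < k → E (w j) (w k) y = Rf (g (w j)) (g (w k)) (g y))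
    (hq : ∀ q : Fin 4, E (w (q.succAbove 0)) (w (q.succAbove 1)) (w (q.succAbove 2)) =
      Rf (g (w (q.succAbove 0))) (g (w (q.succAbove 1))) (g (w (q.succAbove 2)))) :
    ∀ a b c : Fin 6, a < b → b < c → ¬ (a = 0 ∧ b = 1) →
      E (X6v x y w a) (X6v x y w b) (X6v x y w c) =
        Rf (g (X6v x y w a)) (g (X6v x y w b)) (g (X6v x y w c)) := by
  have hx' : ∀ j k : Fin 4, j < k → E x (w j) (w k) = Rf (g x) (g (w j)) (g (w k)) := by
    intro j k hjk
    rw [← hE.h231 x (w j) (w k), hx j k hjk, Rf_sy.h231]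
  have hy' : ∀ j k : Fin 4, j < k → E y (w j) (w k) = Rf (g y) (g (w j)) (g (w k)) := by
    intro j k hjk
    rw [← hE.h231 y (w j) (w k), hy j k hjk, Rf_sy.h231]
  intro a b c hab hbc hne
  fin_cases a <;> fin_cases b <;> first
    | exact absurd hab (by decide)
    | exact absurd ⟨rfl, rfl⟩ hne
    | (fin_cases c <;> first
        | exact absurd hbc (by decide)
        | exact hx' 0 1 (by decide)
        | exact hx' 0 2 (by decide)
        | exact hx' 0 3 (by decide)
        | exact hx' 1 2 (by decide)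
        | exact hx' 1 3 (by decide)
        | exact hx' 2 3 (by decide)
        | exact hy' 0 1 (by decide)
        | exact hy' 0 2 (by decide)
        | exact hy' 0 3 (by decide)
        | exact hy' 1 2 (by decide)
        | exact hy' 1 3 (by decide)
        | exact hy' 2 3 (by decide)
        | exact hq 0
        | exact hq 1
        | exact hq 2
        | exact hq 3)

/-- four-tuples which violate the rule together with `x` and `y` -/
theorem card_viol (hE : Sy E) (x y : V) :
    ((univ : Finset (Fin 4 → V)).filter fun w => ¬ ∀ a b c : Fin 6, a < b → b < c →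
      ¬ (a = 0 ∧ b = 1) → E (X6v x y w a) (X6v x y w b) (X6v x y w c) =
        Rf (g (X6v x y w a)) (g (X6v x y w b)) (g (X6v x y w c))).card ≤
      6 * (Dv E g x * Fintype.card V ^ 2) + 6 * (Dv E g y * Fintype.card V ^ 2) +
        4 * (bad E g * Fintype.card V) := by
  let P : Finset (Fin 4 × Fin 4) := univ.filter fun p => p.1 < p.2
  have hP : P.card = 6 := by decide
  let F : V → Fin 4 × Fin 4 → Finset (Fin 4 → V) := fun x p =>
    univ.filter fun w => E (w p.1) (w p.2) x ≠ Rf (g (w p.1)) (g (w p.2)) (g x)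
  let G : Fin 4 → Finset (Fin 4 → V) := fun q =>
    univ.filter fun w => E (w (q.succAbove 0)) (w (q.succAbove 1)) (w (q.succAbove 2)) ≠
      Rf (g (w (q.succAbove 0))) (g (w (q.succAbove 1))) (g (w (q.succAbove 2)))
  have hF : ∀ x, ∀ p ∈ P, (F x p).card ≤ Dv E g x * Fintype.card V ^ 2 := by
    intro x p hp
    have hlt : p.1 < p.2 := (mem_filter.mp hp).2
    have he : Function.Injective ![p.1, p.2] := by
      intro i j h
      fin_cases i <;> fin_cases j
      · rfl
      · exact absurd h hlt.ne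
      · exact absurd h hlt.ne'
      · rfl
    refine card_pullS ![p.1, p.2] he (F x p) _ ?_
    intro w hw
    exact mem_filter.mpr ⟨mem_univ _, (mem_filter.mp hw).2⟩
  have hG : ∀ q, (G q).card ≤ bad E g * Fintype.card V := by
    intro q
    have h := card_pullS (V := V) q.succAbove (Fin.succAbove_right_injective) (G q)
      ((univ : Finset (Fin 3 → V)).filter fun t =>
        E (t 0) (t 1) (t 2) ≠ Rf (g (t 0)) (g (t 1)) (g (t 2)))
      (fun w hw => mem_filter.mpr ⟨mem_univ _, (mem_filter.mp hw).2⟩)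
    rw [show 4 - 3 = 1 from rfl, pow_one] at h
    exact h
  have hsub : ((univ : Finset (Fin 4 → V)).filter fun w => ¬ ∀ a b c : Fin 6, a < b → b < c →
      ¬ (a = 0 ∧ b = 1) → E (X6v x y w a) (X6v x y w b) (X6v x y w c) =
        Rf (g (X6v x y w a)) (g (X6v x y w b)) (g (X6v x y w c))) ⊆
      (P.biUnion (F x) ∪ P.biUnion (F y)) ∪ (univ : Finset (Fin 4)).biUnion G := by
    intro w hw
    have hw' := (mem_filter.mp hw).2
    by_contra hno
    rw [mem_union, mem_union, mem_biUnion, mem_biUnion, mem_biUnion] at hno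
    push Not at hno
    refine hw' (viol_cases hE ?_ ?_ ?_)
    · intro j k hjk
      by_contra h
      exact hno.1.1 (j, k) (mem_filter.mpr ⟨mem_univ _, hjk⟩) (mem_filter.mpr ⟨mem_univ _, h⟩)
    · intro j k hjk
      by_contra h
      exact hno.1.2 (j, k) (mem_filter.mpr ⟨mem_univ _, hjk⟩) (mem_filter.mpr ⟨mem_univ _, h⟩)
    · intro q
      by_contra h
      exact hno.2 q (mem_univ _) (mem_filter.mpr ⟨mem_univ _, h⟩)
  refine (card_le_card hsub).trans ((card_union_le _ _).trans (Nat.add_le_add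
    ((card_union_le _ _).trans (Nat.add_le_add ?_ ?_)) ?_))
  · refine card_biUnion_le.trans ((sum_le_sum (hF x)).trans ?_)
    rw [sum_const, hP, smul_eq_mul]
  · refine card_biUnion_le.trans ((sum_le_sum (hF y)).trans ?_)
    rw [sum_const, hP, smul_eq_mul]
  · refine card_biUnion_le.trans ((sum_le_sum fun q _ => hG q).trans ?_)
    rw [sum_const, card_univ, Fintype.card_fin, smul_eq_mul]

/-- few four-tuples extend `x, y` to a listed structure in a prescribed way -/
theorem no_config {i : Fin 5} (hC : Cls i E) {x y : V} {code m p : ℕ} (hm : m ∈ famM i)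
    (hiso : isoB code m p = true) (kol : Fin 6 → Fin 3) (hk0 : g x = kol 0) (hk1 : g y = kol 1)
    (hcode : ∀ a b c : Fin 6, a < b → b < c → ¬ (a = 0 ∧ b = 1) →
      bt code (ti a b c) = Rf (kol a) (kol b) (kol c))
    (S : Fin 4 → Finset V)
    (hS : ∀ (j : Fin 4), ∀ v ∈ S j, g v = kol (j.natAdd 2) ∧
      E x y v = bt code (ti 0 1 (j.natAdd 2))) :
    (∏ j, (S j).card) ≤ 6 * (Dv E g x * Fintype.card V ^ 2) +
      6 * (Dv E g y * Fintype.card V ^ 2) + 4 * (bad E g * Fintype.card V) := by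
  rw [← Fintype.card_piFinset]
  refine (card_le_card ?_).trans (card_viol hC.sy x y)
  intro w hw
  rw [Fintype.mem_piFinset] at hw
  refine mem_filter.mpr ⟨mem_univ _, fun hall => ?_⟩
  have hk : ∀ a : Fin 6, g (X6v x y w a) = kol a := by
    intro a
    fin_cases a
    exacts [hk0, hk1, (hS 0 _ (hw 0)).1, (hS 1 _ (hw 1)).1, (hS 2 _ (hw 2)).1, (hS 3 _ (hw 3)).1]
  have hcopy : Copy E code (X6v x y w) := by
    intro a b c hab hbc
    by_cases h01 : a = 0 ∧ b = 1
    · obtain ⟨rfl, rfl⟩ := h01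
      fin_cases c
      · exact absurd hbc (by decide)
      · exact absurd hbc (by decide)
      · exact (hS 0 _ (hw 0)).2
      · exact (hS 1 _ (hw 1)).2
      · exact (hS 2 _ (hw 2)).2
      · exact (hS 3 _ (hw 3)).2
    · rw [hall a b c hab hbc h01, hk, hk, hk, hcode a b c hab hbc h01]
  obtain ⟨h1, h2⟩ := copy_of_iso hC.sy hiso hcopy
  exact hC.nn (X6v x y w) ⟨gp p, h1, m, hm, h2⟩

end
end Pool.Agent.TH773.ST
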