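import Pool.Agent.TH773.ST.Exa

/-! The number of triples of Turán's construction. -/

set_option autoImplicit false
set_option maxRecDepth 100000
set_option maxHeartbeats 4000000
open Finset
open scoped Classical

namespace Pool.Agent.TH773.ST
open Pool.Agent.H122R2.N6 Pool.Agent.H37R3.Pen Pool.Agent.H37R3.Cop Pool.Agent.H37R3.CopL

/-- six times the number of triples of Turán's construction -/
def F6 (a b c : ℕ) : ℕ := 6 * (a * b * c) + 3 * (a * (a - 1) * b + b * (b - 1) * c + c * (c - 1) * a)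

theorem F6_P3 (a b c : ℕ) : F6 a b c + 3 * (a * b + b * c + c * a) = P3 a b c := by
  have key : ∀ x : ℕ, x * (x - 1) + x = x * x := by
    intro x
    rcases x with _ | x
    · rfl
    · rw [Nat.add_sub_cancel]; ring
  unfold F6 P3
  have h1 : a * (a - 1) * b + a * b = a * a * b := by rw [← key a]; ring
  have h2 : b * (b - 1) * c + b * c = b * b * c := by rw [← key b]; ring
  have h3 : c * (c - 1) * a + c * a = c * c * a := by rw [← key c]; ring
  omega

/-- the part of the maximum that depends on `n` modulo 3 -/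
theorem max_aux (a b c : ℤ) (ha : c ≤ a) (hb : c ≤ b) (hc : 0 ≤ c) (hn : 16 ≤ a + b + c) :
    (5 * (a + b + c) ^ 3 - 9 * (a + b + c) ^ 2 -
      9 * (6 * (a * b * c) + 3 * (a * a * b + b * b * c + c * c * a) - 3 * (a * b + b * c + c * a)) =
      (if a = c ∧ b = c then 0 else if a ≤ c + 1 ∧ b ≤ c + 1 ∧ (a = c ∨ b = c) then
        6 * (a + b + c) - 10 else 6 * (a + b + c) - 8) ∧ a ≤ c + 1 ∧ b ≤ c + 1) ∨
    (6 * (a + b + c) - 8 < 5 * (a + b + c) ^ 3 - 9 * (a + b + c) ^ 2 -
      9 * (6 * (a * b * c) + 3 * (a * a * b + b * b * c + c * c * a) - 3 * (a * b + b * c + c * a)) ∧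
      (c + 1 < a ∨ c + 1 < b)) := by
  obtain ⟨p, hp, rfl⟩ : ∃ p : ℤ, 0 ≤ p ∧ a = c + p := ⟨a - c, by omega, by ring⟩
  obtain ⟨q, hq, rfl⟩ : ∃ q : ℤ, 0 ≤ q ∧ b = c + q := ⟨b - c, by omega, by ring⟩
  by_cases h : p ≤ 1 ∧ q ≤ 1
  · left
    obtain ⟨h1, h2⟩ := h
    refine ⟨?_, by omega, by omega⟩
    have hp' : p = 0 ∨ p = 1 := by omega
    have hq' : q = 0 ∨ q = 1 := by omega
    rcases hp' with rfl | rfl <;> rcases hq' with rfl | rfl
    · rw [if_pos (by constructor <;> ring)]; ring
    · rw [if_neg (by intro h; omega), if_pos (by refine ⟨by omega, by omega, Or.inl (by ring)⟩)]; ring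
    · rw [if_neg (by intro h; omega), if_pos (by refine ⟨by omega, by omega, Or.inr (by ring)⟩)]; ring
    · rw [if_neg (by intro h; omega), if_neg (by intro h; omega)]; ring
  · right
    refine ⟨?_, by omega⟩
    set n := c + p + (c + q) + c with hn'
    have hw : 3 ≤ p ^ 2 - p * q + q ^ 2 := by
      rcases le_or_gt p 1 with h1 | h1
      · have h2 : 2 ≤ q := by
          by_contra h3
          exact h ⟨h1, by omega⟩
        nlinarith
      · rcases le_or_gt q 1 with h3 | h3
        · nlinarith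
        · rcases le_or_gt p q with h4 | h4
          · nlinarith
          · nlinarith
    -- `L = 18 c w + (5p³+5q³-12p²q+15pq²)`
    have e1 : 5 * n ^ 3 - 9 * n ^ 2 - 9 * (6 * ((c + p) * (c + q) * c) + 3 * ((c + p) * (c + p) * (c + q) +
        (c + q) * (c + q) * c + c * c * (c + p)) - 3 * ((c + p) * (c + q) + (c + q) * c + c * (c + p))) =
        18 * (c * (p ^ 2 - p * q + q ^ 2)) + (5 * p ^ 3 + 5 * q ^ 3 - 12 * p ^ 2 * q + 15 * p * q ^ 2) -
          9 * (p ^ 2 - p * q + q ^ 2) := by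
      rw [hn']; ring
    rw [e1]
    have e2 : 12 * (p + q) * (p ^ 2 - p * q + q ^ 2) = 12 * p ^ 3 + 12 * q ^ 3 := by ring
    have hcub : 0 ≤ 13 * p ^ 3 + 13 * q ^ 3 - 60 * p ^ 2 * q + 75 * p * q ^ 2 := by
      have : 13 * p ^ 3 + 13 * q ^ 3 - 60 * p ^ 2 * q + 75 * p * q ^ 2 =
        13 * (p * (p - 2 * q) ^ 2) - 8 * (p * (p * q)) + 23 * (p * q ^ 2) + 13 * q ^ 3 := by ring
      nlinarith [mul_nonneg hp (sq_nonneg (13 * p - 30 * q)), mul_nonneg hq (sq_nonneg (13 * p - 30 * q)),
        mul_nonneg hq (sq_nonneg q), mul_nonneg hp (sq_nonneg q), mul_nonneg hp (sq_nonneg (p - 2 * q)),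
        mul_nonneg hq (sq_nonneg (p - 2 * q))]
    -- `5 L ≥ 12 n w`
    have hL : 12 * n * (p ^ 2 - p * q + q ^ 2) ≤ 5 * (18 * (c * (p ^ 2 - p * q + q ^ 2)) +
        (5 * p ^ 3 + 5 * q ^ 3 - 12 * p ^ 2 * q + 15 * p * q ^ 2)) := by
      have e3 : 12 * n * (p ^ 2 - p * q + q ^ 2) = 36 * (c * (p ^ 2 - p * q + q ^ 2)) +
          (12 * p ^ 3 + 12 * q ^ 3) := by rw [hn']; ring
      have h5 : 0 ≤ c * (p ^ 2 - p * q + q ^ 2) := mul_nonneg hc (by linarith)
      rw [e3]; linarith
    have h6 : 0 ≤ (12 * n - 45) * (p ^ 2 - p * q + q ^ 2 - 3) :=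
      mul_nonneg (by linarith) (by linarith)
    nlinarith

/-- nine times the maximum -/
def val (n : ℕ) : ℤ := 5 * (n : ℤ) ^ 3 - 9 * (n : ℤ) ^ 2 -
  (if n % 3 = 0 then 0 else if n % 3 = 1 then 6 * (n : ℤ) - 10 else 6 * (n : ℤ) - 8)

/-- nearly equal sizes -/
def near (a b c : ℕ) : Prop := a ≤ b + 1 ∧ b ≤ a + 1 ∧ b ≤ c + 1 ∧ c ≤ b + 1 ∧ a ≤ c + 1 ∧ c ≤ a + 1

theorem F6_cast (a b c : ℕ) : (F6 a b c : ℤ) =
    6 * ((a : ℤ) * b * c) + 3 * ((a : ℤ) * a * b + b * b * c + c * c * a) -
      3 * ((a : ℤ) * b + b * c + c * a) := by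
  have h := F6_P3 a b c
  unfold P3 at h
  have h2 : (F6 a b c : ℤ) + 3 * ((a : ℤ) * b + b * c + c * a) =
    6 * ((a : ℤ) * b * c) + 3 * ((a : ℤ) * a * b + b * b * c + c * c * a) := by exact_mod_cast h
  linarith

theorem F6_cyc (a b c : ℕ) : F6 a b c = F6 b c a := by
  have h1 := F6_cast a b c
  have h2 := F6_cast b c a
  have h3 : (F6 a b c : ℤ) = F6 b c a := by rw [h1, h2]; ring
  exact_mod_cast h3

theorem F6_min (a b c : ℕ) (ha : c ≤ a) (hb : c ≤ b) (hn : 16 ≤ a + b + c) :
    (9 * (F6 a b c : ℤ) = val (a + b + c) ∧ near a b c) ∨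
      (9 * (F6 a b c : ℤ) < val (a + b + c) ∧ ¬ near a b c) := by
  have h := max_aux a b c (by exact_mod_cast ha) (by exact_mod_cast hb) (by positivity)
    (by exact_mod_cast hn)
  rw [← F6_cast] at h
  unfold val near
  push_cast
  rcases h with ⟨h1, h2, h3⟩ | ⟨h1, h2⟩
  · left
    refine ⟨?_, by omega⟩
    have ha' : a = c ∨ a = c + 1 := by omega
    have hb' : b = c ∨ b = c + 1 := by omega
    rcases ha' with rfl | rfl <;> rcases hb' with rfl | rfl
    · rw [if_pos (by omega)] at h1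
      rw [if_pos (by omega)]
      linarith
    · rw [if_neg (by omega), if_pos (by omega)] at h1
      rw [if_neg (by omega), if_pos (by omega)]
      linarith
    · rw [if_neg (by omega), if_pos (by omega)] at h1
      rw [if_neg (by omega), if_pos (by omega)]
      linarith
    · rw [if_neg (by omega), if_neg (by omega)] at h1
      rw [if_neg (by omega), if_neg (by omega)]
      linarith
  · right
    refine ⟨?_, by omega⟩
    have hn' : (16 : ℤ) ≤ (a : ℤ) + b + c := by exact_mod_cast hn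
    split_ifs <;> linarith

theorem near_cyc (a b c : ℕ) : near a b c ↔ near b c a := by
  unfold near
  omega

theorem F6_all (a b c : ℕ) (hn : 16 ≤ a + b + c) :
    (9 * (F6 a b c : ℤ) = val (a + b + c) ∧ near a b c) ∨
      (9 * (F6 a b c : ℤ) < val (a + b + c) ∧ ¬ near a b c) := by
  by_cases h1 : c ≤ a ∧ c ≤ b
  · exact F6_min a b c h1.1 h1.2 hn
  · by_cases h2 : a ≤ b ∧ a ≤ c
    · have h := F6_min b c a h2.1 h2.2 (by omega)
      rw [← F6_cyc, ← near_cyc, show b + c + a = a + b + c by ring] at h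
      exact h
    · have h := F6_min c a b (by omega) (by omega) (by omega)
      rw [← F6_cyc, ← F6_cyc, ← near_cyc, ← near_cyc, show c + a + b = a + b + c by ring] at h
      exact h

/-- the sizes of the nearly equal parts -/
theorem F6_le {a b c n : ℕ} (h : a + b + c = n) (hn : 16 ≤ n) :
    F6 a b c ≤ F6 ((n + 2) / 3) ((n + 1) / 3) (n / 3) ∧
      (F6 a b c = F6 ((n + 2) / 3) ((n + 1) / 3) (n / 3) ↔ near a b c) := by
  have h1 := F6_all a b c (by omega)
  have hs : (n + 2) / 3 + (n + 1) / 3 + n / 3 = n := by omega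
  have h2 := F6_all ((n + 2) / 3) ((n + 1) / 3) (n / 3) (by omega)
  have hnr : near ((n + 2) / 3) ((n + 1) / 3) (n / 3) := by unfold near; omega
  rw [hs] at h2
  rw [h] at h1
  rcases h2 with ⟨e2, -⟩ | ⟨-, e2⟩
  · rcases h1 with ⟨e1, m1⟩ | ⟨e1, m1⟩
    · have : F6 a b c = F6 ((n + 2) / 3) ((n + 1) / 3) (n / 3) := by
        have : (F6 a b c : ℤ) = F6 ((n + 2) / 3) ((n + 1) / 3) (n / 3) := by linarith
        exact_mod_cast this
      exact ⟨this.le, fun _ => m1, fun _ => this⟩
    · have : F6 a b c < F6 ((n + 2) / 3) ((n + 1) / 3) (n / 3) := by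
        have : (F6 a b c : ℤ) < F6 ((n + 2) / 3) ((n + 1) / 3) (n / 3) := by linarith
        exact_mod_cast this
      exact ⟨this.le, fun h => absurd h this.ne, fun h => absurd h m1⟩
  · exact absurd hnr e2

section
variable {V : Type} [Fintype V] {g : V → Fin 3}

theorem S3_Tg (g : V → Fin 3) : S3 (Tg g) = F6 (Pt g 0).card (Pt g 1).card (Pt g 2).card := by
  have h1 : S3 (fun x y z => Rf (g x) (g y) (g z)) = S3 (Tg g) +
      3 * ((Pt g 0).card * (Pt g 1).card + (Pt g 1).card * (Pt g 2).card +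
        (Pt g 2).card * (Pt g 0).card) := by
    let f : V → V → V → ℕ := fun x y z => if x = y then Rf (g x) (g x) (g z) else 0
    have hsplit : S3 (fun x y z => Rf (g x) (g y) (g z)) =
        S3 fun x y z => Tg g x y z + (f x y z + f y z x + f z x y) := by
      unfold S3
      refine sum_congr rfl fun x _ => sum_congr rfl fun y _ => sum_congr rfl fun z _ => ?_
      have hd : ∀ a : Fin 3, Rf a a a = 0 := by decide
      simp only [f]
      unfold Tg
      by_cases h1 : x = y
      · subst h1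
        rw [if_neg (fun h => h.1 rfl), if_pos rfl]
        by_cases h2 : x = z
        · subst h2
          rw [if_pos rfl, hd]
        · rw [if_neg h2, if_neg (Ne.symm h2)]
          omega
      · by_cases h2 : x = z
        · subst h2
          rw [if_neg (fun h => h.2.1 rfl), if_neg h1, if_neg (Ne.symm h1), if_pos rfl,
            Rf_sy.h132]
          omega
        · by_cases h3 : y = z
          · subst h3
            rw [if_neg (fun h => h.2.2 rfl), if_neg h1, if_pos rfl, if_neg (Ne.symm h2),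
              Rf_sy.h231 (g x) (g y) (g y)]
            omega
          · rw [if_pos ⟨h1, h2, h3⟩, if_neg h1, if_neg h3, if_neg (Ne.symm h2)]
            omega
    rw [hsplit, S3_add, S3_add, S3_add, S3_rot f, S3_rot2 f]
    have hf : S3 f = (Pt g 0).card * (Pt g 1).card + (Pt g 1).card * (Pt g 2).card +
        (Pt g 2).card * (Pt g 0).card := by
      have e1 : S3 f = ∑ x, ∑ z, Rf (g x) (g x) (g z) := by
        unfold S3
        refine sum_congr rfl fun x _ => ?_
        rw [sum_comm]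
        refine sum_congr rfl fun z _ => ?_
        simp only [f, sum_ite_eq, mem_univ, if_true]
      rw [e1]
      have e2 : ∀ a : Fin 3, ∑ z, Rf a a (g z) = (Pt g 0).card * Rf a a 0 +
          (Pt g 1).card * Rf a a 1 + (Pt g 2).card * Rf a a 2 := fun a => sum_colour g (Rf a a)
      simp only [e2]
      have e3 := sum_colour g fun a => (Pt g 0).card * Rf a a 0 + (Pt g 1).card * Rf a a 1 +
        (Pt g 2).card * Rf a a 2
      rw [e3]
      have r000 : Rf 0 0 0 = 0 := rfl
      have r001 : Rf 0 0 1 = 1 := rfl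
      have r002 : Rf 0 0 2 = 0 := rfl
      have r110 : Rf 1 1 0 = 0 := rfl
      have r111 : Rf 1 1 1 = 0 := rfl
      have r112 : Rf 1 1 2 = 1 := rfl
      have r220 : Rf 2 2 0 = 1 := rfl
      have r221 : Rf 2 2 1 = 0 := rfl
      have r222 : Rf 2 2 2 = 0 := rfl
      rw [r000, r001, r002, r110, r111, r112, r220, r221, r222]
      ring
    rw [hf]
    ring
  rw [S3_R, ← F6_P3] at h1
  omega

end

section
variable {n : ℕ}

theorem tri_turan (g : Fin n → Fin 3) (x y z : Fin n) : tri (Turan34.turan g) x y z = Tg g x y z := by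
  have hd : ∀ e ∈ Turan34.turan g, e.card = 3 := fun e he => turan_card he
  by_cases h : x ≠ y ∧ x ≠ z ∧ y ≠ z
  · rw [tri_ite]
    unfold Tg
    rw [if_pos h]
    by_cases h1 : Rf (g x) (g y) (g z) = 1
    · rw [if_pos ((mem_turan h.1 h.2.1 h.2.2).mpr h1), h1]
    · rw [if_neg (fun h2 => h1 ((mem_turan h.1 h.2.1 h.2.2).mp h2))]
      rcases Rf_sy.b (g x) (g y) (g z) with h3 | h3
      · exact h3.symm
      · exact absurd h3 h1
  · unfold Tg
    rw [if_neg h]
    by_contra hne
    have h1 : tri (Turan34.turan g) x y z = 1 := by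
      rcases (tri_sy (Turan34.turan g)).b x y z with h3 | h3
      · exact absurd h3 hne
      · exact h3
    exact h (by
      have h2 := tri_one.mp h1
      have := distinct_of_mem hd h2
      exact this)

end
end Pool.Agent.TH773.ST
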