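import Pool.Agent.TH773.ST.Loc

/-! Pairs of vertices with many extra edges. -/

set_option autoImplicit false
set_option maxRecDepth 100000
set_option maxHeartbeats 4000000
open Finset
open scoped Classical

namespace Pool.Agent.TH773.ST
open Pool.Agent.H122R2.N6 Pool.Agent.H37R3.Pen Pool.Agent.H37R3.Cop Pool.Agent.H37R3.CopL

section
variable {V : Type} [Fintype V] (E : V → V → V → ℕ) (g : V → Fin 3)

/-- Turán's construction as an indicator function -/
noncomputable def Tg (x y z : V) : ℕ :=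
  if x ≠ y ∧ x ≠ z ∧ y ≠ z then Rf (g x) (g y) (g z) else 0

/-- third vertices of extra edges -/
noncomputable def Bs (x y : V) : Finset V := univ.filter fun z => E x y z = 1 ∧ Tg g x y z = 0
/-- third vertices of missing edges -/
noncomputable def Ms (x y : V) : Finset V := univ.filter fun z => E x y z = 0 ∧ Tg g x y z = 1

/-- the vertices of colour `k` with value `v` -/
noncomputable def Q (x y : V) (k : Fin 3) (v : ℕ) : Finset V :=
  univ.filter fun w => g w = k ∧ E x y w = v

noncomputable def Pt (k : Fin 3) : Finset V := univ.filter fun w => g w = k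

/-- the local conditions -/
structure Loc : Prop where
  hn : 10 ^ 4 ≤ Fintype.card V
  hD : ∀ v, 10 ^ 9 * Dv E g v ≤ Fintype.card V ^ 2
  lo : ∀ k, 3 * Fintype.card V ≤ 10 * (Pt g k).card
  hi : ∀ k, 10 * (Pt g k).card ≤ 4 * Fintype.card V

variable {E g}

theorem Q_add (hE : Sy E) (x y : V) (k : Fin 3) :
    (Q E g x y k 0).card + (Q E g x y k 1).card = (Pt g k).card := by
  rw [← card_union_of_disjoint]
  · congr 1
    ext w
    unfold Q Pt
    simp only [mem_union, mem_filter, mem_univ, true_and]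
    rcases hE.b x y w with h | h <;> simp [h]
  · rw [disjoint_left]
    intro w h1 h2
    have h1' := (mem_filter.mp h1).2.2
    have h2' := (mem_filter.mp h2).2.2
    omega

omit [Fintype V] in
theorem dist_of_one (hE : Sy E) (hd : ∀ a b, E a a b = 0) {x y z : V} (h : E x y z = 1) :
    x ≠ y ∧ x ≠ z ∧ y ≠ z := by
  refine ⟨?_, ?_, ?_⟩
  · rintro rfl
    rw [hd] at h; exact absurd h (by decide)
  · rintro rfl
    rw [hE.h132, hd] at h; exact absurd h (by decide)
  · rintro rfl
    rw [← hE.h231, hd] at h; exact absurd h (by decide)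

/-- two sets of vertices which would give `K_4^3` -/
theorem pb (hE : Sy E) (hK : NoK4 E) {x y : V} (A B : Finset V) (hA : ∀ a ∈ A, E x y a = 1)
    (hB : ∀ b ∈ B, E x y b = 1)
    (hr : ∀ a ∈ A, ∀ b ∈ B, Rf (g a) (g b) (g x) = 1 ∧ Rf (g a) (g b) (g y) = 1) :
    A.card * B.card ≤ Dv E g x + Dv E g y := by
  rw [← card_product]
  unfold Dv
  refine le_trans ?_ (card_union_le _ _)
  refine card_le_card_of_injOn (fun p => ![p.1, p.2]) ?_ ?_
  · intro p hp
    have hp' := mem_product.mp (mem_coe.mp hp)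
    rw [mem_coe, mem_union, mem_filter, mem_filter]
    by_contra hno
    push Not at hno
    have h1 := hno.1 (mem_univ _)
    have h2 := hno.2 (mem_univ _)
    have h1' : E p.1 p.2 x = Rf (g p.1) (g p.2) (g x) := h1
    have h2' : E p.1 p.2 y = Rf (g p.1) (g p.2) (g y) := h2
    rw [(hr p.1 hp'.1 p.2 hp'.2).1] at h1'
    rw [(hr p.1 hp'.1 p.2 hp'.2).2] at h2'
    have h3 := hK x y p.1 p.2
    rw [hA _ hp'.1, hB _ hp'.2, ← hE.h231 x p.1 p.2, ← hE.h231 y p.1 p.2, h1', h2'] at h3
    exact absurd h3 (by decide)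
  · rintro ⟨a, b⟩ _ ⟨a', b'⟩ _ h
    have h0 : a = a' := congrFun h 0
    have h1 : b = b' := congrFun h 1
    rw [h0, h1]

theorem Dv_two (hL : Loc E g) (x y : V) :
    10 ^ 9 * (Dv E g x + Dv E g y) ≤ 2 * Fintype.card V ^ 2 := by
  have h1 := hL.hD x
  have h2 := hL.hD y
  omega

/-- a product bound -/
theorem small_of_prod {n a b D p q : ℕ} (hn : 0 < n) (h : a * b ≤ D) (hD : 10 ^ 9 * D ≤ 2 * n ^ 2)
    (ha : n ≤ p * a) (hpq : p * q ≤ 10 ^ 8) : q * b ≤ n := by
  by_contra hb
  push Not at hb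
  have h1 : n * n ≤ (p * a) * (q * b) := Nat.mul_le_mul ha hb.le
  have h2 : (p * a) * (q * b) = (p * q) * (a * b) := by ring
  have h3 : (p * q) * (a * b) ≤ 10 ^ 8 * D := Nat.mul_le_mul hpq h
  have h4 : n ^ 2 = n * n := by ring
  have h5 : 0 < n * n := Nat.mul_pos hn hn
  rw [h4] at hD
  omega

theorem Rf_s0 : ∀ t k : Fin 3, Rf t t k = 0 → k = t ∨ k = t + 2 := by decide
theorem Rf_c0 : ∀ t k : Fin 3, Rf t (t + 1) k = 0 → k = t + 1 := by decide
theorem Rf_1 : ∀ t : Fin 3, Rf (t + 2) (t + 2) t = 1 := by decide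
theorem Rf_2 : ∀ t : Fin 3, Rf t (t + 1) t = 1 := by decide
theorem Rf_3 : ∀ t : Fin 3, Rf (t + 1) (t + 2) t = 1 ∧ Rf (t + 1) (t + 2) (t + 1) = 1 := by decide
theorem Rf_4 : ∀ t : Fin 3, Rf t (t + 1) (t + 2) = 1 := by decide

theorem n1 : ∀ t : Fin 3, t ≠ t + 1 := by decide
theorem n2 : ∀ t : Fin 3, t ≠ t + 2 := by decide
theorem n3 : ∀ t : Fin 3, t + 1 ≠ t + 2 := by decide

theorem viol_small (hL : Loc E g) (x y : V) :
    10 ^ 9 * (6 * (Dv E g x * Fintype.card V ^ 2) + 6 * (Dv E g y * Fintype.card V ^ 2) +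
      4 * (bad E g * Fintype.card V)) ≤ 16 * Fintype.card V ^ 4 := by
  have h1 : 10 ^ 9 * bad E g ≤ Fintype.card V ^ 3 := by
    calc 10 ^ 9 * bad E g ≤ 10 ^ 9 * ∑ v, Dv E g v := Nat.mul_le_mul_left _ bad_eq_sum
      _ = ∑ v, 10 ^ 9 * Dv E g v := by rw [mul_sum]
      _ ≤ ∑ _v : V, Fintype.card V ^ 2 := sum_le_sum fun v _ => hL.hD v
      _ = Fintype.card V ^ 3 := by
        rw [sum_const, card_univ, smul_eq_mul]; ring
  have h2 := Nat.mul_le_mul_right (Fintype.card V ^ 2) (hL.hD x)
  have h3 := Nat.mul_le_mul_right (Fintype.card V ^ 2) (hL.hD y)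
  have h4 := Nat.mul_le_mul_right (Fintype.card V) h1
  have e1 : Fintype.card V ^ 2 * Fintype.card V ^ 2 = Fintype.card V ^ 4 := by ring
  have e2 : Fintype.card V ^ 3 * Fintype.card V = Fintype.card V ^ 4 := by ring
  rw [e1, mul_assoc] at h2 h3
  rw [e2, mul_assoc] at h4
  omega

/-- pairs in a part are in few extra edges -/
theorem same_light {i : Fin 5} (hC : Cls i E) (hL : Loc E g) {x y : V} (hxy : g y = g x) :
    100 * (Bs E g x y).card < Fintype.card V := by
  by_contra hno
  push Not at hno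
  have hE := hC.sy
  set t := g x with ht
  set n := Fintype.card V with hn
  have hn4 := hL.hn
  rw [← hn] at hn4
  have hn0 : 0 < n := by omega
  have hD := Dv_two hL x y
  have hsub : Bs E g x y ⊆ Q E g x y t 1 ∪ Q E g x y (t + 2) 1 := by
    intro z hz
    obtain ⟨h1, h2⟩ := (mem_filter.mp hz).2
    have hd := dist_of_one hE hC.dg h1
    unfold Tg at h2
    rw [if_pos hd, hxy] at h2
    rw [mem_union]
    rcases Rf_s0 _ _ h2 with h3 | h3
    · left; exact mem_filter.mpr ⟨mem_univ _, h3, h1⟩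
    · right; exact mem_filter.mpr ⟨mem_univ _, h3, h1⟩
  have hc1 := (card_le_card hsub).trans (card_union_le _ _)
  -- the part `t + 2`
  have h2 : 200 * (Q E g x y (t + 2) 1).card < n := by
    by_contra h
    push Not at h
    have hpb := pb (g := g) hE hC.k4 (x := x) (y := y) (Q E g x y (t + 2) 1) (Q E g x y (t + 2) 1)
      (fun a ha => (mem_filter.mp ha).2.2) (fun a ha => (mem_filter.mp ha).2.2) (by
        intro a ha b hb
        rw [(mem_filter.mp ha).2.1, (mem_filter.mp hb).2.1, hxy, ← ht]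
        exact ⟨Rf_1 t, Rf_1 t⟩)
    have := small_of_prod hn0 hpb hD h (q := 300) (by norm_num)
    omega
  have h0 : n ≤ 200 * (Q E g x y t 1).card := by omega
  have h1 : 1000 * (Q E g x y (t + 1) 1).card ≤ n := by
    have hpb := pb (g := g) hE hC.k4 (x := x) (y := y) (Q E g x y t 1) (Q E g x y (t + 1) 1)
      (fun a ha => (mem_filter.mp ha).2.2) (fun a ha => (mem_filter.mp ha).2.2) (by
        intro a ha b hb
        rw [(mem_filter.mp ha).2.1, (mem_filter.mp hb).2.1, hxy, ← ht]
        exact ⟨Rf_2 t, Rf_2 t⟩)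
    exact small_of_prod hn0 hpb hD h0 (by norm_num)
  have q1 := Q_add (g := g) hE x y (t + 1)
  have q2 := Q_add (g := g) hE x y (t + 2)
  have l1 := hL.lo (t + 1)
  have l2 := hL.lo (t + 2)
  rw [← hn] at l1 l2
  have s1 : 29 * n ≤ 100 * (Q E g x y (t + 1) 0).card := by omega
  have s2 : 29 * n ≤ 100 * (Q E g x y (t + 2) 0).card := by omega
  have hnc := no_config (g := g) hC (x := x) (y := y) (sC_mem i) (sC_iso i)
    ![t, t, sK i 0 + t, sK i 1 + t, sK i 2 + t, sK i 3 + t] ht.symm hxy
    (fun a b c hab hbc hne => by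
      have := s_chk i t a b c hab hbc
      rw [if_neg hne] at this
      exact this)
    (fun j => Q E g x y (sK i j + t) (sV i j)) (by
      intro j v hv
      have hv' := (mem_filter.mp hv).2
      have h01 : ∀ c : Fin 6, 1 < c → bt (sC i).1 (ti 0 1 c) =
          (![9, 9, sV i 0, sV i 1, sV i 2, sV i 3] : Fin 6 → ℕ) c := by
        intro c hc
        have := s_chk i t 0 1 c (by decide) hc
        rw [if_pos ⟨rfl, rfl⟩] at this
        exact this
      rw [hv'.1, hv'.2]
      fin_cases j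
      · exact ⟨rfl, (h01 2 (by decide)).symm⟩
      · exact ⟨rfl, (h01 3 (by decide)).symm⟩
      · exact ⟨rfl, (h01 4 (by decide)).symm⟩
      · exact ⟨rfl, (h01 5 (by decide)).symm⟩)
  have hvs := viol_small hL x y
  have hbig : n * (29 * n) * (29 * n) * (29 * n) ≤
      (200 * 1000000) * ∏ j, (Q E g x y (sK i j + t) (sV i j)).card := by
    rw [Fin.prod_univ_four]
    have key : ∀ a b c d : ℕ, n ≤ 200 * a → 29 * n ≤ 100 * b → 29 * n ≤ 100 * c →
        29 * n ≤ 100 * d → n * (29 * n) * (29 * n) * (29 * n) ≤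
          (200 * 1000000) * (a * b * c * d) := by
      intro a b c d ha hb hc hd
      calc n * (29 * n) * (29 * n) * (29 * n) ≤ (200 * a) * (100 * b) * (100 * c) * (100 * d) :=
            Nat.mul_le_mul (Nat.mul_le_mul (Nat.mul_le_mul ha hb) hc) hd
        _ = (200 * 1000000) * (a * b * c * d) := by ring
    have e0 : (0 : Fin 3) + t = t := zero_add t
    have e1 : (1 : Fin 3) + t = t + 1 := add_comm _ _
    have e2 : (2 : Fin 3) + t = t + 2 := add_comm _ _
    fin_cases i
    · refine key _ _ _ _ ?_ ?_ ?_ ?_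
      · change n ≤ 200 * (Q E g x y (0 + t) 1).card; rw [e0]; exact h0
      · change 29 * n ≤ 100 * (Q E g x y (1 + t) 0).card; rw [e1]; exact s1
      · change 29 * n ≤ 100 * (Q E g x y (1 + t) 0).card; rw [e1]; exact s1
      · change 29 * n ≤ 100 * (Q E g x y (2 + t) 0).card; rw [e2]; exact s2
    · refine key _ _ _ _ ?_ ?_ ?_ ?_
      · change n ≤ 200 * (Q E g x y (0 + t) 1).card; rw [e0]; exact h0
      · change 29 * n ≤ 100 * (Q E g x y (1 + t) 0).card; rw [e1]; exact s1
      · change 29 * n ≤ 100 * (Q E g x y (1 + t) 0).card; rw [e1]; exact s1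
      · change 29 * n ≤ 100 * (Q E g x y (2 + t) 0).card; rw [e2]; exact s2
    · refine key _ _ _ _ ?_ ?_ ?_ ?_
      · change n ≤ 200 * (Q E g x y (0 + t) 1).card; rw [e0]; exact h0
      · change 29 * n ≤ 100 * (Q E g x y (1 + t) 0).card; rw [e1]; exact s1
      · change 29 * n ≤ 100 * (Q E g x y (2 + t) 0).card; rw [e2]; exact s2
      · change 29 * n ≤ 100 * (Q E g x y (2 + t) 0).card; rw [e2]; exact s2
    · refine key _ _ _ _ ?_ ?_ ?_ ?_
      · change n ≤ 200 * (Q E g x y (0 + t) 1).card; rw [e0]; exact h0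
      · change 29 * n ≤ 100 * (Q E g x y (1 + t) 0).card; rw [e1]; exact s1
      · change 29 * n ≤ 100 * (Q E g x y (1 + t) 0).card; rw [e1]; exact s1
      · change 29 * n ≤ 100 * (Q E g x y (2 + t) 0).card; rw [e2]; exact s2
    · refine key _ _ _ _ ?_ ?_ ?_ ?_
      · change n ≤ 200 * (Q E g x y (0 + t) 1).card; rw [e0]; exact h0
      · change 29 * n ≤ 100 * (Q E g x y (2 + t) 0).card; rw [e2]; exact s2
      · change 29 * n ≤ 100 * (Q E g x y (2 + t) 0).card; rw [e2]; exact s2
      · change 29 * n ≤ 100 * (Q E g x y (2 + t) 0).card; rw [e2]; exact s2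
  have e4 : n * (29 * n) * (29 * n) * (29 * n) = 24389 * n ^ 4 := by ring
  rw [e4] at hbig
  have hp4 : 0 < n ^ 4 := by positivity
  have hfin := (Nat.mul_le_mul_left (10 ^ 9) hnc).trans hvs
  beta_reduce at hfin
  rw [← hn] at hfin
  generalize (∏ j, (Q E g x y (sK i j + t) (sV i j)).card) = P at hbig hfin
  generalize n ^ 4 = W at hbig hfin hp4
  omega

/-- pairs in consecutive parts which are in many extra edges are in few edges at all -/
theorem cross_heavy {i : Fin 5} (hC : Cls i E) (hL : Loc E g) {x y : V} (hxy : g y = g x + 1)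
    (hh : Fintype.card V ≤ 100 * (Bs E g x y).card) :
    58 * Fintype.card V ≤ 100 * (Ms E g x y).card ∧ 10 * (Bs E g x y).card ≤ 4 * Fintype.card V := by
  have hE := hC.sy
  set t := g x with ht
  set n := Fintype.card V with hn
  have hn4 := hL.hn
  rw [← hn] at hn4
  have hn0 : 0 < n := by omega
  have hD := Dv_two hL x y
  have hsub : Bs E g x y ⊆ Q E g x y (t + 1) 1 := by
    intro z hz
    obtain ⟨h1, h2⟩ := (mem_filter.mp hz).2
    have hd := dist_of_one hE hC.dg h1
    unfold Tg at h2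
    rw [if_pos hd, hxy, ← ht] at h2
    exact mem_filter.mpr ⟨mem_univ _, Rf_c0 _ _ h2, h1⟩
  have hc1 := card_le_card hsub
  have q0 := Q_add (g := g) hE x y t
  have q1 := Q_add (g := g) hE x y (t + 1)
  have q2 := Q_add (g := g) hE x y (t + 2)
  have l0 := hL.lo t
  have l2 := hL.lo (t + 2)
  have u1 := hL.hi (t + 1)
  rw [← hn] at l0 l2 u1
  have h1 : n ≤ 100 * (Q E g x y (t + 1) 1).card := by omega
  have h2 : 1000 * (Q E g x y (t + 2) 1).card ≤ n := by
    have hpb := pb (g := g) hE hC.k4 (x := x) (y := y) (Q E g x y (t + 1) 1) (Q E g x y (t + 2) 1)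
      (fun a ha => (mem_filter.mp ha).2.2) (fun a ha => (mem_filter.mp ha).2.2) (by
        intro a ha b hb
        rw [(mem_filter.mp ha).2.1, (mem_filter.mp hb).2.1, hxy, ← ht]
        exact Rf_3 t)
    exact small_of_prod hn0 hpb hD h1 (by norm_num)
  have s2 : 29 * n ≤ 100 * (Q E g x y (t + 2) 0).card := by omega
  have h0 : 100 * (Q E g x y t 1).card < n := by
    by_contra h
    push Not at h
    have hnc := no_config (g := g) hC (x := x) (y := y) (cC_mem i) (cC_iso i)
      ![t, t + 1, cK i 0 + t, cK i 1 + t, cK i 2 + t, cK i 3 + t] ht.symm hxy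
      (fun a b c hab hbc hne => by
        have := c_chk i t a b c hab hbc
        rw [if_neg hne] at this
        exact this)
      (fun j => Q E g x y (cK i j + t) (cV i j)) (by
        intro j v hv
        have hv' := (mem_filter.mp hv).2
        have h01 : ∀ c : Fin 6, 1 < c → bt (cC i).1 (ti 0 1 c) =
            (![9, 9, cV i 0, cV i 1, cV i 2, cV i 3] : Fin 6 → ℕ) c := by
          intro c hc
          have := c_chk i t 0 1 c (by decide) hc
          rw [if_pos ⟨rfl, rfl⟩] at this
          exact this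
        rw [hv'.1, hv'.2]
        fin_cases j
        · exact ⟨rfl, (h01 2 (by decide)).symm⟩
        · exact ⟨rfl, (h01 3 (by decide)).symm⟩
        · exact ⟨rfl, (h01 4 (by decide)).symm⟩
        · exact ⟨rfl, (h01 5 (by decide)).symm⟩)
    have hvs := viol_small hL x y
    have hbig : n * n * n * (29 * n) ≤
        100000000 * ∏ j, (Q E g x y (cK i j + t) (cV i j)).card := by
      rw [Fin.prod_univ_four]
      have key : ∀ a b c d : ℕ, n ≤ 100 * a → n ≤ 100 * b → n ≤ 100 * c →
          29 * n ≤ 100 * d → n * n * n * (29 * n) ≤ 100000000 * (a * b * c * d) := by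
        intro a b c d ha hb hc hd
        calc n * n * n * (29 * n) ≤ (100 * a) * (100 * b) * (100 * c) * (100 * d) :=
              Nat.mul_le_mul (Nat.mul_le_mul (Nat.mul_le_mul ha hb) hc) hd
          _ = 100000000 * (a * b * c * d) := by ring
      have e0 : (0 : Fin 3) + t = t := zero_add t
      have e1 : (1 : Fin 3) + t = t + 1 := add_comm _ _
      have e2 : (2 : Fin 3) + t = t + 2 := add_comm _ _
      have s2' : n ≤ 100 * (Q E g x y (t + 2) 0).card := by omega
      fin_cases i
      · refine key _ _ _ _ ?_ ?_ ?_ ?_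
        · change n ≤ 100 * (Q E g x y (0 + t) 1).card; rw [e0]; exact h
        · change n ≤ 100 * (Q E g x y (1 + t) 1).card; rw [e1]; exact h1
        · change n ≤ 100 * (Q E g x y (2 + t) 0).card; rw [e2]; exact s2'
        · change 29 * n ≤ 100 * (Q E g x y (2 + t) 0).card; rw [e2]; exact s2
      · refine key _ _ _ _ ?_ ?_ ?_ ?_
        · change n ≤ 100 * (Q E g x y (0 + t) 1).card; rw [e0]; exact h
        · change n ≤ 100 * (Q E g x y (1 + t) 1).card; rw [e1]; exact h1
        · change n ≤ 100 * (Q E g x y (1 + t) 1).card; rw [e1]; exact h1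
        · change 29 * n ≤ 100 * (Q E g x y (2 + t) 0).card; rw [e2]; exact s2
      · refine key _ _ _ _ ?_ ?_ ?_ ?_
        · change n ≤ 100 * (Q E g x y (0 + t) 1).card; rw [e0]; exact h
        · change n ≤ 100 * (Q E g x y (1 + t) 1).card; rw [e1]; exact h1
        · change n ≤ 100 * (Q E g x y (2 + t) 0).card; rw [e2]; exact s2'
        · change 29 * n ≤ 100 * (Q E g x y (2 + t) 0).card; rw [e2]; exact s2
      · refine key _ _ _ _ ?_ ?_ ?_ ?_
        · change n ≤ 100 * (Q E g x y (0 + t) 1).card; rw [e0]; exact h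
        · change n ≤ 100 * (Q E g x y (0 + t) 1).card; rw [e0]; exact h
        · change n ≤ 100 * (Q E g x y (2 + t) 0).card; rw [e2]; exact s2'
        · change 29 * n ≤ 100 * (Q E g x y (2 + t) 0).card; rw [e2]; exact s2
      · refine key _ _ _ _ ?_ ?_ ?_ ?_
        · change n ≤ 100 * (Q E g x y (0 + t) 1).card; rw [e0]; exact h
        · change n ≤ 100 * (Q E g x y (2 + t) 0).card; rw [e2]; exact s2'
        · change n ≤ 100 * (Q E g x y (2 + t) 0).card; rw [e2]; exact s2'
        · change 29 * n ≤ 100 * (Q E g x y (2 + t) 0).card; rw [e2]; exact s2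
    have e4 : n * n * n * (29 * n) = 29 * n ^ 4 := by ring
    rw [e4] at hbig
    have hp4 : 0 < n ^ 4 := by positivity
    have hfin := (Nat.mul_le_mul_left (10 ^ 9) hnc).trans hvs
    beta_reduce at hfin
    rw [← hn] at hfin
    generalize (∏ j, (Q E g x y (cK i j + t) (cV i j)).card) = P at hbig hfin
    generalize n ^ 4 = W at hbig hfin hp4
    omega
  refine ⟨?_, by omega⟩
  have hM : (Q E g x y t 0).erase x ∪ Q E g x y (t + 2) 0 ⊆ Ms E g x y := by
    intro w hw
    rw [mem_union, mem_erase] at hw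
    have hne : x ≠ y := by
      rintro rfl
      exact n1 t (ht.trans hxy)
    rcases hw with ⟨hwx, hw⟩ | hw
    · obtain ⟨h1, h2⟩ := (mem_filter.mp hw).2
      refine mem_filter.mpr ⟨mem_univ _, h2, ?_⟩
      have hwy : y ≠ w := by
        rintro rfl
        exact n1 t (h1.symm.trans hxy)
      unfold Tg
      rw [if_pos ⟨hne, Ne.symm hwx, hwy⟩, hxy, h1, ← ht]
      exact Rf_2 t
    · obtain ⟨h1, h2⟩ := (mem_filter.mp hw).2
      refine mem_filter.mpr ⟨mem_univ _, h2, ?_⟩
      have hwx : x ≠ w := by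
        rintro rfl
        exact n2 t (ht.trans h1)
      have hwy : y ≠ w := by
        rintro rfl
        exact n3 t (hxy.symm.trans h1)
      unfold Tg
      rw [if_pos ⟨hne, hwx, hwy⟩, hxy, h1, ← ht]
      exact Rf_4 t
  have hdis : Disjoint ((Q E g x y t 0).erase x) (Q E g x y (t + 2) 0) := by
    rw [disjoint_left]
    intro w h1 h2
    have h1' := (mem_filter.mp (mem_of_mem_erase h1)).2.1
    have h2' := (mem_filter.mp h2).2.1
    exact n2 t (h1'.symm.trans h2')
  have hcM := card_le_card hM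
  rw [card_union_of_disjoint hdis] at hcM
  have he := pred_card_le_card_erase (s := Q E g x y t 0) (a := x)
  omega

theorem Bs_comm (hE : Sy E) (x y : V) : Bs E g x y = Bs E g y x := by
  unfold Bs
  ext z
  simp only [mem_filter, mem_univ, true_and]
  rw [← hE.h213 x y z]
  have : Tg g x y z = Tg g y x z := by
    unfold Tg
    rw [← Rf_sy.h213 (g x) (g y) (g z)]
    by_cases h : x ≠ y ∧ x ≠ z ∧ y ≠ z
    · rw [if_pos h, if_pos ⟨h.1.symm, h.2.2, h.2.1⟩]
    · rw [if_neg h, if_neg (fun h' => h ⟨h'.1.symm, h'.2.2, h'.2.1⟩)]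
  rw [this]

theorem Ms_comm (hE : Sy E) (x y : V) : Ms E g x y = Ms E g y x := by
  unfold Ms
  ext z
  simp only [mem_filter, mem_univ, true_and]
  rw [← hE.h213 x y z]
  have : Tg g x y z = Tg g y x z := by
    unfold Tg
    rw [← Rf_sy.h213 (g x) (g y) (g z)]
    by_cases h : x ≠ y ∧ x ≠ z ∧ y ≠ z
    · rw [if_pos h, if_pos ⟨h.1.symm, h.2.2, h.2.1⟩]
    · rw [if_neg h, if_neg (fun h' => h ⟨h'.1.symm, h'.2.2, h'.2.1⟩)]
  rw [this]

theorem three (a b : Fin 3) : b = a ∨ b = a + 1 ∨ a = b + 1 := by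
  revert a b; decide

/-- pairs in many extra edges are in many missing edges -/
theorem heavy {i : Fin 5} (hC : Cls i E) (hL : Loc E g) {x y : V}
    (hh : Fintype.card V ≤ 100 * (Bs E g x y).card) :
    58 * Fintype.card V ≤ 100 * (Ms E g x y).card ∧ 10 * (Bs E g x y).card ≤ 4 * Fintype.card V := by
  rcases three (g x) (g y) with h | h | h
  · have := same_light hC hL h
    omega
  · exact cross_heavy hC hL h hh
  · rw [Bs_comm hC.sy x y] at hh
    have := cross_heavy hC hL h hh
    rw [Bs_comm hC.sy x y, Ms_comm hC.sy x y]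
    exact this

end
end Pool.Agent.TH773.ST
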