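import Pool.Agent.TH773.ST.Cmp

/-! Sizes of the parts, and Turán's construction in the classes. -/

set_option autoImplicit false
set_option maxRecDepth 100000
set_option maxHeartbeats 4000000
open Finset
open scoped Classical

namespace Pool.Agent.TH773.ST
open Pool.Agent.H122R2.N6 Pool.Agent.H37R3.Pen Pool.Agent.H37R3.Cop Pool.Agent.H37R3.CopL

/-- six times the number of triples for parts of sizes `a`, `b`, `c` -/
def P3 (a b c : ℕ) : ℕ := 6 * (a * b * c) + 3 * (a * a * b + b * b * c + c * c * a)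

theorem poly_aux (a b c : ℤ) (ha : c ≤ a) (hb : c ≤ b) (hc : 0 ≤ c) :
    (a + b + c) * ((a - b) ^ 2 + (b - c) ^ 2 + (c - a) ^ 2) ≤
      5 * (a + b + c) ^ 3 - 9 * (6 * (a * b * c) + 3 * (a * a * b + b * b * c + c * c * a)) := by
  obtain ⟨p, hp, rfl⟩ : ∃ p : ℤ, 0 ≤ p ∧ a = c + p := ⟨a - c, by omega, by ring⟩
  obtain ⟨q, hq, rfl⟩ : ∃ q : ℤ, 0 ≤ q ∧ b = c + q := ⟨b - c, by omega, by ring⟩
  have h1 : 0 ≤ 12 * (c * (p ^ 2 - p * q + q ^ 2)) + 3 * (p * (p - 2 * q) ^ 2 + p * q ^ 2 + q ^ 3) := by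
    have h2 : 0 ≤ p ^ 2 - p * q + q ^ 2 := by nlinarith [sq_nonneg (p - q), mul_nonneg hp hq]
    positivity
  have h3 : 5 * (c + p + (c + q) + c) ^ 3 - 9 * (6 * ((c + p) * (c + q) * c) +
      3 * ((c + p) * (c + p) * (c + q) + (c + q) * (c + q) * c + c * c * (c + p))) -
      (c + p + (c + q) + c) * ((c + p - (c + q)) ^ 2 + (c + q - c) ^ 2 + (c - (c + p)) ^ 2) =
      12 * (c * (p ^ 2 - p * q + q ^ 2)) + 3 * (p * (p - 2 * q) ^ 2 + p * q ^ 2 + q ^ 3) := by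
    ring
  linarith

theorem poly (a b c : ℤ) (ha : 0 ≤ a) (hb : 0 ≤ b) (hc : 0 ≤ c) :
    (a + b + c) * ((a - b) ^ 2 + (b - c) ^ 2 + (c - a) ^ 2) ≤
      5 * (a + b + c) ^ 3 - 9 * (6 * (a * b * c) + 3 * (a * a * b + b * b * c + c * c * a)) := by
  by_cases h1 : c ≤ a ∧ c ≤ b
  · exact poly_aux a b c h1.1 h1.2 hc
  · by_cases h2 : a ≤ b ∧ a ≤ c
    · have := poly_aux b c a h2.1 h2.2 ha
      linarith
    · have := poly_aux c a b (by omega) (by omega) hb
      linarith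

theorem part_sizes {n a b c : ℕ} (hs : a + b + c = n) (hn : 0 < n)
    (h : 10 ^ 7 * (5 * n ^ 3) ≤ 10 ^ 7 * (9 * P3 a b c) + n ^ 3) :
    3 * n ≤ 10 * a ∧ 10 * a ≤ 4 * n ∧ 3 * n ≤ 10 * b ∧ 10 * b ≤ 4 * n ∧ 3 * n ≤ 10 * c ∧
      10 * c ≤ 4 * n := by
  have h1 := poly (a : ℤ) b c (by positivity) (by positivity) (by positivity)
  have hs' : (a : ℤ) + b + c = n := by exact_mod_cast hs
  rw [hs'] at h1
  unfold P3 at h
  have h2 : (10 ^ 7 * (5 * (n : ℤ) ^ 3)) ≤ 10 ^ 7 * (9 * (6 * ((a : ℤ) * b * c) +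
      3 * ((a : ℤ) * a * b + b * b * c + c * c * a))) + (n : ℤ) ^ 3 := by exact_mod_cast h
  have h3 : (n : ℤ) * (10 ^ 7 * (((a : ℤ) - b) ^ 2 + ((b : ℤ) - c) ^ 2 + ((c : ℤ) - a) ^ 2)) ≤
      n * (n : ℤ) ^ 2 := by nlinarith
  have hn' : (0 : ℤ) < n := by exact_mod_cast hn
  have h4 := le_of_mul_le_mul_left h3 hn'
  have k1 : 10 ^ 7 * ((a : ℤ) - b) ^ 2 ≤ (n : ℤ) ^ 2 := by
    nlinarith [sq_nonneg ((b : ℤ) - c), sq_nonneg ((c : ℤ) - a)]
  have k2 : 10 ^ 7 * ((b : ℤ) - c) ^ 2 ≤ (n : ℤ) ^ 2 := by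
    nlinarith [sq_nonneg ((a : ℤ) - b), sq_nonneg ((c : ℤ) - a)]
  have k3 : 10 ^ 7 * ((c : ℤ) - a) ^ 2 ≤ (n : ℤ) ^ 2 := by
    nlinarith [sq_nonneg ((b : ℤ) - c), sq_nonneg ((a : ℤ) - b)]
  have key : ∀ x : ℤ, 10 ^ 7 * x ^ 2 ≤ (n : ℤ) ^ 2 → 1000 * x ≤ n ∧ -(n : ℤ) ≤ 1000 * x := by
    intro x hx
    constructor
    · by_contra hc
      push Not at hc
      nlinarith
    · by_contra hc
      push Not at hc
      nlinarith
  obtain ⟨u1, v1⟩ := key _ k1
  obtain ⟨u2, v2⟩ := key _ k2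
  obtain ⟨u3, v3⟩ := key _ k3
  refine ⟨?_, ?_, ?_, ?_, ?_, ?_⟩ <;> omega

section
variable {V : Type} [Fintype V] {E : V → V → V → ℕ} {g : V → Fin 3}

theorem sum_colour (g : V → Fin 3) (F : Fin 3 → ℕ) :
    ∑ x, F (g x) = (Pt g 0).card * F 0 + (Pt g 1).card * F 1 + (Pt g 2).card * F 2 := by
  have h : ∑ x, F (g x) = ∑ k : Fin 3, (Pt g k).card * F k := by
    rw [← Finset.sum_fiberwise univ g]
    refine sum_congr rfl fun k _ => ?_
    rw [sum_congr rfl (g := fun _ => F k)]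
    · rw [sum_const, smul_eq_mul]
      rfl
    · intro x hx
      rw [(mem_filter.mp hx).2]
  rw [h, Fin.sum_univ_three]

theorem Pt_add (g : V → Fin 3) :
    (Pt g 0).card + (Pt g 1).card + (Pt g 2).card = Fintype.card V := by
  have h := sum_colour g (fun _ => 1)
  rw [sum_const, card_univ, smul_eq_mul, mul_one, mul_one, mul_one, mul_one] at h
  exact h.symm

theorem S3_R (g : V → Fin 3) : S3 (fun x y z => Rf (g x) (g y) (g z)) =
    P3 (Pt g 0).card (Pt g 1).card (Pt g 2).card := by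
  unfold S3
  have e1 : ∀ a b : Fin 3, ∑ z, Rf a b (g z) = (Pt g 0).card * Rf a b 0 +
      (Pt g 1).card * Rf a b 1 + (Pt g 2).card * Rf a b 2 := fun a b => sum_colour g (Rf a b)
  simp only [e1]
  have e2 : ∀ a : Fin 3, ∑ y, ((Pt g 0).card * Rf a (g y) 0 + (Pt g 1).card * Rf a (g y) 1 +
      (Pt g 2).card * Rf a (g y) 2) = _ := fun a => sum_colour g fun b =>
        (Pt g 0).card * Rf a b 0 + (Pt g 1).card * Rf a b 1 + (Pt g 2).card * Rf a b 2
  simp only [e2]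
  have e3 := sum_colour g fun a => (Pt g 0).card * ((Pt g 0).card * Rf a 0 0 +
    (Pt g 1).card * Rf a 0 1 + (Pt g 2).card * Rf a 0 2) +
    (Pt g 1).card * ((Pt g 0).card * Rf a 1 0 + (Pt g 1).card * Rf a 1 1 + (Pt g 2).card * Rf a 1 2) +
    (Pt g 2).card * ((Pt g 0).card * Rf a 2 0 + (Pt g 1).card * Rf a 2 1 + (Pt g 2).card * Rf a 2 2)
  rw [e3]
  have v : ∀ a b c : Fin 3, Rf a b c = if rB a b c = true then 1 else 0 := fun _ _ _ => rfl
  have r000 : Rf 0 0 0 = 0 := rfl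
  have r001 : Rf 0 0 1 = 1 := rfl
  have r002 : Rf 0 0 2 = 0 := rfl
  have r010 : Rf 0 1 0 = 1 := rfl
  have r011 : Rf 0 1 1 = 0 := rfl
  have r012 : Rf 0 1 2 = 1 := rfl
  have r020 : Rf 0 2 0 = 0 := rfl
  have r021 : Rf 0 2 1 = 1 := rfl
  have r022 : Rf 0 2 2 = 1 := rfl
  have r100 : Rf 1 0 0 = 1 := rfl
  have r101 : Rf 1 0 1 = 0 := rfl
  have r102 : Rf 1 0 2 = 1 := rfl
  have r110 : Rf 1 1 0 = 0 := rfl
  have r111 : Rf 1 1 1 = 0 := rfl
  have r112 : Rf 1 1 2 = 1 := rfl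
  have r120 : Rf 1 2 0 = 1 := rfl
  have r121 : Rf 1 2 1 = 1 := rfl
  have r122 : Rf 1 2 2 = 0 := rfl
  have r200 : Rf 2 0 0 = 0 := rfl
  have r201 : Rf 2 0 1 = 1 := rfl
  have r202 : Rf 2 0 2 = 1 := rfl
  have r210 : Rf 2 1 0 = 1 := rfl
  have r211 : Rf 2 1 1 = 1 := rfl
  have r212 : Rf 2 1 2 = 0 := rfl
  have r220 : Rf 2 2 0 = 1 := rfl
  have r221 : Rf 2 2 1 = 0 := rfl
  have r222 : Rf 2 2 2 = 0 := rfl
  rw [r000, r001, r002, r010, r011, r012, r020, r021, r022, r100, r101, r102, r110, r111, r112,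
    r120, r121, r122, r200, r201, r202, r210, r211, r212, r220, r221, r222]
  unfold P3
  ring

/-- the rule and Turán's construction differ only for triples with equal vertices -/
theorem S3_R_le (g : V → Fin 3) : S3 (fun x y z => Rf (g x) (g y) (g z)) ≤
    S3 (Tg g) + 3 * Fintype.card V ^ 2 := by
  have e : ∀ a b : Fin 3, ∀ c, Rf a b c ≤ 1 := by decide
  have h1 : S3 (fun x y z => Rf (g x) (g y) (g z)) ≤ S3 fun x y z => Tg g x y z +
      ((if x = y then 1 else 0) + (if x = z then 1 else 0) + (if y = z then 1 else 0)) := by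
    refine S3_le fun x y z => ?_
    unfold Tg
    by_cases h : x ≠ y ∧ x ≠ z ∧ y ≠ z
    · rw [if_pos h]; omega
    · rw [if_neg h]
      have := e (g x) (g y) (g z)
      by_cases h1 : x = y
      · rw [if_pos h1]; omega
      · by_cases h2 : x = z
        · rw [if_pos h2]; omega
        · by_cases h3 : y = z
          · rw [if_pos h3]; omega
          · exact absurd ⟨h1, h2, h3⟩ h
  refine h1.trans (le_of_eq ?_)
  rw [S3_add, S3_add, S3_add]
  have d1 : S3 (fun x y (z : V) => if x = y then 1 else 0) = Fintype.card V ^ 2 := by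
    unfold S3
    simp only [sum_const, card_univ, smul_eq_mul, ← mul_sum, sum_ite_eq, mem_univ, if_true]
    ring
  have d2 : S3 (fun (x y z : V) => if x = z then 1 else 0) = Fintype.card V ^ 2 := by
    unfold S3
    simp only [sum_const, card_univ, smul_eq_mul, sum_ite_eq, mem_univ, if_true]
    ring
  have d3 : S3 (fun (x y z : V) => if y = z then 1 else 0) = Fintype.card V ^ 2 := by
    unfold S3
    simp only [sum_const, card_univ, smul_eq_mul, sum_ite_eq, mem_univ, if_true]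
    ring
  rw [d1, d2, d3]
  ring

/-- a nearly balanced construction has many triples -/
theorem S3_Tg_large (g : V → Fin 3) (h : ∀ k, Fintype.card V ≤ 3 * (Pt g k).card + 2) :
    5 * Fintype.card V ^ 3 ≤ 9 * S3 (Tg g) + 57 * Fintype.card V ^ 2 := by
  have h1 := S3_R_le g
  rw [S3_R] at h1
  set n := Fintype.card V with hn
  have h2 : 5 * n ^ 3 ≤ 9 * P3 (Pt g 0).card (Pt g 1).card (Pt g 2).card + 30 * n ^ 2 := by
    have a0 := h 0
    have a1 := h 1
    have a2 := h 2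
    generalize (Pt g 0).card = a at a0
    generalize (Pt g 1).card = b at a1
    generalize (Pt g 2).card = c at a2
    rcases le_or_gt n 2 with hs | hs
    · have : n = 0 ∨ n = 1 ∨ n = 2 := by omega
      rcases this with h | h | h <;> rw [h] <;> omega
    obtain ⟨m, hm⟩ : ∃ m, n = m + 2 := ⟨n - 2, by omega⟩
    have b0 : m ≤ 3 * a := by omega
    have b1 : m ≤ 3 * b := by omega
    have b2 : m ≤ 3 * c := by omega
    have c1 : m * m * m ≤ 27 * (a * b * c) := by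
      calc m * m * m ≤ (3 * a) * (3 * b) * (3 * c) := Nat.mul_le_mul (Nat.mul_le_mul b0 b1) b2
        _ = _ := by ring
    have c2 : m * m * m ≤ 27 * (a * a * b) := by
      calc m * m * m ≤ (3 * a) * (3 * a) * (3 * b) := Nat.mul_le_mul (Nat.mul_le_mul b0 b0) b1
        _ = _ := by ring
    have c3 : m * m * m ≤ 27 * (b * b * c) := by
      calc m * m * m ≤ (3 * b) * (3 * b) * (3 * c) := Nat.mul_le_mul (Nat.mul_le_mul b1 b1) b2
        _ = _ := by ring
    have c4 : m * m * m ≤ 27 * (c * c * a) := by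
      calc m * m * m ≤ (3 * c) * (3 * c) * (3 * a) := Nat.mul_le_mul (Nat.mul_le_mul b2 b2) b0
        _ = _ := by ring
    have c5 : 5 * (m * m * m) ≤ 9 * P3 a b c := by unfold P3; omega
    have c6 : 5 * n ^ 3 ≤ 5 * (m * m * m) + 30 * n ^ 2 := by
      rw [hm]
      nlinarith
    omega
  omega

end
end Pool.Agent.TH773.ST
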