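import Pool.Agent.TH773.ST.Typ

/-! Finite checks on colourings, and seeds. -/

set_option autoImplicit false
set_option maxRecDepth 100000
set_option maxHeartbeats 4000000
open Finset
namespace Pool.Agent.TH773.ST

def sg : Fin 5 → Fin 3 := ![0, 0, 1, 1, 2]

def b3 (f : Fin 3 → Bool) : Bool := f 0 && (f 1 && f 2)
theorem b3_true {f : Fin 3 → Bool} (h : b3 f = true) (i : Fin 3) : f i = true := by
  unfold b3 at h
  rw [Bool.and_eq_true, Bool.and_eq_true] at h
  fin_cases i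
  exacts [h.1, h.2.1, h.2.2]

/-- colours of five vertices which follow the pattern -/
def sdB (c0 c1 c2 c3 c4 : Fin 3) : Bool :=
  (rB c0 c1 c2 == rB 0 0 1) && ((rB c0 c1 c3 == rB 0 0 1) && ((rB c0 c2 c3 == rB 0 1 1) &&
  ((rB c1 c2 c3 == rB 0 1 1) && ((rB c0 c1 c4 == rB 0 0 2) && ((rB c0 c2 c4 == rB 0 1 2) &&
  ((rB c1 c2 c4 == rB 0 1 2) && ((rB c0 c3 c4 == rB 0 1 2) && ((rB c1 c3 c4 == rB 0 1 2) &&
  (rB c2 c3 c4 == rB 1 1 2)))))))))

/-- the values of a further vertex of colour `d` -/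
def exB (c0 c1 c2 c3 c4 c5 d : Fin 3) : Bool :=
  (rB c0 c1 c5 == rB 0 0 d) && ((rB c0 c2 c5 == rB 0 1 d) && ((rB c1 c2 c5 == rB 0 1 d) &&
  ((rB c0 c3 c5 == rB 0 1 d) && ((rB c1 c3 c5 == rB 0 1 d) && ((rB c2 c3 c5 == rB 1 1 d) &&
  ((rB c0 c4 c5 == rB 0 2 d) && ((rB c1 c4 c5 == rB 0 2 d) && ((rB c2 c4 c5 == rB 1 2 d) &&
  (rB c3 c4 c5 == rB 1 2 d)))))))))

theorem f1 : (b3 fun c0 => b3 fun c1 => b3 fun c2 => b3 fun c3 => b3 fun c4 => b3 fun c5 =>
    !(sdB c0 c1 c2 c3 c4) || (exB c0 c1 c2 c3 c4 c5 0 || (exB c0 c1 c2 c3 c4 c5 1 ||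
      exB c0 c1 c2 c3 c4 c5 2))) = true := by decide +kernel

def sd4 (c0 c1 c2 c3 : Fin 3) : Bool :=
  (rB c0 c1 c2 == rB 0 0 1) && ((rB c0 c1 c3 == rB 0 0 1) && ((rB c0 c2 c3 == rB 0 1 1) &&
  ((rB c1 c2 c3 == rB 0 1 1))))

def ex4 (c0 c1 c2 c3 c5 d : Fin 3) : Bool :=
  (rB c0 c1 c5 == rB 0 0 d) && ((rB c0 c2 c5 == rB 0 1 d) && ((rB c1 c2 c5 == rB 0 1 d) &&
  ((rB c0 c3 c5 == rB 0 1 d) && ((rB c1 c3 c5 == rB 0 1 d) && ((rB c2 c3 c5 == rB 1 1 d))))))

theorem f2 : (b3 fun c0 => b3 fun c1 => b3 fun c2 => b3 fun c3 => b3 fun c4 => b3 fun c5 =>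
    b3 fun d => b3 fun e => !(sd4 c0 c1 c2 c3 && (ex4 c0 c1 c2 c3 c4 d && ex4 c0 c1 c2 c3 c5 e)) ||
      ((rB c0 c4 c5 == rB 0 d e) && ((rB c1 c4 c5 == rB 0 d e) && ((rB c2 c4 c5 == rB 1 d e) &&
        (rB c3 c4 c5 == rB 1 d e))))) = true := by decide +kernel

def ex3 (c0 c1 c2 c5 d : Fin 3) : Bool :=
  (rB c0 c1 c5 == rB 0 0 d) && ((rB c0 c2 c5 == rB 0 1 d) && ((rB c1 c2 c5 == rB 0 1 d)))

def p3 (c0 c1 c2 a b d e : Fin 3) : Bool :=
  (rB c0 a b == rB 0 d e) && ((rB c1 a b == rB 0 d e) && ((rB c2 a b == rB 1 d e)))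

theorem f3 : (b3 fun c0 => b3 fun c1 => b3 fun c2 => b3 fun c3 => b3 fun c4 => b3 fun c5 =>
    b3 fun d => b3 fun e => b3 fun f => !((rB c0 c1 c2 == rB 0 0 1) &&
      (ex3 c0 c1 c2 c3 d && (ex3 c0 c1 c2 c4 e && (ex3 c0 c1 c2 c5 f &&
      (p3 c0 c1 c2 c3 c4 d e && (p3 c0 c1 c2 c3 c5 d f && p3 c0 c1 c2 c4 c5 e f)))))) ||
      (rB c3 c4 c5 == rB d e f)) = true := by decide +kernel


theorem Rf_b {a b c a' b' c' : Fin 3} (h : Rf a b c = Rf a' b' c') :
    (rB a b c == rB a' b' c') = true := by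
  unfold Rf at h
  cases h1 : rB a b c <;> cases h2 : rB a' b' c' <;> simp_all

theorem b_Rf {a b c a' b' c' : Fin 3} (h : (rB a b c == rB a' b' c') = true) :
    Rf a b c = Rf a' b' c' := by
  unfold Rf
  rw [beq_iff_eq] at h
  rw [h]

section
variable {V : Type} (E : V → V → V → ℕ)

/-- five vertices which follow the pattern with the colours `0, 0, 1, 1, 2` -/
def Seed (s : Fin 5 → V) : Prop :=
  ∀ i j k : Fin 5, i < j → j < k → E (s i) (s j) (s k) = Rf (sg i) (sg j) (sg k)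

/-- a vertex which behaves with respect to the seed as a vertex of colour `d` -/
def Ext (s : Fin 5 → V) (v : V) (d : Fin 3) : Prop :=
  ∀ i j : Fin 5, i < j → E (s i) (s j) v = Rf (sg i) (sg j) d

variable {E}

theorem seed_b {s : Fin 5 → V} {c : Fin 6 → Fin 3} (hs : Seed E s)
    (h : ∀ i j k : Fin 5, i < j → j < k → E (s i) (s j) (s k) =
      Rf (c i.castSucc) (c j.castSucc) (c k.castSucc)) :
    sdB (c 0) (c 1) (c 2) (c 3) (c 4) = true := by
  have hh : ∀ i j k : Fin 5, i < j → j < k →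
      (rB (c i.castSucc) (c j.castSucc) (c k.castSucc) == rB (sg i) (sg j) (sg k)) = true := by
    intro i j k hij hjk
    exact Rf_b (by rw [← h i j k hij hjk, hs i j k hij hjk])
  unfold sdB
  simp only [Bool.and_eq_true]
  exact ⟨hh 0 1 2 (by decide) (by decide), hh 0 1 3 (by decide) (by decide),
    hh 0 2 3 (by decide) (by decide), hh 1 2 3 (by decide) (by decide),
    hh 0 1 4 (by decide) (by decide), hh 0 2 4 (by decide) (by decide),
    hh 1 2 4 (by decide) (by decide), hh 0 3 4 (by decide) (by decide),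
    hh 1 3 4 (by decide) (by decide), hh 2 3 4 (by decide) (by decide)⟩

theorem ext_of_b {s : Fin 5 → V} {v : V} {c : Fin 6 → Fin 3} {d : Fin 3}
    (h : ∀ i j : Fin 5, i < j → E (s i) (s j) v = Rf (c i.castSucc) (c j.castSucc) (c 5))
    (hb : exB (c 0) (c 1) (c 2) (c 3) (c 4) (c 5) d = true) : Ext E s v d := by
  unfold exB at hb
  simp only [Bool.and_eq_true] at hb
  obtain ⟨h0, h1, h2, h3, h4, h5, h6, h7, h8, h9⟩ := hb
  intro i j hij
  rw [h i j hij]
  fin_cases i <;> fin_cases j <;> first | exact absurd hij (by decide) | skip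
  · exact b_Rf h0
  · exact b_Rf h1
  · exact b_Rf h3
  · exact b_Rf h6
  · exact b_Rf h2
  · exact b_Rf h4
  · exact b_Rf h7
  · exact b_Rf h5
  · exact b_Rf h8
  · exact b_Rf h9

theorem ext_of_tt {s : Fin 5 → V} {v : V} (hs : Seed E s)
    (ht : TT E ![s 0, s 1, s 2, s 3, s 4, v]) : ∃ d, Ext E s v d := by
  obtain ⟨c, hc⟩ := ht
  have hx : ∀ i : Fin 5, (![s 0, s 1, s 2, s 3, s 4, v] : Fin 6 → V) i.castSucc = s i := by
    intro i; fin_cases i <;> rfl
  have h5 : (![s 0, s 1, s 2, s 3, s 4, v] : Fin 6 → V) 5 = v := rfl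
  have h1 := seed_b (c := c) hs (fun i j k hij hjk => by
    have := hc i.castSucc j.castSucc k.castSucc hij hjk
    rwa [hx, hx, hx] at this)
  have h2 : ∀ i j : Fin 5, i < j → E (s i) (s j) v = Rf (c i.castSucc) (c j.castSucc) (c 5) := by
    intro i j hij
    have := hc i.castSucc j.castSucc 5 hij (Fin.castSucc_lt_last j)
    rwa [hx, hx, h5] at this
  have h3 := b3_true (b3_true (b3_true (b3_true (b3_true (b3_true f1 (c 0)) (c 1)) (c 2)) (c 3)) (c 4)) (c 5)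
  rw [h1, Bool.not_true, Bool.false_or, Bool.or_eq_true, Bool.or_eq_true] at h3
  rcases h3 with h3 | h3 | h3
  · exact ⟨0, ext_of_b h2 h3⟩
  · exact ⟨1, ext_of_b h2 h3⟩
  · exact ⟨2, ext_of_b h2 h3⟩

theorem pair_of_tt {s : Fin 5 → V} {x y : V} {d e : Fin 3} (hs : Seed E s)
    (hx : Ext E s x d) (hy : Ext E s y e) (ht : TT E ![s 0, s 1, s 2, s 3, x, y]) :
    E (s 0) x y = Rf 0 d e ∧ E (s 1) x y = Rf 0 d e ∧ E (s 2) x y = Rf 1 d e ∧
      E (s 3) x y = Rf 1 d e := by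
  obtain ⟨c, hc⟩ := ht
  have h1 : sd4 (c 0) (c 1) (c 2) (c 3) = true := by
    unfold sd4
    simp only [Bool.and_eq_true]
    refine ⟨Rf_b ?_, Rf_b ?_, Rf_b ?_, Rf_b ?_⟩
    · exact (hc 0 1 2 (by decide) (by decide)).symm.trans (hs 0 1 2 (by decide) (by decide))
    · exact (hc 0 1 3 (by decide) (by decide)).symm.trans (hs 0 1 3 (by decide) (by decide))
    · exact (hc 0 2 3 (by decide) (by decide)).symm.trans (hs 0 2 3 (by decide) (by decide))
    · exact (hc 1 2 3 (by decide) (by decide)).symm.trans (hs 1 2 3 (by decide) (by decide))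
  have h2 : ex4 (c 0) (c 1) (c 2) (c 3) (c 4) d = true := by
    unfold ex4
    simp only [Bool.and_eq_true]
    refine ⟨Rf_b ?_, Rf_b ?_, Rf_b ?_, Rf_b ?_, Rf_b ?_, Rf_b ?_⟩
    · exact (hc 0 1 4 (by decide) (by decide)).symm.trans (hx 0 1 (by decide))
    · exact (hc 0 2 4 (by decide) (by decide)).symm.trans (hx 0 2 (by decide))
    · exact (hc 1 2 4 (by decide) (by decide)).symm.trans (hx 1 2 (by decide))
    · exact (hc 0 3 4 (by decide) (by decide)).symm.trans (hx 0 3 (by decide))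
    · exact (hc 1 3 4 (by decide) (by decide)).symm.trans (hx 1 3 (by decide))
    · exact (hc 2 3 4 (by decide) (by decide)).symm.trans (hx 2 3 (by decide))
  have h3 : ex4 (c 0) (c 1) (c 2) (c 3) (c 5) e = true := by
    unfold ex4
    simp only [Bool.and_eq_true]
    refine ⟨Rf_b ?_, Rf_b ?_, Rf_b ?_, Rf_b ?_, Rf_b ?_, Rf_b ?_⟩
    · exact (hc 0 1 5 (by decide) (by decide)).symm.trans (hy 0 1 (by decide))
    · exact (hc 0 2 5 (by decide) (by decide)).symm.trans (hy 0 2 (by decide))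
    · exact (hc 1 2 5 (by decide) (by decide)).symm.trans (hy 1 2 (by decide))
    · exact (hc 0 3 5 (by decide) (by decide)).symm.trans (hy 0 3 (by decide))
    · exact (hc 1 3 5 (by decide) (by decide)).symm.trans (hy 1 3 (by decide))
    · exact (hc 2 3 5 (by decide) (by decide)).symm.trans (hy 2 3 (by decide))
  have h4 := b3_true (b3_true (b3_true (b3_true (b3_true (b3_true (b3_true (b3_true f2 (c 0)) (c 1)) (c 2)) (c 3)) (c 4)) (c 5)) d) e
  rw [h1, h2, h3] at h4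
  simp only [Bool.and_true, Bool.not_true, Bool.false_or, Bool.and_eq_true] at h4
  obtain ⟨g0, g1, g2, g3⟩ := h4
  refine ⟨?_, ?_, ?_, ?_⟩
  · exact (hc 0 4 5 (by decide) (by decide)).trans (b_Rf g0)
  · exact (hc 1 4 5 (by decide) (by decide)).trans (b_Rf g1)
  · exact (hc 2 4 5 (by decide) (by decide)).trans (b_Rf g2)
  · exact (hc 3 4 5 (by decide) (by decide)).trans (b_Rf g3)

theorem triple_of_tt {s : Fin 5 → V} {x y z : V} {d e f : Fin 3} (hs : Seed E s)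
    (hx : Ext E s x d) (hy : Ext E s y e) (hz : Ext E s z f)
    (h1 : TT E ![s 0, s 1, s 2, s 3, x, y]) (h2 : TT E ![s 0, s 1, s 2, s 3, x, z])
    (h3 : TT E ![s 0, s 1, s 2, s 3, y, z]) (h4 : TT E ![s 0, s 1, s 2, x, y, z]) :
    E x y z = Rf d e f := by
  obtain ⟨a0, a1, a2, -⟩ := pair_of_tt hs hx hy h1
  obtain ⟨b0, b1, b2, -⟩ := pair_of_tt hs hx hz h2
  obtain ⟨e0, e1, e2, -⟩ := pair_of_tt hs hy hz h3
  obtain ⟨c, hc⟩ := h4
  have q0 : (rB (c 0) (c 1) (c 2) == rB 0 0 1) = true :=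
    Rf_b ((hc 0 1 2 (by decide) (by decide)).symm.trans (hs 0 1 2 (by decide) (by decide)))
  have q1 : ex3 (c 0) (c 1) (c 2) (c 3) d = true := by
    unfold ex3
    simp only [Bool.and_eq_true]
    refine ⟨Rf_b ?_, Rf_b ?_, Rf_b ?_⟩
    · exact (hc 0 1 3 (by decide) (by decide)).symm.trans (hx 0 1 (by decide))
    · exact (hc 0 2 3 (by decide) (by decide)).symm.trans (hx 0 2 (by decide))
    · exact (hc 1 2 3 (by decide) (by decide)).symm.trans (hx 1 2 (by decide))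
  have q2 : ex3 (c 0) (c 1) (c 2) (c 4) e = true := by
    unfold ex3
    simp only [Bool.and_eq_true]
    refine ⟨Rf_b ?_, Rf_b ?_, Rf_b ?_⟩
    · exact (hc 0 1 4 (by decide) (by decide)).symm.trans (hy 0 1 (by decide))
    · exact (hc 0 2 4 (by decide) (by decide)).symm.trans (hy 0 2 (by decide))
    · exact (hc 1 2 4 (by decide) (by decide)).symm.trans (hy 1 2 (by decide))
  have q3 : ex3 (c 0) (c 1) (c 2) (c 5) f = true := by
    unfold ex3
    simp only [Bool.and_eq_true]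
    refine ⟨Rf_b ?_, Rf_b ?_, Rf_b ?_⟩
    · exact (hc 0 1 5 (by decide) (by decide)).symm.trans (hz 0 1 (by decide))
    · exact (hc 0 2 5 (by decide) (by decide)).symm.trans (hz 0 2 (by decide))
    · exact (hc 1 2 5 (by decide) (by decide)).symm.trans (hz 1 2 (by decide))
  have r1 : p3 (c 0) (c 1) (c 2) (c 3) (c 4) d e = true := by
    unfold p3
    simp only [Bool.and_eq_true]
    refine ⟨Rf_b ?_, Rf_b ?_, Rf_b ?_⟩
    · exact (hc 0 3 4 (by decide) (by decide)).symm.trans a0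
    · exact (hc 1 3 4 (by decide) (by decide)).symm.trans a1
    · exact (hc 2 3 4 (by decide) (by decide)).symm.trans a2
  have r2 : p3 (c 0) (c 1) (c 2) (c 3) (c 5) d f = true := by
    unfold p3
    simp only [Bool.and_eq_true]
    refine ⟨Rf_b ?_, Rf_b ?_, Rf_b ?_⟩
    · exact (hc 0 3 5 (by decide) (by decide)).symm.trans b0
    · exact (hc 1 3 5 (by decide) (by decide)).symm.trans b1
    · exact (hc 2 3 5 (by decide) (by decide)).symm.trans b2
  have r3 : p3 (c 0) (c 1) (c 2) (c 4) (c 5) e f = true := by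
    unfold p3
    simp only [Bool.and_eq_true]
    refine ⟨Rf_b ?_, Rf_b ?_, Rf_b ?_⟩
    · exact (hc 0 4 5 (by decide) (by decide)).symm.trans e0
    · exact (hc 1 4 5 (by decide) (by decide)).symm.trans e1
    · exact (hc 2 4 5 (by decide) (by decide)).symm.trans e2
  have h4 := b3_true (b3_true (b3_true (b3_true (b3_true (b3_true (b3_true (b3_true (b3_true f3 (c 0)) (c 1)) (c 2)) (c 3)) (c 4)) (c 5)) d) e) f
  rw [q0, q1, q2, q3, r1, r2, r3] at h4
  simp only [Bool.and_true, Bool.not_true, Bool.false_or] at h4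
  exact (hc 3 4 5 (by decide) (by decide)).trans (b_Rf h4)

end
end Pool.Agent.TH773.ST
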