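import Pool.Agent.TH773.ST.Par

/-! Turán's construction belongs to the classes. -/

set_option autoImplicit false
set_option maxRecDepth 100000
set_option maxHeartbeats 4000000
open Finset
open scoped Classical

namespace Pool.Agent.TH773.ST
open Pool.Agent.H122R2.N6 Pool.Agent.H37R3.Pen Pool.Agent.H37R3.Cop Pool.Agent.H37R3.CopL

/-- six colours which follow the mask `m` -/
def cpB (m : ℕ) (c0 c1 c2 c3 c4 c5 : Fin 3) : Bool :=
  (Rf c0 c1 c2 == bt m 0) && ((Rf c0 c1 c3 == bt m 1) && ((Rf c0 c2 c3 == bt m 2) &&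
  ((Rf c1 c2 c3 == bt m 3) && ((Rf c0 c1 c4 == bt m 4) && ((Rf c0 c2 c4 == bt m 5) &&
  ((Rf c1 c2 c4 == bt m 6) && ((Rf c0 c3 c4 == bt m 7) && ((Rf c1 c3 c4 == bt m 8) &&
  ((Rf c2 c3 c4 == bt m 9) && ((Rf c0 c1 c5 == bt m 10) && ((Rf c0 c2 c5 == bt m 11) &&
  ((Rf c1 c2 c5 == bt m 12) && ((Rf c0 c3 c5 == bt m 13) && ((Rf c1 c3 c5 == bt m 14) &&
  ((Rf c2 c3 c5 == bt m 15) && ((Rf c0 c4 c5 == bt m 16) && ((Rf c1 c4 c5 == bt m 17) &&
  ((Rf c2 c4 c5 == bt m 18) && (Rf c3 c4 c5 == bt m 19)))))))))))))))))))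

def nocol (m : ℕ) : Bool := b3 fun c0 => b3 fun c1 => b3 fun c2 => b3 fun c3 => b3 fun c4 =>
  b3 fun c5 => !(cpB m c0 c1 c2 c3 c4 c5)

theorem nocol_all (i : Fin 5) : ∀ m ∈ famM i, nocol m = true := by
  fin_cases i <;> decide +kernel

theorem cp_of_copy {m : ℕ} {c : Fin 6 → Fin 3} (h : Copy Rf m c) :
    cpB m (c 0) (c 1) (c 2) (c 3) (c 4) (c 5) = true := by
  unfold cpB
  simp only [Bool.and_eq_true, beq_iff_eq]
  exact ⟨h 0 1 2 (by decide) (by decide), h 0 1 3 (by decide) (by decide),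
    h 0 2 3 (by decide) (by decide), h 1 2 3 (by decide) (by decide),
    h 0 1 4 (by decide) (by decide), h 0 2 4 (by decide) (by decide),
    h 1 2 4 (by decide) (by decide), h 0 3 4 (by decide) (by decide),
    h 1 3 4 (by decide) (by decide), h 2 3 4 (by decide) (by decide),
    h 0 1 5 (by decide) (by decide), h 0 2 5 (by decide) (by decide),
    h 1 2 5 (by decide) (by decide), h 0 3 5 (by decide) (by decide),
    h 1 3 5 (by decide) (by decide), h 2 3 5 (by decide) (by decide),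
    h 0 4 5 (by decide) (by decide), h 1 4 5 (by decide) (by decide),
    h 2 4 5 (by decide) (by decide), h 3 4 5 (by decide) (by decide)⟩

theorem no_copy {i : Fin 5} {m : ℕ} (hm : m ∈ famM i) (c : Fin 6 → Fin 3) : ¬ Copy Rf m c := by
  intro h
  have h1 := b3_true (b3_true (b3_true (b3_true (b3_true (b3_true (nocol_all i m hm) (c 0)) (c 1))
    (c 2)) (c 3)) (c 4)) (c 5)
  rw [cp_of_copy h] at h1
  exact absurd h1 (by decide)

theorem noK_col : ∀ a b c d : Fin 3,
    ¬ (Rf a b c = 1 ∧ Rf a b d = 1 ∧ Rf a c d = 1 ∧ Rf b c d = 1) := by decide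

section
variable {V : Type} {E : V → V → V → ℕ} {g : V → Fin 3}

/-- copies of the listed structures have six different vertices -/
theorem inj_of_copy (hE : Sy E) (hd : ∀ a b, E a a b = 0) {i : Fin 5} {m : ℕ} (hm : m ∈ famM i)
    {x : Fin 6 → V} (h : Copy E m x) : Function.Injective x := by
  obtain ⟨F, -, hF⟩ := famM_mask i m hm
  intro a b hab
  by_contra hne
  obtain ⟨k, hk1, hk2, hk3⟩ := hF.2 a b hne
  have h1 := h.full hE a b k hne (Ne.symm hk1) (Ne.symm hk2)
  rw [hk3, hab, hd] at h1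
  exact absurd h1 (by decide)

theorem Tg_dg (g : V → Fin 3) (a b : V) : Tg g a a b = 0 := by
  unfold Tg
  rw [if_neg (fun h => h.1 rfl)]

theorem Tg_one {a b c : V} (h : Tg g a b c = 1) : Rf (g a) (g b) (g c) = 1 := by
  unfold Tg at h
  split_ifs at h
  exact h

theorem Tg_of {a b c : V} (hab : a ≠ b) (hac : a ≠ c) (hbc : b ≠ c) :
    Tg g a b c = Rf (g a) (g b) (g c) := by
  unfold Tg
  rw [if_pos ⟨hab, hac, hbc⟩]

theorem k4b_iff {p q r s : ℕ} (hp : Bt p) (hq : Bt q) (hr : Bt r) (hs : Bt s)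
    (h : k4b p q r s = true) : p = 1 ∧ q = 1 ∧ r = 1 ∧ s = 1 := by
  rcases hp with rfl | rfl <;> rcases hq with rfl | rfl <;> rcases hr with rfl | rfl <;>
    rcases hs with rfl | rfl <;> first | exact absurd h (by decide) | decide

theorem Tg_cls (i : Fin 5) (g : V → Fin 3) : Cls i (Tg g) where
  sy := Tg_sy g
  k4 := by
    intro a b c d
    by_contra h
    rw [Bool.not_eq_false] at h
    obtain ⟨h1, h2, h3, h4⟩ := k4b_iff ((Tg_sy g).b _ _ _) ((Tg_sy g).b _ _ _) ((Tg_sy g).b _ _ _)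
      ((Tg_sy g).b _ _ _) h
    exact noK_col _ _ _ _ ⟨Tg_one h1, Tg_one h2, Tg_one h3, Tg_one h4⟩
  dg := Tg_dg g
  nn := by
    rintro x ⟨p, hp, m, hm, hc⟩
    have hinj := inj_of_copy (Tg_sy g) (Tg_dg g) hm hc
    refine no_copy hm (g ∘ (x ∘ p)) ?_
    intro a b c hab hbc
    rw [← hc a b c hab hbc, Tg_of (fun e => hab.ne (hinj e)) (fun e => (hab.trans hbc).ne (hinj e))
      (fun e => hbc.ne (hinj e))]
    rfl

/-- the classes are closed under replacing vertices by several copies -/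
theorem Cls.comap {i : Fin 5} {W : Type} (hC : Cls i E) (p : W → V) :
    Cls i (fun a b c => E (p a) (p b) (p c)) where
  sy := ⟨fun _ _ _ => hC.sy.b _ _ _, fun _ _ _ => hC.sy.h213 _ _ _, fun _ _ _ => hC.sy.h132 _ _ _⟩
  k4 := fun _ _ _ _ => hC.k4 _ _ _ _
  dg := fun _ _ => hC.dg _ _
  nn := by
    rintro x ⟨q, hq, m, hm, hc⟩
    exact hC.nn (p ∘ x) ⟨q, hq, m, hm, fun a b c hab hbc => hc a b c hab hbc⟩

/-- a division into three nearly equal parts -/
theorem exists_balanced (V : Type) [Fintype V] :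
    ∃ g : V → Fin 3, ∀ k, Fintype.card V ≤ 3 * (Pt g k).card + 2 := by
  let e := Fintype.equivFin V
  let g : V → Fin 3 := fun v => ⟨(e v).val % 3, Nat.mod_lt _ (by norm_num)⟩
  refine ⟨g, fun k => ?_⟩
  have h : Fintype.card V / 3 ≤ (Pt g k).card := by
    have hlt : ∀ j : Fin (Fintype.card V / 3), 3 * j.val + k.val < Fintype.card V := by
      intro j
      have h1 := j.isLt
      have h2 := k.isLt
      omega
    rw [← Fintype.card_fin (Fintype.card V / 3), ← card_univ (α := Fin _)]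
    refine card_le_card_of_injOn (fun j => e.symm ⟨3 * j.val + k.val, hlt j⟩) ?_ ?_
    · intro j _
      refine mem_coe.mpr (mem_filter.mpr ⟨mem_univ _, ?_⟩)
      apply Fin.ext
      change (e (e.symm ⟨3 * j.val + k.val, hlt j⟩)).val % 3 = k.val
      rw [Equiv.apply_symm_apply]
      have h2 := k.isLt
      simp only
      omega
    · intro j _ j' _ hj
      have h1 := e.symm.injective hj
      have h2 := congrArg Fin.val h1
      simp only at h2
      apply Fin.ext
      omega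
  omega

end
end Pool.Agent.TH773.ST
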