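import Pool.Agent.TH773.ST.Cln

/-! Extremal structures: bounds for the numbers of six-tuples which do not follow the rule. -/

set_option autoImplicit false
set_option maxRecDepth 100000
set_option maxHeartbeats 4000000
open Finset
open scoped Classical

namespace Pool.Agent.TH773.ST
open Pool.Agent.H122R2.N6 Pool.Agent.H37R3.Pen Pool.Agent.H37R3.Cop Pool.Agent.H37R3.CopL

theorem arith1 {n m S d T : ℤ} (hn : 0 < n) (hm : 0 ≤ m) (hmn : m ≤ n)
    (h : 1800 * (n + m) ^ 3 * (S + 3 * (m * d)) + m * T ≤ 1000 * (n + m) ^ 6)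
    (hS : 5 * n ^ 3 ≤ 9 * S + 57 * n ^ 2) (hd : S ≤ n * d + 2 * n ^ 2) :
    m * T ≤ 1600 * n ^ 3 * (20 * (n * m ^ 2) + 57 * n ^ 2 + 225 * (n * m)) := by
  set X := 5 * (n + m) ^ 3 - 9 * S - 27 * (m * d) with hX
  have h1 : m * T ≤ 200 * (n + m) ^ 3 * X := by
    have e : 200 * (n + m) ^ 3 * X = 1000 * (n + m) ^ 6 - 1800 * (n + m) ^ 3 * (S + 3 * (m * d)) := by
      rw [hX]; ring
    rw [e]; linarith
  have h2 : n * X ≤ n * (20 * (n * m ^ 2) + 57 * n ^ 2 + 225 * (n * m)) := by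
    have a1 : 0 ≤ m * (n * d + 2 * n ^ 2 - S) := mul_nonneg hm (by linarith)
    have a2 : 0 ≤ (n + 3 * m) * (9 * S + 57 * n ^ 2 - 5 * n ^ 3) :=
      mul_nonneg (by linarith) (by linarith)
    have a3 : 0 ≤ 5 * (n * m ^ 2 * (n - m)) :=
      mul_nonneg (by norm_num) (mul_nonneg (by positivity) (by linarith))
    rw [hX]
    nlinarith
  have h3 := le_of_mul_le_mul_left h2 hn
  have h4 : (n + m) ^ 3 ≤ (2 * n) ^ 3 := pow_le_pow_left₀ (by linarith) (by linarith) 3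
  have h5 : 0 ≤ 20 * (n * m ^ 2) + 57 * n ^ 2 + 225 * (n * m) := by positivity
  calc m * T ≤ 200 * (n + m) ^ 3 * X := h1
    _ ≤ 200 * (n + m) ^ 3 * (20 * (n * m ^ 2) + 57 * n ^ 2 + 225 * (n * m)) :=
        mul_le_mul_of_nonneg_left h3 (by positivity)
    _ ≤ 200 * (2 * n) ^ 3 * (20 * (n * m ^ 2) + 57 * n ^ 2 + 225 * (n * m)) :=
        mul_le_mul_of_nonneg_right (by linarith) h5
    _ = _ := by ring

theorem arith2 {n m S d T : ℕ} (hn : 10 ^ 40 ≤ n) (hm : m = n / 10 ^ 18)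
    (h : 1800 * (n + m) ^ 3 * (S + 3 * (m * d)) + m * T ≤ 1000 * (n + m) ^ 6)
    (hS : 5 * n ^ 3 ≤ 9 * S + 57 * n ^ 2) (hd : S ≤ n * d + 2 * n ^ 2) :
    10 ^ 13 * T ≤ n ^ 5 := by
  have hm1 : 10 ^ 18 * m ≤ n := by rw [hm]; exact Nat.mul_div_le _ _
  have hm2 : n ≤ 2 * 10 ^ 18 * m := by omega
  have hm0 : 0 < m := by omega
  have hmn : m ≤ n := by omega
  have h1 := arith1 (n := (n : ℤ)) (m := m) (S := S) (d := d) (T := T) (by exact_mod_cast (by omega : 0 < n))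
    (by positivity) (by exact_mod_cast hmn) (by exact_mod_cast h) (by exact_mod_cast hS)
    (by exact_mod_cast hd)
  have h2 : m * T ≤ 1600 * n ^ 3 * (20 * (n * m ^ 2) + 57 * n ^ 2 + 225 * (n * m)) := by
    exact_mod_cast h1
  have h3 : 57 * n ^ 2 ≤ 114 * 10 ^ 18 * (n * m) := by nlinarith
  have h4 : m * T ≤ m * (1600 * n ^ 4 * (20 * m + 114 * 10 ^ 18 + 225)) := by
    calc m * T ≤ 1600 * n ^ 3 * (20 * (n * m ^ 2) + 57 * n ^ 2 + 225 * (n * m)) := h2
      _ ≤ 1600 * n ^ 3 * (20 * (n * m ^ 2) + 114 * 10 ^ 18 * (n * m) + 225 * (n * m)) :=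
          Nat.mul_le_mul_left _ (by omega)
      _ = _ := by ring
  have h5 := Nat.le_of_mul_le_mul_left h4 hm0
  have h6 : 10 ^ 18 * T ≤ 33600 * n ^ 5 := by
    calc 10 ^ 18 * T ≤ 10 ^ 18 * (1600 * n ^ 4 * (20 * m + 114 * 10 ^ 18 + 225)) :=
          Nat.mul_le_mul_left _ h5
      _ = 1600 * n ^ 4 * (20 * (10 ^ 18 * m) + 114 * 10 ^ 36 + 225 * 10 ^ 18) := by ring
      _ ≤ 1600 * n ^ 4 * (21 * n) := Nat.mul_le_mul_left _ (by omega)
      _ = 33600 * n ^ 5 := by ring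
  generalize n ^ 5 = W at h6 ⊢
  omega

/-- an extremal structure of the class -/
structure Ext1 (i : Fin 5) {V : Type} [Fintype V] (E : V → V → V → ℕ) : Prop where
  c : Cls i E
  mx : ∀ E' : V → V → V → ℕ, Cls i E' → S3 E' ≤ S3 E

section
variable {V : Type} [Fintype V] {E : V → V → V → ℕ} {i : Fin 5}

theorem Ext1.low (h : Ext1 i E) : 5 * Fintype.card V ^ 3 ≤ 9 * S3 E + 57 * Fintype.card V ^ 2 := by
  obtain ⟨g, hg⟩ := exists_balanced V
  have h1 := S3_Tg_large g hg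
  have h2 := h.mx _ (Tg_cls i g)
  omega

theorem Ext1.nt (h : Ext1 i E) : NT E ≤ 11400 * Fintype.card V ^ 5 := by
  have h1 := cert_cls h.c
  have h2 := Nat.mul_le_mul_left (200 * Fintype.card V ^ 3) h.low
  have e1 : 200 * Fintype.card V ^ 3 * (5 * Fintype.card V ^ 3) = 1000 * Fintype.card V ^ 6 := by ring
  have e2 : 200 * Fintype.card V ^ 3 * (9 * S3 E + 57 * Fintype.card V ^ 2) =
      1800 * Fintype.card V ^ 3 * S3 E + 11400 * Fintype.card V ^ 5 := by ring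
  rw [e1, e2] at h2
  omega

theorem Ext1.deg (h : Ext1 i E) (v : V) :
    S3 E ≤ Fintype.card V * dgr E v + 2 * Fintype.card V ^ 2 := by
  rw [← sum_dgr]
  calc ∑ u, dgr E u ≤ ∑ _u : V, (dgr E v + 2 * Fintype.card V) :=
        sum_le_sum fun u _ => deg_le h.c.sy h.c.dg u v (h.mx _ (h.c.comap _))
    _ = _ := by rw [sum_const, card_univ, smul_eq_mul]; ring

theorem Ext1.ntv (h : Ext1 i E) (hn : 10 ^ 40 ≤ Fintype.card V) (v : V) :
    10 ^ 13 * NTv E v ≤ Fintype.card V ^ 5 :=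
  arith2 hn rfl (clone_ineq h.c v (Fintype.card V / 10 ^ 18)) h.low (h.deg v)

/-- a colouring with few violations -/
theorem Ext1.col (h : Ext1 i E) (hn : 0 < Fintype.card V) :
    ∃ g : V → Fin 3, bad E g ≤ 10 ^ 10 * Fintype.card V ^ 2 := by
  obtain ⟨g, hg⟩ := stab h.c.sy h.c.k4 (certs i h.c.sy h.c.k4)
  refine ⟨g, ?_⟩
  rw [sum_XL_zero h.c] at hg
  have h2 := Nat.mul_le_mul_left (129024000 * Fintype.card V ^ 3) h.low
  have e0 : ∑ a, ∑ b, ∑ c, E a b c = S3 E := rfl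
  rw [e0] at hg
  have e1 : 129024000 * Fintype.card V ^ 3 * (5 * Fintype.card V ^ 3) =
      645120000 * Fintype.card V ^ 6 := by ring
  have e2 : 129024000 * Fintype.card V ^ 3 * (9 * S3 E + 57 * Fintype.card V ^ 2) =
      1161216000 * (Fintype.card V ^ 3 * S3 E) + 7354368000 * Fintype.card V ^ 5 := by ring
  rw [e1, e2] at h2
  have h3 : Fintype.card V ^ 3 * bad E g ≤ Fintype.card V ^ 3 * (7354368000 * Fintype.card V ^ 2) := by
    have e3 : Fintype.card V ^ 3 * (7354368000 * Fintype.card V ^ 2) =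
      7354368000 * Fintype.card V ^ 5 := by ring
    rw [e3]
    omega
  have h4 := Nat.le_of_mul_le_mul_left h3 (by positivity)
  omega

/-- the parts have nearly equal sizes -/
theorem Ext1.parts (h : Ext1 i E) {g : V → Fin 3} (hn : 10 ^ 10 ≤ Fintype.card V)
    (hb : 10 ^ 9 * bad E g ≤ Fintype.card V ^ 3) (k : Fin 3) :
    3 * Fintype.card V ≤ 10 * (Pt g k).card ∧ 10 * (Pt g k).card ≤ 4 * Fintype.card V := by
  have h1 : S3 E ≤ S3 (fun x y z => Rf (g x) (g y) (g z)) + bad E g := by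
    have e1 : S3 E ≤ S3 fun x y z => Rf (g x) (g y) (g z) +
        (if E x y z ≠ Rf (g x) (g y) (g z) then 1 else 0) := by
      refine S3_le fun x y z => ?_
      rcases h.c.sy.b x y z with h1 | h1
      · rw [h1]; exact Nat.zero_le _
      · by_cases h2 : E x y z ≠ Rf (g x) (g y) (g z)
        · rw [if_pos h2, h1]; omega
        · push Not at h2
          rw [if_neg (not_not.mpr h2), h2, add_zero]
    rw [S3_add] at e1
    refine e1.trans (Nat.add_le_add_left ?_ _)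
    have e2 : S3 (fun x y z => if E x y z ≠ Rf (g x) (g y) (g z) then 1 else 0) =
        ((univ : Finset (V × V × V)).filter fun t =>
          E t.1 t.2.1 t.2.2 ≠ Rf (g t.1) (g t.2.1) (g t.2.2)).card := by
      unfold S3
      rw [card_filter, Fintype.sum_prod_type]
      refine sum_congr rfl fun a _ => ?_
      rw [Fintype.sum_prod_type]
    rw [e2]
    unfold bad
    refine card_le_card_of_injOn (fun p => ![p.1, p.2.1, p.2.2]) ?_ ?_
    · intro p hp
      exact mem_coe.mpr (mem_filter.mpr ⟨mem_univ _, (mem_filter.mp (mem_coe.mp hp)).2⟩)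
    · rintro ⟨a, b, c⟩ _ ⟨a', b', c'⟩ _ hh
      have k0 : a = a' := congrFun hh 0
      have k1 : b = b' := congrFun hh 1
      have k2 : c = c' := congrFun hh 2
      rw [k0, k1, k2]
  rw [S3_R] at h1
  have h2 := h.low
  set n := Fintype.card V with hn'
  have h3 : 10 ^ 9 * n ^ 2 ≤ n ^ 3 := by
    calc 10 ^ 9 * n ^ 2 ≤ n * n ^ 2 := Nat.mul_le_mul_right _ (by omega)
      _ = n ^ 3 := by ring
  have h4 := part_sizes (Pt_add g) (by omega) (n := n) (by
    generalize P3 (Pt g 0).card (Pt g 1).card (Pt g 2).card = P at h1 ⊢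
    generalize n ^ 3 = W at *
    generalize n ^ 2 = Z at *
    omega)
  obtain ⟨a1, a2, a3, a4, a5, a6⟩ := h4
  fin_cases k
  exacts [⟨a1, a2⟩, ⟨a3, a4⟩, ⟨a5, a6⟩]

end
end Pool.Agent.TH773.ST
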