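import Pool.Agent.TH773.ST.Ver

/-! Extremal structures: a colouring which is good at every vertex, and the main theorem. -/

set_option autoImplicit false
set_option maxRecDepth 100000
set_option maxHeartbeats 4000000
open Finset
open scoped Classical

namespace Pool.Agent.TH773.ST
open Pool.Agent.H122R2.N6 Pool.Agent.H37R3.Pen Pool.Agent.H37R3.Cop Pool.Agent.H37R3.CopL

section
variable {V : Type} [Fintype V] (E : V → V → V → ℕ) (g : V → Fin 3)

/-- seeds whose colours are right -/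
noncomputable def Sp : Finset (Fin 5 → V) :=
  univ.filter fun s => Seed E s ∧ ∀ k, g (s k) = sg k

/-- seeds for which `v` has the colour `d` -/
noncomputable def Av (v : V) (d : Fin 3) : Finset (Fin 5 → V) :=
  (Sp E g).filter fun s => Ext E s v d

/-- violations at `v` for the colour `d` -/
noncomputable def Bv (v : V) (d : Fin 3) : Finset (Fin 2 → V) :=
  univ.filter fun t => E (t 0) (t 1) v ≠ Rf (g (t 0)) (g (t 1)) d

variable {E g}

theorem Sp_card (hb : bad E g ≤ 10 ^ 10 * Fintype.card V ^ 2)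
    (hp : ∀ k, 3 * Fintype.card V ≤ 10 * (Pt g k).card) (hn : 10 ^ 20 ≤ Fintype.card V) :
    242 * Fintype.card V ^ 5 ≤ 10 ^ 5 * (Sp E g).card := by
  let I : Finset (Fin 5 × Fin 5 × Fin 5) := univ.filter fun p => p.1 < p.2.1 ∧ p.2.1 < p.2.2
  have hI : I.card = 10 := by decide
  let F : Fin 5 × Fin 5 × Fin 5 → Finset (Fin 5 → V) := fun p =>
    univ.filter fun s => E (s p.1) (s p.2.1) (s p.2.2) ≠
      Rf (g (s p.1)) (g (s p.2.1)) (g (s p.2.2))
  have hF : ∀ p ∈ I, (F p).card ≤ bad E g * Fintype.card V ^ 2 := by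
    intro p hp
    obtain ⟨h1, h2⟩ := (mem_filter.mp hp).2
    have he : Function.Injective ![p.1, p.2.1, p.2.2] := by
      intro i j h
      have h3 := h1.trans h2
      fin_cases i <;> fin_cases j
      · rfl
      · exact absurd h h1.ne
      · exact absurd h h3.ne
      · exact absurd h h1.ne'
      · rfl
      · exact absurd h h2.ne
      · exact absurd h h3.ne'
      · exact absurd h h2.ne'
      · rfl
    refine card_pullS ![p.1, p.2.1, p.2.2] he (F p) _ ?_
    intro w hw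
    exact mem_filter.mpr ⟨mem_univ _, (mem_filter.mp hw).2⟩
  have hsub : Fintype.piFinset (fun k : Fin 5 => Pt g (sg k)) ⊆ Sp E g ∪ I.biUnion F := by
    intro s hs
    rw [Fintype.mem_piFinset] at hs
    have hs' : ∀ k, g (s k) = sg k := fun k => (mem_filter.mp (hs k)).2
    by_contra hno
    rw [mem_union, mem_biUnion] at hno
    push Not at hno
    refine hno.1 (mem_filter.mpr ⟨mem_univ _, ?_, hs'⟩)
    intro i j k hij hjk
    by_contra h
    refine hno.2 (i, j, k) (mem_filter.mpr ⟨mem_univ _, hij, hjk⟩) (mem_filter.mpr ⟨mem_univ _, ?_⟩)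
    change E (s i) (s j) (s k) ≠ Rf (g (s i)) (g (s j)) (g (s k))
    rw [hs', hs', hs']
    exact h
  have h1 := (card_le_card hsub).trans (card_union_le _ _)
  have h2 : (I.biUnion F).card ≤ 10 * (bad E g * Fintype.card V ^ 2) := by
    refine card_biUnion_le.trans ((sum_le_sum hF).trans ?_)
    rw [sum_const, hI, smul_eq_mul]
  rw [Fintype.card_piFinset] at h1
  have h3 : 243 * Fintype.card V ^ 5 ≤ 10 ^ 5 * ∏ k : Fin 5, (Pt g (sg k)).card := by
    have key : ∀ f : Fin 5 → ℕ, (∀ k, 3 * Fintype.card V ≤ 10 * f k) →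
        (3 * Fintype.card V) ^ 5 ≤ 10 ^ 5 * ∏ k, f k := by
      intro f hf
      have e1 : (10 : ℕ) ^ 5 * ∏ k, f k = ∏ k : Fin 5, (10 * f k) := by
        rw [prod_mul_distrib, prod_const, card_univ, Fintype.card_fin]
      have e2 : (3 * Fintype.card V) ^ 5 = ∏ _k : Fin 5, (3 * Fintype.card V) := by
        rw [prod_const, card_univ, Fintype.card_fin]
      rw [e1, e2]
      exact prod_le_prod' fun k _ => hf k
    have h4 := key (fun k => (Pt g (sg k)).card) fun k => hp _
    calc 243 * Fintype.card V ^ 5 = (3 * Fintype.card V) ^ 5 := by ring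
      _ ≤ _ := h4
  set n := Fintype.card V with hn'
  have h5 : bad E g * n ^ 2 ≤ 10 ^ 10 * n ^ 4 := by
    calc bad E g * n ^ 2 ≤ 10 ^ 10 * n ^ 2 * n ^ 2 := Nat.mul_le_mul_right _ hb
      _ = _ := by ring
  have h6 : 10 ^ 20 * n ^ 4 ≤ n ^ 5 := by
    calc 10 ^ 20 * n ^ 4 ≤ n * n ^ 4 := Nat.mul_le_mul_right _ hn
      _ = _ := by ring
  generalize (∏ k : Fin 5, (Pt g (sg k)).card) = P at h1 h3
  generalize bad E g * n ^ 2 = Q at h2 h5
  generalize n ^ 5 = W at h3 h6 ⊢
  generalize n ^ 4 = Z at h5 h6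
  omega

theorem exists_colour (hb : bad E g ≤ 10 ^ 10 * Fintype.card V ^ 2)
    (hp : ∀ k, 3 * Fintype.card V ≤ 10 * (Pt g k).card) (hn : 10 ^ 20 ≤ Fintype.card V) {v : V}
    (hv : 10 ^ 13 * NTv E v ≤ Fintype.card V ^ 5) :
    ∃ d, Fintype.card V ^ 5 ≤ 1250 * (Av E g v d).card := by
  have h1 := Sp_card hb hp hn
  have h2 : Sp E g ⊆ ((Av E g v 0 ∪ Av E g v 1) ∪ Av E g v 2) ∪
      (univ : Finset (Fin 5 → V)).filter fun y => ¬ TT E ![y 0, y 1, y 2, y 3, y 4, v] := by
    intro s hs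
    by_contra hno
    rw [mem_union, mem_union, mem_union, mem_filter] at hno
    push Not at hno
    obtain ⟨⟨⟨h0, h1⟩, h2⟩, h3⟩ := hno
    obtain ⟨d, hd⟩ := ext_of_tt (mem_filter.mp hs).2.1 (h3 (mem_univ _))
    fin_cases d
    · exact h0 (mem_filter.mpr ⟨hs, hd⟩)
    · exact h1 (mem_filter.mpr ⟨hs, hd⟩)
    · exact h2 (mem_filter.mpr ⟨hs, hd⟩)
  have h3 := (card_le_card h2).trans ((card_union_le _ _).trans (Nat.add_le_add_right
    ((card_union_le _ _).trans (Nat.add_le_add_right (card_union_le _ _) _)) _))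
  have h4 : ((univ : Finset (Fin 5 → V)).filter fun y =>
      ¬ TT E ![y 0, y 1, y 2, y 3, y 4, v]).card = NTv E v := rfl
  rw [h4] at h3
  by_contra hno
  push Not at hno
  have a0 := hno 0
  have a1 := hno 1
  have a2 := hno 2
  generalize Fintype.card V ^ 5 = W at *
  omega

def mk7 (s : Fin 5 → V) (t : Fin 2 → V) : Fin 7 → V := ![s 0, s 1, s 2, s 3, s 4, t 0, t 1]

theorem card_pull7 {m : ℕ} (e : Fin m → Fin 7) (he : Function.Injective e)
    (S : Finset ((Fin 5 → V) × (Fin 2 → V))) (T : Finset (Fin m → V))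
    (h : ∀ p ∈ S, mk7 p.1 p.2 ∘ e ∈ T) : S.card ≤ T.card * Fintype.card V ^ (7 - m) := by
  have h1 : S.card ≤ (S.image fun p => mk7 p.1 p.2).card := by
    rw [card_image_of_injOn]
    intro p _ q _ hh
    have hh' : mk7 p.1 p.2 = mk7 q.1 q.2 := hh
    refine Prod.ext ?_ ?_
    · funext i
      fin_cases i
      exacts [congrFun hh' 0, congrFun hh' 1, congrFun hh' 2, congrFun hh' 3, congrFun hh' 4]
    · funext i
      fin_cases i
      exacts [congrFun hh' 5, congrFun hh' 6]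
  refine h1.trans (card_pullS e he _ T ?_)
  intro w hw
  obtain ⟨p, hp, rfl⟩ := mem_image.mp hw
  exact h p hp

/-- the violations at a vertex -/
theorem AB_le (v : V) (d : Fin 3) : (Av E g v d).card * (Bv E g v d).card ≤
    20 * (bad E g * Fintype.card V ^ 4) + NT E * Fintype.card V +
      3 * (NTv E v * Fintype.card V ^ 2) := by
  let I : Finset (Fin 5 × Fin 5) := univ.filter fun p => p.1 < p.2
  have hI : I.card = 10 := by decide
  let F : Fin 5 × Fin 5 → Finset ((Fin 5 → V) × (Fin 2 → V)) := fun p =>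
    univ.filter fun w => E (w.1 p.1) (w.1 p.2) (w.2 0) ≠ Rf (g (w.1 p.1)) (g (w.1 p.2)) (g (w.2 0))
  let G : Fin 5 × Fin 5 → Finset ((Fin 5 → V) × (Fin 2 → V)) := fun p =>
    univ.filter fun w => E (w.1 p.1) (w.1 p.2) (w.2 1) ≠ Rf (g (w.1 p.1)) (g (w.1 p.2)) (g (w.2 1))
  let H1 : Finset ((Fin 5 → V) × (Fin 2 → V)) := univ.filter fun w =>
    ¬ TT E ![w.1 0, w.1 1, w.1 2, w.1 3, w.2 0, w.2 1]
  let H2 : Finset ((Fin 5 → V) × (Fin 2 → V)) := univ.filter fun w =>
    ¬ TT E ![w.1 0, w.1 1, w.1 2, w.1 3, w.2 0, v]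
  let H3 : Finset ((Fin 5 → V) × (Fin 2 → V)) := univ.filter fun w =>
    ¬ TT E ![w.1 0, w.1 1, w.1 2, w.1 3, w.2 1, v]
  let H4 : Finset ((Fin 5 → V) × (Fin 2 → V)) := univ.filter fun w =>
    ¬ TT E ![w.1 0, w.1 1, w.1 2, w.2 0, w.2 1, v]
  let c5 : Fin 5 → Fin 7 := Fin.castLE (by norm_num)
  have hmk : ∀ (s : Fin 5 → V) (t : Fin 2 → V) (k : Fin 5), mk7 s t (c5 k) = s k := by
    intro s t k
    fin_cases k <;> rfl
  have hFG : ∀ p ∈ I, (F p).card ≤ bad E g * Fintype.card V ^ 4 ∧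
      (G p).card ≤ bad E g * Fintype.card V ^ 4 := by
    intro p hp
    have h1 : p.1 < p.2 := (mem_filter.mp hp).2
    have h1' : c5 p.1 < c5 p.2 := h1
    have h5 : ∀ k, c5 k < 5 := fun k => by
      rw [Fin.lt_def]; exact k.isLt
    have h6 : ∀ k, c5 k < 6 := fun k => by
      rw [Fin.lt_def]; exact k.isLt.trans (by norm_num)
    constructor
    · have he : Function.Injective ![c5 p.1, c5 p.2, 5] := by
        intro i j h
        fin_cases i <;> fin_cases j
        · rfl
        · exact absurd h h1'.ne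
        · exact absurd h (h5 _).ne
        · exact absurd h h1'.ne'
        · rfl
        · exact absurd h (h5 _).ne
        · exact absurd h (h5 _).ne'
        · exact absurd h (h5 _).ne'
        · rfl
      refine card_pull7 ![c5 p.1, c5 p.2, 5] he (F p) _ ?_
      intro w hw
      have hw' := (mem_filter.mp hw).2
      refine mem_filter.mpr ⟨mem_univ _, ?_⟩
      change E (mk7 w.1 w.2 (c5 p.1)) (mk7 w.1 w.2 (c5 p.2)) (w.2 0) ≠
        Rf (g (mk7 w.1 w.2 (c5 p.1))) (g (mk7 w.1 w.2 (c5 p.2))) (g (w.2 0))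
      rw [hmk, hmk]
      exact hw'
    · have he : Function.Injective ![c5 p.1, c5 p.2, 6] := by
        intro i j h
        fin_cases i <;> fin_cases j
        · rfl
        · exact absurd h h1'.ne
        · exact absurd h (h6 _).ne
        · exact absurd h h1'.ne'
        · rfl
        · exact absurd h (h6 _).ne
        · exact absurd h (h6 _).ne'
        · exact absurd h (h6 _).ne'
        · rfl
      refine card_pull7 ![c5 p.1, c5 p.2, 6] he (G p) _ ?_
      intro w hw
      have hw' := (mem_filter.mp hw).2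
      refine mem_filter.mpr ⟨mem_univ _, ?_⟩
      change E (mk7 w.1 w.2 (c5 p.1)) (mk7 w.1 w.2 (c5 p.2)) (w.2 1) ≠
        Rf (g (mk7 w.1 w.2 (c5 p.1))) (g (mk7 w.1 w.2 (c5 p.2))) (g (w.2 1))
      rw [hmk, hmk]
      exact hw'
  have hH1 : H1.card ≤ NT E * Fintype.card V := by
    have h := card_pull7 (![0, 1, 2, 3, 5, 6] : Fin 6 → Fin 7) (by decide) H1
      ((univ : Finset (Fin 6 → V)).filter fun x => ¬ TT E x) (by
        intro w hw
        refine mem_filter.mpr ⟨mem_univ _, ?_⟩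
        have e : mk7 w.1 w.2 ∘ (![0, 1, 2, 3, 5, 6] : Fin 6 → Fin 7) =
            ![w.1 0, w.1 1, w.1 2, w.1 3, w.2 0, w.2 1] := by
          funext k; fin_cases k <;> rfl
        rw [e]
        exact (mem_filter.mp hw).2)
    rw [show 7 - 6 = 1 from rfl, pow_one] at h
    exact h
  have hH2 : H2.card ≤ NTv E v * Fintype.card V ^ 2 := by
    refine card_pull7 (![0, 1, 2, 3, 5] : Fin 5 → Fin 7) (by decide) H2 _ ?_
    intro w hw
    exact mem_filter.mpr ⟨mem_univ _, (mem_filter.mp hw).2⟩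
  have hH3 : H3.card ≤ NTv E v * Fintype.card V ^ 2 := by
    refine card_pull7 (![0, 1, 2, 3, 6] : Fin 5 → Fin 7) (by decide) H3 _ ?_
    intro w hw
    exact mem_filter.mpr ⟨mem_univ _, (mem_filter.mp hw).2⟩
  have hH4 : H4.card ≤ NTv E v * Fintype.card V ^ 2 := by
    refine card_pull7 (![0, 1, 2, 5, 6] : Fin 5 → Fin 7) (by decide) H4 _ ?_
    intro w hw
    exact mem_filter.mpr ⟨mem_univ _, (mem_filter.mp hw).2⟩
  have hsub : Av E g v d ×ˢ Bv E g v d ⊆
      (((I.biUnion F ∪ I.biUnion G) ∪ H1) ∪ ((H2 ∪ H3) ∪ H4)) := by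
    rintro ⟨s, t⟩ hst
    obtain ⟨hs, ht⟩ := mem_product.mp hst
    obtain ⟨hs1, hs2⟩ := mem_filter.mp hs
    obtain ⟨hs3, hs4⟩ := (mem_filter.mp hs1).2
    have ht' := (mem_filter.mp ht).2
    simp only at hs1 hs2 hs3 hs4 ht'
    by_contra hno
    simp only [mem_union, mem_biUnion] at hno
    push Not at hno
    obtain ⟨⟨⟨n1, n2⟩, n3⟩, ⟨n4, n5⟩, n6⟩ := hno
    refine ht' (triple_of_tt (s := s) hs3 (x := t 0) (y := t 1) (z := v) ?_ ?_ hs2 ?_ ?_ ?_ ?_)
    · intro a b hab
      by_contra h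
      refine n1 (a, b) (mem_filter.mpr ⟨mem_univ _, hab⟩) (mem_filter.mpr ⟨mem_univ _, ?_⟩)
      change E (s a) (s b) (t 0) ≠ Rf (g (s a)) (g (s b)) (g (t 0))
      rw [hs4, hs4]
      exact h
    · intro a b hab
      by_contra h
      refine n2 (a, b) (mem_filter.mpr ⟨mem_univ _, hab⟩) (mem_filter.mpr ⟨mem_univ _, ?_⟩)
      change E (s a) (s b) (t 1) ≠ Rf (g (s a)) (g (s b)) (g (t 1))
      rw [hs4, hs4]
      exact h
    · by_contra h
      exact n3 (mem_filter.mpr ⟨mem_univ _, h⟩)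
    · by_contra h
      exact n4 (mem_filter.mpr ⟨mem_univ _, h⟩)
    · by_contra h
      exact n5 (mem_filter.mpr ⟨mem_univ _, h⟩)
    · by_contra h
      exact n6 (mem_filter.mpr ⟨mem_univ _, h⟩)
  rw [← card_product]
  refine (card_le_card hsub).trans ?_
  have u1 := card_union_le ((I.biUnion F ∪ I.biUnion G) ∪ H1) ((H2 ∪ H3) ∪ H4)
  have u2 := card_union_le (I.biUnion F ∪ I.biUnion G) H1
  have u3 := card_union_le (I.biUnion F) (I.biUnion G)
  have u4 := card_union_le (H2 ∪ H3) H4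
  have u5 := card_union_le H2 H3
  have w1 : (I.biUnion F).card ≤ 10 * (bad E g * Fintype.card V ^ 4) := by
    refine card_biUnion_le.trans ((sum_le_sum fun p hp => (hFG p hp).1).trans ?_)
    rw [sum_const, hI, smul_eq_mul]
  have w2 : (I.biUnion G).card ≤ 10 * (bad E g * Fintype.card V ^ 4) := by
    refine card_biUnion_le.trans ((sum_le_sum fun p hp => (hFG p hp).2).trans ?_)
    rw [sum_const, hI, smul_eq_mul]
  generalize bad E g * Fintype.card V ^ 4 = Z1 at *
  generalize NTv E v * Fintype.card V ^ 2 = Z2 at *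
  generalize NT E * Fintype.card V = Z3 at *
  omega

end
end Pool.Agent.TH773.ST
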